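import Pool.Agent.Lib.MP_320961_gt.Defs

/-! Clifford identities. -/

open scoped RealInnerProductSpace ENNReal NNReal
open Set Metric MeasureTheory Filter Topology

noncomputable section

namespace H42

theorem cl_cl (x : V) (s : S) : cl x (cl x s) = qV x x • s := by
  rw [qV_apply, inner4, inner3]
  refine S_ext ?_ ?_ <;> ext i <;> fin_cases i <;>
    simp [cl_apply, cl0, qm, cj, im3] <;> ring

theorem cl_anti (x y : V) (s : S) : cl x (cl y s) + cl y (cl x s) = (2 * qV x y) • s := by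
  have h := cl_cl (x + y) s
  simp only [map_add, LinearMap.add_apply, add_apply, cl_cl, qV_comm y x] at h
  have e : (qV x x + qV x y + (qV x y + qV y y)) • s
      = qV x x • s + (2 * qV x y) • s + qV y y • s := by module
  rw [e] at h
  have : cl x (cl y s) + cl y (cl x s) =
      (qV x x • s + cl y (cl x s) + (cl x (cl y s) + qV y y • s)) - qV x x • s - qV y y • s := by
    abel
  rw [this, h]; abel

theorem cl_skew (x : V) (s t : S) : qS (cl x s) t = -qS s (cl x t) := by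
  simp [qS_apply, cl_apply, cl0, qm, cj, im3, inner4]; ring

theorem qS_cl (x : V) (s t : S) : qS (cl x s) (cl x t) = -(qV x x * qS s t) := by
  rw [cl_skew, cl_cl]; simp

theorem inner_cl_p (p : E4) (s t : S) : ⟪cl (mkV p 0) s, t⟫ = ⟪s, cl (mkV p 0) t⟫ := by
  simp [cl_apply, cl0, qm, cj, im3, inner4]; ring

theorem inner_cl_w (w : E3) (s t : S) : ⟪cl (mkV 0 w) s, t⟫ = -⟪s, cl (mkV 0 w) t⟫ := by
  simp [cl_apply, cl0, qm, cj, im3, inner4]; ring

theorem norm_cl_p (p : E4) (s : S) : ‖cl (mkV p 0) s‖ = ‖p‖ * ‖s‖ := by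
  rw [← sq_eq_sq₀ (norm_nonneg _) (by positivity), ← real_inner_self_eq_norm_sq, inner_cl_p, cl_cl,
    qV_self, inner_smul_right, real_inner_self_eq_norm_sq]
  simp [mul_pow]

theorem norm_cl_w (w : E3) (s : S) : ‖cl (mkV 0 w) s‖ = ‖w‖ * ‖s‖ := by
  rw [← sq_eq_sq₀ (norm_nonneg _) (by positivity), ← real_inner_self_eq_norm_sq, inner_cl_w, cl_cl,
    qV_self, inner_smul_right, real_inner_self_eq_norm_sq]
  simp [mul_pow]

theorem mkV_add (p p' : E4) (w w' : E3) : mkV p w + mkV p' w' = mkV (p + p') (w + w') := rfl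
theorem mkV_smul (c : ℝ) (p : E4) (w : E3) : c • mkV p w = mkV (c • p) (c • w) := rfl
theorem mkS_add (a a' b b' : E4) : mkS a b + mkS a' b' = mkS (a + a') (b + b') := rfl
theorem mkS_smul (c : ℝ) (a b : E4) : c • mkS a b = mkS (c • a) (c • b) := rfl
theorem mkS_neg (a b : E4) : -mkS a b = mkS (-a) (-b) := rfl
theorem mkS_sub (a a' b b' : E4) : mkS a b - mkS a' b' = mkS (a - a') (b - b') := rfl
theorem norm_mkV_p (p : E4) : ‖mkV p 0‖ = ‖p‖ := WithLp.norm_toLp_fst 2 E4 E3 p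
theorem norm_mkV_w (w : E3) : ‖mkV 0 w‖ = ‖w‖ := WithLp.norm_toLp_snd 2 E4 E3 w
theorem norm_wI : ‖wI‖ = 1 := by simp [wI]
theorem norm_ee (i : Fin 4) : ‖ee i‖ = 1 := by simp [ee]

theorem norm_cl_le (x : V) (s : S) : ‖cl x s‖ ≤ 2 * ‖x‖ * ‖s‖ := by
  have e : x = mkV x.fst 0 + mkV 0 x.snd := by rw [mkV_add]; simp
  have h1 : ‖x.fst‖ ≤ ‖x‖ := WithLp.norm_fst_le _ x
  have h2 : ‖x.snd‖ ≤ ‖x‖ := WithLp.norm_snd_le _ x
  calc ‖cl x s‖ = ‖cl (mkV x.fst 0) s + cl (mkV 0 x.snd) s‖ := by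
        conv_lhs => rw [e]
        simp only [map_add, add_apply]
    _ ≤ ‖x.fst‖ * ‖s‖ + ‖x.snd‖ * ‖s‖ := by
        rw [← norm_cl_p, ← norm_cl_w]; exact norm_add_le _ _
    _ ≤ 2 * ‖x‖ * ‖s‖ := by nlinarith [norm_nonneg s]

/-- The product of an orthonormal triple of the negative part is `± thS`. -/
theorem cl_three {w₀ w₁ w₂ : E3} (h₀ : ‖w₀‖ = 1) (h₁ : ‖w₁‖ = 1) (h₂ : ‖w₂‖ = 1)
    (h01 : ⟪w₀, w₁⟫ = 0) (h02 : ⟪w₀, w₂⟫ = 0) (h12 : ⟪w₁, w₂⟫ = 0) :
    ∃ e : ℝ, (e = 1 ∨ e = -1) ∧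
      ∀ s, cl (mkV 0 w₀) (cl (mkV 0 w₁) (cl (mkV 0 w₂) s)) = e • thS s := by
  set d : ℝ := w₀ 0 * (w₁ 1 * w₂ 2 - w₁ 2 * w₂ 1) - w₀ 1 * (w₁ 0 * w₂ 2 - w₁ 2 * w₂ 0)
    + w₀ 2 * (w₁ 0 * w₂ 1 - w₁ 1 * w₂ 0) with hd
  have n0 : ⟪w₀, w₀⟫ = 1 := by rw [real_inner_self_eq_norm_sq, h₀]; norm_num
  have n1 : ⟪w₁, w₁⟫ = 1 := by rw [real_inner_self_eq_norm_sq, h₁]; norm_num
  have n2 : ⟪w₂, w₂⟫ = 1 := by rw [real_inner_self_eq_norm_sq, h₂]; norm_num
  have hG : d ^ 2 = ⟪w₀, w₀⟫ * (⟪w₁, w₁⟫ * ⟪w₂, w₂⟫ - ⟪w₁, w₂⟫ ^ 2)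
      - ⟪w₀, w₁⟫ * (⟪w₀, w₁⟫ * ⟪w₂, w₂⟫ - ⟪w₁, w₂⟫ * ⟪w₀, w₂⟫)
      + ⟪w₀, w₂⟫ * (⟪w₀, w₁⟫ * ⟪w₁, w₂⟫ - ⟪w₁, w₁⟫ * ⟪w₀, w₂⟫) := by
    simp only [inner3, hd]; ring
  rw [n0, n1, n2, h01, h02, h12] at hG
  have hd2 : (-d) ^ 2 = 1 := by rw [neg_sq, hG]; ring
  refine ⟨-d, sq_eq_one_iff.1 hd2, fun s => ?_⟩
  have key : cl (mkV 0 w₀) (cl (mkV 0 w₁) (cl (mkV 0 w₂) s)) = (-d) • thS s
      - ⟪w₀, w₁⟫ • cl (mkV 0 w₂) s + ⟪w₀, w₂⟫ • cl (mkV 0 w₁) s - ⟪w₁, w₂⟫ • cl (mkV 0 w₀) s := by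
    refine S_ext ?_ ?_ <;> ext i <;> fin_cases i <;>
      simp [cl_apply, cl0, qm, cj, im3, thS_apply, inner3, hd] <;> ring
  rw [key, h01, h02, h12]; simp

theorem swp_eq_cl (s : S) : swp s = cl (mkV (ee 0) 0) s := by
  refine S_ext ?_ ?_ <;> ext i <;> fin_cases i <;>
    simp [cl_apply, cl0, qm, cj, im3, swp_apply, ee]

theorem tau_spec (s t : S) (x : V) : qV (tau s t) x = qS (cl x s) t := by
  simp [qV_apply, qS_apply, tau_apply, tau0, cl_apply, cl0, qm, cj, im3, pu, inner4, inner3]; ring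

theorem tau_skew (s t : S) : tau s t = -tau t s := by
  refine qV_nondeg fun z => ?_
  rw [map_neg, LinearMap.neg_apply, tau_spec, tau_spec, cl_skew, qS_comm]

theorem tau_self (s : S) : tau s s = 0 := by
  have h := tau_skew s s
  have : (2 : ℝ) • tau s s = 0 := by rw [two_smul]; nth_rewrite 1 [h]; simp
  simpa using this

theorem cl_tau (s t : S) : cl (tau s t) s = -(qS s s) • t + qS s t • s := by
  rw [qS_apply, qS_apply, inner4, inner4, inner4, inner4]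
  refine S_ext ?_ ?_ <;> ext i <;> fin_cases i <;>
    simp [cl_apply, cl0, tau_apply, tau0, pu, qm, cj, im3] <;> ring

theorem Orth.injective {g : V →L[ℝ] V} (hg : Orth g) : Function.Injective g := by
  intro x y h
  exact qV_nondeg fun z => by rw [← hg x z, h, hg]

theorem Orth.surjective {g : V →L[ℝ] V} (hg : Orth g) : Function.Surjective g := by
  exact (LinearMap.injective_iff_surjective (f := g.toLinearMap)).1 hg.injective

theorem Conf.injective {h : S →L[ℝ] S} (hh : Conf h) : Function.Injective h := by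
  intro x y e
  refine qS_nondeg fun z => ?_
  rcases hh with hh | hh
  · rw [← hh x z, e, hh]
  · rw [← neg_inj, ← hh x z, e, hh]

theorem Conf.surjective {h : S →L[ℝ] S} (hh : Conf h) : Function.Surjective h := by
  exact (LinearMap.injective_iff_surjective (f := h.toLinearMap)).1 hh.injective

theorem Conf.abs {h : S →L[ℝ] S} (hh : Conf h) (s t : S) : |qS (h s) (h t)| = |qS s t| := by
  rcases hh with hh | hh <;> simp [hh]

theorem Orth.mul {g g' : V →L[ℝ] V} (hg : Orth g) (hg' : Orth g') : Orth (g * g') := by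
  intro x y
  simp only [mul_apply_eq_comp]
  rw [hg, hg']

theorem Orth.neg {g : V →L[ℝ] V} (hg : Orth g) : Orth (-g) := by
  intro x y
  simp [hg x y]

theorem Conf.mul {h h' : S →L[ℝ] S} (hh : Conf h) (hh' : Conf h') : Conf (h * h') := by
  rcases hh with hh | hh <;> rcases hh' with hh' | hh'
  · exact Or.inl fun s t => by simp only [mul_apply_eq_comp]; rw [hh, hh']
  · exact Or.inr fun s t => by simp only [mul_apply_eq_comp]; rw [hh, hh']
  · exact Or.inr fun s t => by simp only [mul_apply_eq_comp]; rw [hh, hh']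
  · exact Or.inl fun s t => by simp only [mul_apply_eq_comp]; rw [hh, hh', neg_neg]

theorem Lift.one : Lift 1 1 := by
  exact ⟨fun _ _ => rfl, fun _ _ => rfl, Or.inl fun _ _ => rfl⟩

theorem Lift.mul {g g' : V →L[ℝ] V} {h h' : S →L[ℝ] S} (L : Lift g h) (L' : Lift g' h') :
    Lift (g * g') (h * h') := by
  refine ⟨L.orth.mul L'.orth, fun x s => ?_, L.conf.mul L'.conf⟩
  simp only [mul_apply_eq_comp]
  rw [L'.eqv, L.eqv]

/-- The inverse pair of a lift is a lift. -/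
theorem Lift.inv {g g' : V →L[ℝ] V} {h h' : S →L[ℝ] S} (L : Lift g h) (hg : g * g' = 1)
    (hh : h * h' = 1) : Lift g' h' := by
  have e1 : ∀ x, g (g' x) = x := fun x => by
    rw [← mul_apply_eq_comp, hg]; rfl
  have e2 : ∀ s, h (h' s) = s := fun s => by
    rw [← mul_apply_eq_comp, hh]; rfl
  refine ⟨fun x y => by rw [← L.orth, e1, e1], fun x s => L.conf.injective ?_, ?_⟩
  · rw [e2, L.eqv, e1, e2]
  · rcases L.conf with hc | hc
    · exact Or.inl fun s t => by rw [← hc, e2, e2]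
    · exact Or.inr fun s t => by rw [← neg_inj, ← hc, e2, e2, neg_neg]

/-- The point of the three-sphere attached to a null spinor. -/
def pOf (s : S) : E4 := (-2 : ℝ) • qm (cj s.snd) (qm (im3 wI) s.fst)

theorem continuous_pOf : Continuous pOf := by
  have h1 : Continuous fun s : S => s.fst := fstS.continuous
  have h2 : Continuous fun s : S => s.snd := sndS.continuous
  refine (PiLp.continuous_toLp 2 _).comp (continuous_pi fun i => ?_) |>.congr (f := fun s : S =>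
    WithLp.toLp 2 fun i => pOf s i) fun s => rfl
  fin_cases i <;> simp [pOf, qm, cj, im3] <;> fun_prop

theorem pOf_neg (s : S) : pOf (-s) = pOf s := by
  ext i; fin_cases i <;> simp [pOf, qm, cj, im3] <;> ring

theorem half_of_null {s : S} (h1 : ‖s‖ = 1) (h0 : qS s s = 0) :
    ‖s.fst‖ ^ 2 = 1 / 2 ∧ ‖s.snd‖ ^ 2 = 1 / 2 := by
  have a := normS_sq s
  have b := qS_self s
  rw [h1] at a
  constructor <;> linarith

theorem norm_pOf {s : S} (h1 : ‖s‖ = 1) (h0 : qS s s = 0) : ‖pOf s‖ = 1 := by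
  obtain ⟨a, b⟩ := half_of_null h1 h0
  have e : ‖pOf s‖ ^ 2 = 4 * ‖s.fst‖ ^ 2 * ‖s.snd‖ ^ 2 := by
    simp only [← real_inner_self_eq_norm_sq, inner4]
    simp [pOf, qm, cj, im3, wI]; ring
  rw [a, b] at e
  rw [← sq_eq_sq₀ (norm_nonneg _) zero_le_one, e]; norm_num

theorem cl_pOf {s : S} (h1 : ‖s‖ = 1) (h0 : qS s s = 0) : cl (mkV (pOf s) wI) s = 0 := by
  obtain ⟨a, b⟩ := half_of_null h1 h0
  rw [← real_inner_self_eq_norm_sq, inner4] at a b
  refine S_ext ?_ ?_ <;> ext i <;> fin_cases i <;>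
    simp [cl_apply, cl0, pOf, qm, cj, im3, wI]
  · linear_combination (2 * s.fst 1) * b
  · linear_combination (-2 * s.fst 0) * b
  · linear_combination (2 * s.fst 3) * b
  · linear_combination (-2 * s.fst 2) * b
  · linear_combination (-2 * s.snd 1) * a
  · linear_combination (2 * s.snd 0) * a
  · linear_combination (-2 * s.snd 3) * a
  · linear_combination (2 * s.snd 2) * a

theorem pOf_eq {s : S} (h1 : ‖s‖ = 1) (h0 : qS s s = 0) {p : E4} (hp : cl (mkV p wI) s = 0) :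
    pOf s = p := by
  have h2 := cl_pOf h1 h0
  have h3 : cl (mkV (pOf s - p) 0) s = 0 := by
    have : mkV (pOf s - p) 0 = mkV (pOf s) wI - mkV p wI := V_ext (by simp) (by simp)
    rw [this, map_sub, sub_apply, h2, hp, sub_zero]
  have h4 := norm_cl_p (pOf s - p) s
  rw [h3, h1, norm_zero, mul_one] at h4
  exact sub_eq_zero.1 (norm_eq_zero.1 h4.symm)

theorem ker_null {p : E4} (hp : ‖p‖ = 1) {s t : S} (hs : cl (mkV p wI) s = 0)
    (ht : cl (mkV p wI) t = 0) : qS s t = 0 := by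
  have h := cl_anti (mkV p wI) (mkV p (-wI)) s
  rw [hs, map_zero, add_zero] at h
  have e : qV (mkV p wI) (mkV p (-wI)) = 2 := by
    rw [qV_apply]
    simp only [mkV_fst, mkV_snd, inner_neg_right, real_inner_self_eq_norm_sq, hp, norm_wI]
    norm_num
  have h2 := cl_skew (mkV p wI) (cl (mkV p (-wI)) s) t
  rw [h, ht, e] at h2
  simpa using h2

theorem nn_smul {c : ℝ} (hc : c ≠ 0) (y : V) : nn (c • y) = nn y := by
  simp only [nn, norm_smul, mul_pow, map_smul, LinearMap.smul_apply, smul_eq_mul, Real.norm_eq_abs,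
    sq_abs]
  rw [show -(c * (c * qV y y)) = c ^ 2 * -qV y y by ring, mul_div_mul_left _ _ (pow_ne_zero 2 hc)]

theorem nn_neg (y : V) : nn (-y) = nn y := by
  simp [nn]

theorem one_le_nn {y : V} (hy : qV y y < 0) : 1 ≤ nn y := by
  rw [nn, one_le_div (by linarith), qV_self, normV_sq]
  nlinarith [sq_nonneg ‖y.fst‖]

theorem nn_mkV_w {w : E3} (hw : ‖w‖ = 1) : qV (mkV 0 w) (mkV 0 w) = -1 ∧ nn (mkV 0 w) = 1 := by
  have : qV (mkV 0 w) (mkV 0 w) = -1 := by rw [qV_self]; simp [hw]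
  exact ⟨this, by rw [nn, this, norm_mkV_w, hw]; norm_num⟩

end H42
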