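import Pool.Agent.Lib.MP_320961_gt.Kak

/-! A box in the shell. -/

open scoped RealInnerProductSpace ENNReal NNReal
open Set Metric MeasureTheory Filter Topology

noncomputable section

namespace H42

def shell : Set V := {x | -3 ≤ qV x x ∧ qV x x ≤ -1}

def wt (x : V) : ℝ≥0∞ := ENNReal.ofReal ((1 + ‖x‖) ^ (-6 : ℝ))

theorem measurableSet_shell : MeasurableSet shell := by
  have h : Continuous fun x : V => qV x x := continuous_qV continuous_id continuous_id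
  exact ((isClosed_le continuous_const h).inter (isClosed_le h continuous_const)).measurableSet

theorem measurable_wt : Measurable wt := by
  exact ((measurable_const.add measurable_norm).pow_const _).ennreal_ofReal

theorem box_num {A B C : ℝ} (e2 : 1 ≤ C) (e1 : C ≤ B) (e0 : B ≤ A) {a : Fin 7 → ℝ}
    (l0 : 0 ≤ a 0) (u0 : a 0 ≤ C / 10) (l1 : 0 ≤ a 1) (u1 : a 1 ≤ C / 10) (l2 : C ≤ a 2)
    (u2 : a 2 ≤ 11 / 10 * C) (l3 : 0 ≤ a 3) (u3 : a 3 ≤ A⁻¹ / 10) (l4 : 0 ≤ a 4)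
    (u4 : a 4 ≤ B⁻¹ / 10) (l5 : -(11 / 10 * C⁻¹) ≤ a 5) (u5 : a 5 ≤ -C⁻¹) (l6 : 0 ≤ a 6)
    (u6 : a 6 ≤ 10⁻¹) :
    -3 ≤ 2 * (a 0 * a 3 + a 1 * a 4 + a 2 * a 5) + a 6 ^ 2 ∧
    2 * (a 0 * a 3 + a 1 * a 4 + a 2 * a 5) + a 6 ^ 2 ≤ -1 ∧
    (A⁻¹ * a 0) ^ 2 + (B⁻¹ * a 1) ^ 2 + (C⁻¹ * a 2) ^ 2 + (A * a 3) ^ 2 + (B * a 4) ^ 2 +
      (C * a 5) ^ 2 + a 6 ^ 2 ≤ 4 ^ 2 ∧
    a 0 ^ 2 + a 1 ^ 2 + a 2 ^ 2 + a 3 ^ 2 + a 4 ^ 2 + a 5 ^ 2 + a 6 ^ 2 ≤ (4 * C) ^ 2 := by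
  have hC : 0 < C := by linarith
  have hB : 0 < B := by linarith
  have hA : 0 < A := by linarith
  have iA := mul_inv_cancel₀ hA.ne'
  have iB := mul_inv_cancel₀ hB.ne'
  have iC := mul_inv_cancel₀ hC.ne'
  have pA := inv_pos.2 hA
  have pB := inv_pos.2 hB
  have pC := inv_pos.2 hC
  have qA : A⁻¹ ≤ 1 := inv_le_one_of_one_le₀ (by linarith)
  have qB : B⁻¹ ≤ 1 := inv_le_one_of_one_le₀ (by linarith)
  have qC : C⁻¹ ≤ 1 := inv_le_one_of_one_le₀ e2
  generalize A⁻¹ = A' at *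
  generalize B⁻¹ = B' at *
  generalize C⁻¹ = C' at *
  have sq : ∀ x y : ℝ, 0 ≤ x → x ≤ y → x ^ 2 ≤ y ^ 2 := fun x y h k => pow_le_pow_left₀ h k 2
  have y0 := sq (A' * a 0) (1 / 10) (by positivity) (by nlinarith)
  have y1 := sq (B' * a 1) (1 / 10) (by positivity) (by nlinarith)
  have y2 : 1 ≤ C' * a 2 ∧ C' * a 2 ≤ 11 / 10 := ⟨by nlinarith, by nlinarith⟩
  have y3 := sq (A * a 3) (1 / 10) (by positivity) (by nlinarith)
  have y4 := sq (B * a 4) (1 / 10) (by positivity) (by nlinarith)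
  have y5 : 1 ≤ -(C * a 5) ∧ -(C * a 5) ≤ 11 / 10 := ⟨by nlinarith, by nlinarith⟩
  have y6 := sq _ _ l6 u6
  have z0 : a 0 * a 3 ≤ 1 / 100 :=
    (mul_le_mul u0 u3 l3 (by positivity)).trans (by nlinarith)
  have z1 : a 1 * a 4 ≤ 1 / 100 :=
    (mul_le_mul u1 u4 l4 (by positivity)).trans (by nlinarith)
  have z2 : a 2 * a 5 = -((C' * a 2) * -(C * a 5)) := by linear_combination (-(a 2 * a 5)) * iC
  have z3 := mul_le_mul y2.2 y5.2 (by linarith) (by norm_num)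
  have z4 := one_le_mul_of_one_le_of_one_le y2.1 y5.1
  have z5 := sq _ _ (by linarith) y2.2
  have z6 := sq _ _ (by linarith) y5.2
  have x0 := sq _ _ l0 u0
  have x1 := sq _ _ l1 u1
  have x2 := sq _ _ (by linarith) u2
  have x3 := sq _ 1 l3 (by linarith)
  have x4 := sq _ 1 l4 (by linarith)
  have x5 := sq (-a 5) (11 / 10) (by linarith) (by linarith)
  have x6 : 1 ≤ C ^ 2 := one_le_pow₀ e2
  rw [neg_sq] at z6 x5
  refine ⟨?_, by linarith, by linarith, by linarith⟩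
  linarith [mul_nonneg l0 l3, mul_nonneg l1 l4, sq_nonneg (a 6)]

theorem box_pm {p : Fin 4 → E4} {w : Fin 3 → E3} (hp : Orthonormal ℝ p) (hw : Orthonormal ℝ w)
    (m : Fin 3 → ℝ) (i : Fin 3) :
    bst3 p w m (mkV (p i.castSucc) (w i)) = Real.exp (m i) • mkV (p i.castSucc) (w i) ∧
    bst3 p w m (mkV (p i.castSucc) (-w i)) = Real.exp (-m i) • mkV (p i.castSucc) (-w i) := by
  have e1 : mkV (p i.castSucc) (w i) = mkV (p i.castSucc) 0 + mkV 0 (w i) := by simp [mkV_add]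
  have e2 : mkV (p i.castSucc) (-w i) = mkV (p i.castSucc) 0 + (-1 : ℝ) • mkV 0 (w i) := by
    simp only [mkV_smul, mkV_add]
    simp
  constructor
  · conv_lhs => rw [e1, map_add, bst3_p hp hw, bst3_w hp hw]
    rw [mkV_add, mkV_smul, ← add_smul, ← add_smul, Real.cosh_add_sinh, Real.sinh_add_cosh]
  · conv_lhs => rw [e2, map_add, map_smul, bst3_p hp hw, bst3_w hp hw]
    rw [mkV_smul, mkV_add, mkV_smul, ← Real.cosh_sub_sinh]
    congr 1 <;> module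

theorem box_basis {p : Fin 4 → E4} {w : Fin 3 → E3} (hp : Orthonormal ℝ p) (hw : Orthonormal ℝ w)
    (m : Fin 3 → ℝ) : ∃ b : OrthonormalBasis (Fin 7) ℝ V,
    (∀ u, qV (b.repr.symm u) (b.repr.symm u) =
      2 * (u 0 * u 3 + u 1 * u 4 + u 2 * u 5) + u 6 ^ 2) ∧
    ∀ u, bst3 p w m (b.repr.symm u) = b.repr.symm (WithLp.toLp 2 fun i =>
      ![Real.exp (m 0), Real.exp (m 1), Real.exp (m 2), Real.exp (-m 0), Real.exp (-m 1),
        Real.exp (-m 2), 1] i * u i) := by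
  obtain ⟨s, hs⟩ : ∃ s : ℝ, s * (s * (1 + 1)) = 1 := ⟨√(1 / 2), by
    rw [← mul_assoc, Real.mul_self_sqrt (by norm_num)]; norm_num⟩
  obtain ⟨n, hn⟩ : ∃ n : Fin 7 → V, n = ![s • mkV (p 0) (w 0), s • mkV (p 1) (w 1),
    s • mkV (p 2) (w 2), s • mkV (p 0) (-w 0), s • mkV (p 1) (-w 1), s • mkV (p 2) (-w 2),
    mkV (p 3) 0] := ⟨_, rfl⟩
  have hp' := orthonormal_iff_ite.1 hp
  have hw' := orthonormal_iff_ite.1 hw
  have ho : Orthonormal ℝ n := by
    rw [orthonormal_iff_ite]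
    intro i j
    fin_cases i <;> fin_cases j <;>
      simp [-inner_self_eq_norm_sq_to_K, hn, inner_smul_left, inner_smul_right, hp', hw', hs]
  have hc : Fintype.card (Fin 7) = Module.finrank ℝ V := by
    rw [(WithLp.linearEquiv 2 ℝ (E4 × E3)).finrank_eq]
    simp
  obtain ⟨b, hb⟩ : ∃ b : OrthonormalBasis (Fin 7) ℝ V, ⇑b = n :=
    ⟨(basisOfOrthonormalOfCardEqFinrank ho hc).toOrthonormalBasis (by simpa using ho), by simp⟩
  have hth : ∀ i, thV (n i) = n (![3, 4, 5, 0, 1, 2, 6] i) := by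
    intro i
    fin_cases i <;> simp [hn, thV_apply]
  have hbs : ∀ i, bst3 p w m (n i) = ![Real.exp (m 0), Real.exp (m 1), Real.exp (m 2),
      Real.exp (-m 0), Real.exp (-m 1), Real.exp (-m 2), 1] i • n i := by
    have h0 := box_pm hp hw m 0
    have h1 := box_pm hp hw m 1
    have h2 := box_pm hp hw m 2
    intro i
    fin_cases i
    · exact hn ▸ (map_smul _ _ _).trans ((congrArg _ h0.1).trans (smul_comm _ _ _))
    · exact hn ▸ (map_smul _ _ _).trans ((congrArg _ h1.1).trans (smul_comm _ _ _))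
    · exact hn ▸ (map_smul _ _ _).trans ((congrArg _ h2.1).trans (smul_comm _ _ _))
    · exact hn ▸ (map_smul _ _ _).trans ((congrArg _ h0.2).trans (smul_comm _ _ _))
    · exact hn ▸ (map_smul _ _ _).trans ((congrArg _ h1.2).trans (smul_comm _ _ _))
    · exact hn ▸ (map_smul _ _ _).trans ((congrArg _ h2.2).trans (smul_comm _ _ _))
    · exact hn ▸ (bst3_last hp m).trans (one_smul _ _).symm
  refine ⟨b, fun u => ?_, fun u => ?_⟩
  · have e : thV (b.repr.symm u) =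
        b.repr.symm (WithLp.toLp 2 fun i => u (![3, 4, 5, 0, 1, 2, 6] i)) := by
      rw [← b.sum_repr_symm, ← b.sum_repr_symm, map_sum, hb]
      simp only [map_smul, hth, Fin.sum_univ_seven, Matrix.cons_val]
      abel
    rw [qV_eq, e, LinearIsometryEquiv.inner_map_map]
    simp [PiLp.inner_apply, Fin.sum_univ_seven]
    ring
  · rw [← b.sum_repr_symm, ← b.sum_repr_symm, map_sum, hb]
    refine Finset.sum_congr rfl fun i _ => ?_
    rw [map_smul, hbs, smul_smul, mul_comm]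

/-- Orthonormal basis of `V`: `n i ± = (√2)⁻¹ • mkV (p i) (± w i)`, `mkV (p 3) 0`;
`bst3 p w m (n i ±) = exp (± m i) • n i ±` (`bst3_p`, `bst3_w`, `bst3_last`),
`qV x x = 2 ∑ x_i⁺ x_i⁻ + x₀²`. With `d = 1/10` take the box `x₀⁺, x₁⁺ ∈ [0, d exp (m 2)]`,
`x₂⁺ ∈ exp (m 2) [1, 1+d]`, `x₀⁻ ∈ [0, d exp (-m 0)]`, `x₁⁻ ∈ [0, d exp (-m 1)]`,
`x₂⁻ ∈ exp (-m 2) [-1-d, -1]`, `x₀ ∈ [0, d]`. Its volume is `d^7 exp (2 m 2 - m 0 - m 1)`
(`OrthonormalBasis.measurePreserving_repr`, `PiLp.volume_preserving_ofLp`, `Real.volume_Icc_pi`).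
A point `x` of it is `bst3 p w m y` with `‖y‖ ≤ 4`, `y = k z`, so `g' x = z`, `‖z‖ ≤ 4`; and
`1 + ‖x‖ ≤ 5 exp (m 2)`. -/
theorem box_lower : ∃ c > 0, ∀ (g g' k : V →L[ℝ] V) (p : Fin 4 → E4) (w : Fin 3 → E3)
    (m : Fin 3 → ℝ), Polar g p w m k → (∀ x, g' (g x) = x) →
    ENNReal.ofReal (c * Real.exp (-(m 0 + m 1 + 4 * m 2))) ≤
      ∫⁻ x in shell ∩ {x | ‖g' x‖ ≤ 4}, wt x := by
  refine ⟨(1 / 10) ^ 7 / 5 ^ 6, by positivity, fun g g' k p w m P hg => ?_⟩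
  obtain ⟨b, hq, hb⟩ := box_basis P.hp P.hw m
  have e2 : 1 ≤ Real.exp (m 2) := Real.one_le_exp P.m2
  have e1 : Real.exp (m 2) ≤ Real.exp (m 1) := Real.exp_le_exp.2 P.m21
  have e0 : Real.exp (m 1) ≤ Real.exp (m 0) := Real.exp_le_exp.2 P.m10
  have ex : Real.exp (-(m 0 + m 1 + 4 * m 2)) =
      (Real.exp (m 0) * Real.exp (m 1) * Real.exp (m 2) ^ 4)⁻¹ := by
    rw [Real.exp_neg, Real.exp_add, Real.exp_add, ← Real.exp_nat_mul]
    norm_num
  rw [ex]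
  simp only [Real.exp_neg] at hb
  generalize Real.exp (m 0) = A at *
  generalize Real.exp (m 1) = B at *
  generalize Real.exp (m 2) = C at *
  have hC : 0 < C := by linarith
  have hB : 0 < B := by linarith
  have hA : 0 < A := by linarith
  obtain ⟨lo, hlo⟩ : ∃ lo : Fin 7 → ℝ, lo = ![0, 0, C, 0, 0, -(11 / 10 * C⁻¹), 0] := ⟨_, rfl⟩
  obtain ⟨hi, hhi⟩ : ∃ hi : Fin 7 → ℝ,
    hi = ![C / 10, C / 10, 11 / 10 * C, A⁻¹ / 10, B⁻¹ / 10, -C⁻¹, 1 / 10] := ⟨_, rfl⟩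
  have mp := (PiLp.volume_preserving_ofLp (Fin 7)).comp b.measurePreserving_repr
  have hm : MeasurableSet ((WithLp.ofLp ∘ b.repr) ⁻¹' Icc lo hi) :=
    mp.measurable measurableSet_Icc
  have hv : volume ((WithLp.ofLp ∘ b.repr) ⁻¹' Icc lo hi) =
      ENNReal.ofReal ((1 / 10) ^ 7 * (C ^ 2 * A⁻¹ * B⁻¹)) := by
    rw [mp.measure_preimage measurableSet_Icc.nullMeasurableSet, Real.volume_Icc_pi,
      ← ENNReal.ofReal_prod_of_nonneg]
    · congr 1
      simp only [hlo, hhi, Fin.prod_univ_seven, Matrix.cons_val]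
      field_simp
      ring
    · intro i _
      have := inv_pos.2 hA
      have := inv_pos.2 hB
      have := inv_pos.2 hC
      fin_cases i <;> simp [hlo, hhi] <;> linarith
  have key : ∀ x ∈ (WithLp.ofLp ∘ b.repr) ⁻¹' Icc lo hi,
      x ∈ shell ∩ {x | ‖g' x‖ ≤ 4} ∧ ‖x‖ ≤ 4 * C := by
    intro x hx
    obtain ⟨u, rfl⟩ := b.repr.symm.surjective x
    simp only [mem_preimage, Function.comp_apply, LinearIsometryEquiv.apply_symm_apply] at hx
    obtain ⟨n1, n2, n3, n4⟩ := box_num e2 e1 e0 (by simpa [hlo] using hx.1 0)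
      (by simpa [hhi] using hx.2 0) (by simpa [hlo] using hx.1 1) (by simpa [hhi] using hx.2 1)
      (by simpa [hlo] using hx.1 2) (by simpa [hhi] using hx.2 2) (by simpa [hlo] using hx.1 3)
      (by simpa [hhi] using hx.2 3) (by simpa [hlo] using hx.1 4) (by simpa [hhi] using hx.2 4)
      (by simpa [hlo] using hx.1 5) (by simpa [hhi] using hx.2 5) (by simpa [hlo] using hx.1 6)
      (by simpa [hhi] using hx.2 6) (a := u.ofLp)
    refine ⟨⟨⟨by rwa [hq], by rwa [hq]⟩, ?_⟩, ?_⟩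
    · obtain ⟨z, hz⟩ := P.orth.surjective
        (b.repr.symm (WithLp.toLp 2 fun i => ![A⁻¹, B⁻¹, C⁻¹, A, B, C, 1] i * u i))
      have hgz : g z = b.repr.symm u := by
        rw [P.fac, mul_apply_eq_comp, hz, hb]
        congr 1
        ext i
        fin_cases i <;> simp [hA.ne', hB.ne', hC.ne']
      rw [mem_ofPred_eq, ← hgz, hg, ← P.iso, hz, LinearIsometryEquiv.norm_map]
      refine abs_le_of_sq_le_sq' ?_ (by norm_num) |>.2
      rw [EuclideanSpace.real_norm_sq_eq, Fin.sum_univ_seven]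
      simpa using n3
    · rw [LinearIsometryEquiv.norm_map]
      refine abs_le_of_sq_le_sq' ?_ (by positivity) |>.2
      rw [EuclideanSpace.real_norm_sq_eq, Fin.sum_univ_seven]
      exact n4
  refine le_trans ?_ (lintegral_mono_set fun x hx => (key x hx).1)
  refine le_trans ?_ (setLIntegral_mono' (f := fun _ => ENNReal.ofReal ((5 * C) ^ (-6 : ℝ))) hm
    fun x hx => ENNReal.ofReal_le_ofReal (Real.rpow_le_rpow_of_nonpos (by positivity)
      (by linarith [(key x hx).2]) (by norm_num)))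
  rw [setLIntegral_const, hv, ← ENNReal.ofReal_mul (by positivity)]
  refine le_of_eq (congrArg _ ?_)
  rw [Real.rpow_neg (by positivity), show (6 : ℝ) = (6 : ℕ) by norm_num, Real.rpow_natCast]
  field_simp

end H42
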