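import Pool.Agent.Lib.MP_320961_gt.Alg

/-! The Cayley form: algebra. -/

open scoped RealInnerProductSpace ENNReal NNReal
open Set Metric MeasureTheory Filter Topology

noncomputable section

namespace H42

theorem cay_zero (a b c d : S) :
    (a = b → Phi a b c d = 0) ∧ (a = c → Phi a b c d = 0) ∧ (a = d → Phi a b c d = 0) ∧
    (b = c → Phi a b c d = 0) ∧ (b = d → Phi a b c d = 0) ∧ (c = d → Phi a b c d = 0) := by
  refine ⟨?_, ?_, ?_, ?_, ?_, ?_⟩ <;> rintro rfl
  · simp [Phi, tau_self, qV_comm (tau a c)]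
  · rw [Phi, tau_skew b a]
    simp [tau_self, qV_comm (tau a b)]
  · rw [Phi, tau_skew b a, tau_skew c a]
    simp [tau_self, qV_comm (tau a b)]
  · simp [Phi, tau_self]
  · rw [Phi, tau_skew c b]
    simp [tau_self, qV_comm (tau a b)]
  · simp [Phi, tau_self]

theorem cay_add (x y : S) :
    (∀ b c d, Phi (x + y) b c d = Phi x b c d + Phi y b c d) ∧
    (∀ a c d, Phi a (x + y) c d = Phi a x c d + Phi a y c d) ∧
    (∀ a b d, Phi a b (x + y) d = Phi a b x d + Phi a b y d) ∧
    (∀ a b c, Phi a b c (x + y) = Phi a b c x + Phi a b c y) := by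
  refine ⟨?_, ?_, ?_, ?_⟩ <;> intro a b c <;> simp only [Phi, map_add, LinearMap.add_apply] <;> ring

theorem cay_smul (r : ℝ) (x : S) :
    (∀ b c d, Phi (r • x) b c d = r • Phi x b c d) ∧
    (∀ a c d, Phi a (r • x) c d = r • Phi a x c d) ∧
    (∀ a b d, Phi a b (r • x) d = r • Phi a b x d) ∧
    (∀ a b c, Phi a b c (r • x) = r • Phi a b c x) := by
  refine ⟨?_, ?_, ?_, ?_⟩ <;> intro a b c <;>
    simp only [Phi, map_smul, LinearMap.smul_apply, smul_eq_mul] <;> ring

/-- The standard basis. -/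
def cayB : Module.Basis (Fin 4) ℝ E4 := (EuclideanSpace.basisFun (Fin 4) ℝ).toBasis

theorem cayB_apply (i : Fin 4) : cayB i = ee i := by
  simp [cayB, ee]

theorem cay_det (L : E4 →L[ℝ] E4) : L.det = (Matrix.of fun i j => L (ee j) i).det := by
  rw [ContinuousLinearMap.det, ← LinearMap.det_toMatrix cayB]
  refine congrArg Matrix.det (Matrix.ext fun i j => ?_)
  rw [LinearMap.toMatrix_apply, cayB_apply]
  rfl

theorem cay_expand {κ : Type} [Fintype κ] [DecidableEq κ] (b : Module.Basis κ ℝ S)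
    (A : S [⋀^Fin 4]→ₗ[ℝ] ℝ) (v : Fin 4 → S) :
    A v = ∑ f : Fin 4 → κ, A (b ∘ f) / 24 * (Matrix.of fun i j => b.repr (v j) (f i)).det := by
  have h1 : A v = ∑ f : Fin 4 → κ, (∏ j, b.repr (v j) (f j)) * A (b ∘ f) := by
    conv_lhs => rw [show v = fun j => ∑ k, b.repr (v j) k • b k from
      funext fun j => (b.sum_repr (v j)).symm]
    rw [← AlternatingMap.coe_multilinearMap, MultilinearMap.map_sum]
    refine Finset.sum_congr rfl fun f _ => ?_
    rw [MultilinearMap.map_smul_univ]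
    rfl
  have h2 : ∀ σ : Equiv.Perm (Fin 4), ∑ f : Fin 4 → κ, A (b ∘ f) / 24 *
      (((Equiv.Perm.sign σ : ℤ) : ℝ) * ∏ j, b.repr (v j) (f (σ j))) = A v / 24 := by
    intro σ
    rw [h1, Finset.sum_div]
    refine Fintype.sum_equiv (Equiv.arrowCongr σ.symm (Equiv.refl κ)) _ _ fun f => ?_
    have e : (Equiv.arrowCongr σ.symm (Equiv.refl κ)) f = f ∘ σ := rfl
    rw [e, ← Function.comp_assoc, AlternatingMap.map_perm, Units.smul_def, zsmul_eq_mul]
    simp only [Function.comp]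
    ring
  simp only [Matrix.det_apply', Finset.mul_sum, Matrix.of_apply]
  rw [Finset.sum_comm]
  simp only [h2]
  rw [Finset.sum_const, Finset.card_univ, Fintype.card_perm, Fintype.card_fin, nsmul_eq_mul]
  norm_num [Nat.factorial]
  ring

/-- `Phi` as an alternating map (`tau_skew`, `tau_self`, `qV_comm`). -/
theorem exists_PhiA : ∃ A : S [⋀^Fin 4]→ₗ[ℝ] ℝ, ∀ v, A v = Phi (v 0) (v 1) (v 2) (v 3) := by
  refine ⟨{ toFun := fun v => Phi (v 0) (v 1) (v 2) (v 3)
            map_update_add' := ?_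
            map_update_smul' := ?_
            map_eq_zero_of_eq' := fun v i j h hij => ?_ }, fun v => rfl⟩
  · intro inst v i x y
    obtain rfl : inst = instDecidableEqFin 4 := Subsingleton.elim _ _
    obtain ⟨h1, h2, h3, h4⟩ := cay_add x y
    fin_cases i
    exacts [h1 _ _ _, h2 _ _ _, h3 _ _ _, h4 _ _ _]
  · intro inst v i c x
    obtain rfl : inst = instDecidableEqFin 4 := Subsingleton.elim _ _
    obtain ⟨h1, h2, h3, h4⟩ := cay_smul c x
    fin_cases i
    exacts [h1 _ _ _, h2 _ _ _, h3 _ _ _, h4 _ _ _]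
  · obtain ⟨h1, h2, h3, h4, h5, h6⟩ := cay_zero (v 0) (v 1) (v 2) (v 3)
    fin_cases i <;> fin_cases j <;> first
      | exact absurd rfl hij
      | exact h1 h | exact h2 h | exact h3 h | exact h4 h | exact h5 h | exact h6 h
      | exact h1 h.symm | exact h2 h.symm | exact h3 h.symm | exact h4 h.symm | exact h5 h.symm
      | exact h6 h.symm

/-- Compose the alternating map with `T`, use `AlternatingMap.eq_smul_basis_det` for the basis
`(EuclideanSpace.basisFun (Fin 4) ℝ).toBasis` and `Basis.det_comp`. -/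
theorem PhiL_comp (T : E4 →L[ℝ] S) (L : E4 →L[ℝ] E4) : PhiL (T.comp L) = L.det * PhiL T := by
  obtain ⟨A, hA⟩ := exists_PhiA
  have h := AlternatingMap.eq_smul_basis_det cayB (A.compLinearMap (T : E4 →ₗ[ℝ] S))
  have h1 := DFunLike.congr_fun h ((L : E4 →ₗ[ℝ] E4) ∘ cayB)
  rw [AlternatingMap.smul_apply, Module.Basis.det_comp, Module.Basis.det_self, mul_one,
    AlternatingMap.compLinearMap_apply, AlternatingMap.compLinearMap_apply, hA, hA, smul_eq_mul,
    mul_comm] at h1
  simp only [Function.comp, cayB_apply] at h1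
  exact h1

/-- `tau (h s) (h t) = ± g (tau s t)` with one sign for all `s`, `t`: test against `g x`
(`Orth.surjective`, `qV_nondeg`, `tau_spec`, `Lift.eqv`). -/
theorem Lift.Phi {g : V →L[ℝ] V} {h : S →L[ℝ] S} (L : Lift g h) (s₁ s₂ s₃ s₄ : S) :
    Phi (h s₁) (h s₂) (h s₃) (h s₄) = Phi s₁ s₂ s₃ s₄ := by
  obtain ⟨e, he, hc⟩ : ∃ e : ℝ, e * e = 1 ∧ ∀ s t, qS (h s) (h t) = e * qS s t := by
    rcases L.conf with hc | hc
    · exact ⟨1, by norm_num, fun s t => by rw [hc, one_mul]⟩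
    · exact ⟨-1, by norm_num, fun s t => by rw [hc, neg_one_mul]⟩
  have h1 : ∀ s t, tau (h s) (h t) = e • g (tau s t) := fun s t => qV_nondeg fun z => by
    obtain ⟨x, rfl⟩ := L.orth.surjective z
    rw [tau_spec, ← L.eqv, hc, map_smul, LinearMap.smul_apply, L.orth, tau_spec, smul_eq_mul]
  have h2 : ∀ a b c d, qV (tau (h a) (h b)) (tau (h c) (h d)) = qV (tau a b) (tau c d) := by
    intro a b c d
    rw [h1, h1, map_smul, map_smul, LinearMap.smul_apply, L.orth, smul_smul, he, one_smul]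
  simp only [H42.Phi, h2]

theorem Phi_smul (c : ℝ) (s₁ s₂ s₃ s₄ : S) :
    Phi (c • s₁) (c • s₂) (c • s₃) (c • s₄) = c ^ 4 * Phi s₁ s₂ s₃ s₄ := by
  simp only [Phi, map_smul, LinearMap.smul_apply, smul_eq_mul]
  ring

/-- In coordinates `tau (swp s) (swp t) = mkV (cj (tau s t).fst) (-(tau s t).snd)` up to the sign
of the first part; or expand everything and use `ring`. -/
theorem Phi_swp (s₁ s₂ s₃ s₄ : S) :
    Phi (swp s₁) (swp s₂) (swp s₃) (swp s₄) = Phi s₁ s₂ s₃ s₄ := by
  have h1 : ∀ s t, tau (swp s) (swp t) = mkV (-cj (tau s t).fst) (tau s t).snd := by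
    intro s t
    refine V_ext ?_ ?_ <;> ext i <;> fin_cases i <;>
      simp [tau_apply, tau0, swp_apply, qm, cj, pu] <;> ring
  have h2 : ∀ x y : V, qV (mkV (-cj x.fst) x.snd) (mkV (-cj y.fst) y.snd) = qV x y := by
    intro x y
    simp [qV_apply, inner4, cj]
  simp only [Phi, h1, h2]

theorem PhiL_zero : PhiL 0 = 0 := by
  simp [PhiL, Phi]

theorem PhiL_inl : PhiL (prS 1 0) = 1 := by
  simp only [PhiL, Phi, qV_apply, inner4, inner3]
  simp [tau_apply, tau0, qm, cj, pu, ee]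
  norm_num

theorem cay_dets : ∃ (n : ℕ) (c : Fin n → ℝ) (P : Fin n → S →L[ℝ] E4),
    ∀ T : E4 →L[ℝ] S, PhiL T = ∑ k, c k * ((P k).comp T).det := by
  obtain ⟨A, hA⟩ := exists_PhiA
  have : ContinuousSMul ℝ S := IsBoundedSMul.continuousSMul
  let b := Module.finBasis ℝ S
  let e := (Fintype.equivFin (Fin 4 → Fin (Module.finrank ℝ S))).symm
  let Q : (Fin 4 → Fin (Module.finrank ℝ S)) → S →L[ℝ] E4 := fun f =>
    (LinearMap.toContinuousLinearMap : (S →ₗ[ℝ] E4) ≃ₗ[ℝ] S →L[ℝ] E4)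
      ((WithLp.linearEquiv 2 ℝ (Fin 4 → ℝ)).symm.toLinearMap ∘ₗ LinearMap.pi fun i => b.coord (f i))
  refine ⟨_, fun k => A (b ∘ e k) / 24, fun k => Q (e k), fun T => ?_⟩
  rw [Equiv.sum_comp e fun f => A (b ∘ f) / 24 * ((Q f).comp T).det]
  refine (hA fun j => T (ee j)).symm.trans ((cay_expand b A _).trans ?_)
  refine Finset.sum_congr rfl fun f _ => ?_
  rw [cay_det]
  rfl

theorem continuous_PhiL : Continuous PhiL := by
  obtain ⟨n, c, P, h⟩ := cay_dets
  rw [funext h]
  exact continuous_finsetSum _ fun k _ => continuous_const.mul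
    (ContinuousLinearMap.continuous_det.comp (continuous_const.clm_comp continuous_id))

/-- With coordinates `0..3` for `fst` and `4..7` for `snd` the form is the sum of the coordinate
determinants 0123 + 0145 + 0167 + 0246 - 0257 + 0347 + 0356 + 1247 + 1256 - 1346 + 1357 + 2345
+ 2367 + 4567. One may also argue abstractly from `exists_PhiA` with any finite index type. -/
theorem PhiL_dets : ∃ (n : ℕ) (c : Fin n → ℝ) (P : Fin n → S →L[ℝ] E4),
    ∀ T : E4 →L[ℝ] S, PhiL T = ∑ k, c k * ((P k).comp T).det :=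
  cay_dets

end H42
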