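import Pool.Agent.Lib.MP_320961_gt.Defs

/-! Change of variables for Lipschitz maps, and determinants are null Lagrangians. -/

open scoped RealInnerProductSpace ENNReal NNReal
open Set Metric MeasureTheory Filter Topology

noncomputable section

namespace H42

/-- Hausdorff measure: `LipschitzWith.hausdorffMeasure_image_le`, `μH[finrank]` is a Haar measure
(`MeasureTheory.Measure.isAddHaarMeasure_hausdorffMeasure`, absolute continuity both ways). -/
theorem lip_null {ψ : E4 → E4} {K : ℝ≥0} (hψ : LipschitzWith K ψ) {A : Set E4}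
    (hA : volume A = 0) : volume (ψ '' A) = 0 := by
  refine Measure.absolutelyContinuous_isAddHaarMeasure volume μH[Module.finrank ℝ E4]
    (le_antisymm ((hψ.hausdorffMeasure_image_le (Nat.cast_nonneg _) A).trans ?_) bot_le)
  rw [Measure.absolutelyContinuous_isAddHaarMeasure μH[Module.finrank ℝ E4] volume hA, mul_zero]

/-- Rademacher (`LipschitzWith.ae_differentiableAt`), `lip_null`,
`lintegral_image_eq_lintegral_abs_det_fderiv_mul` on the differentiability points in `A`. -/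
theorem lintegral_image_lip {ψ : E4 → E4} {K : ℝ≥0} (hψ : LipschitzWith K ψ) {A : Set E4}
    (hA : MeasurableSet A) (hi : InjOn ψ A) (φ : E4 → ℝ≥0∞) :
    ∫⁻ x in ψ '' A, φ x = ∫⁻ u in A, ENNReal.ofReal |(fderiv ℝ ψ u).det| * φ (ψ u) := by
  have hD : ∀ᵐ x, DifferentiableAt ℝ ψ x := hψ.ae_differentiableAt
  have h1 : A =ᵐ[volume] (A ∩ {x | DifferentiableAt ℝ ψ x} : Set E4) :=
    (inter_ae_eq_left_of_ae_eq_univ (ae_eq_univ.2 hD)).symm
  have h2 : ψ '' A =ᵐ[volume] ψ '' (A ∩ {x | DifferentiableAt ℝ ψ x}) := by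
    refine ae_eq_set.2 ⟨measure_mono_null ?_ (lip_null hψ hD), ?_⟩
    · rintro _ ⟨⟨x, hx, rfl⟩, h⟩
      exact ⟨x, fun k => h ⟨x, ⟨hx, k⟩, rfl⟩, rfl⟩
    · rw [sdiff_eq_empty.2 (image_mono inter_subset_left), measure_empty]
  rw [setLIntegral_congr h1, setLIntegral_congr h2]
  exact lintegral_image_eq_lintegral_abs_det_fderiv_mul volume
    (hA.inter (measurableSet_of_differentiableAt ℝ ψ))
    (fun x hx => hx.2.hasFDerivAt.hasFDerivWithinAt) (hi.mono inter_subset_left) φ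

theorem cov_int {G : E4 → E4} {K : ℝ≥0} (hG : LipschitzWith K G) (R : ℝ)
    {f : (E4 →L[ℝ] E4) → ℝ} (hf : Continuous f) :
    IntegrableOn (fun u => f (fderiv ℝ G u)) (ball 0 R) := by
  obtain ⟨M, hM⟩ := (isCompact_closedBall (0 : E4 →L[ℝ] E4) K).exists_bound_of_continuousOn
    hf.continuousOn
  exact Measure.integrableOn_of_bounded measure_ball_lt_top.ne
    (hf.measurable.comp (measurable_fderiv ℝ G)).aestronglyMeasurable
    (Eventually.of_forall fun u =>
      hM _ (mem_closedBall_zero_iff.2 (norm_fderiv_le_of_lipschitz ℝ hG)))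

theorem integrableOn_det {G : E4 → E4} {K : ℝ≥0} (hG : LipschitzWith K G) (R : ℝ) :
    IntegrableOn (fun u => (fderiv ℝ G u).det) (ball 0 R) := by
  exact cov_int hG R ContinuousLinearMap.continuous_det

theorem cov_det4 (M : Matrix (Fin 4) (Fin 4) ℝ) : M.det =
    M 0 0 * M 1 1 * M 2 2 * M 3 3 - M 0 0 * M 1 1 * M 2 3 * M 3 2 -
    M 0 0 * M 1 2 * M 2 1 * M 3 3 + M 0 0 * M 1 2 * M 2 3 * M 3 1 +
    M 0 0 * M 1 3 * M 2 1 * M 3 2 - M 0 0 * M 1 3 * M 2 2 * M 3 1 -
    M 0 1 * M 1 0 * M 2 2 * M 3 3 + M 0 1 * M 1 0 * M 2 3 * M 3 2 +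
    M 0 1 * M 1 2 * M 2 0 * M 3 3 - M 0 1 * M 1 2 * M 2 3 * M 3 0 -
    M 0 1 * M 1 3 * M 2 0 * M 3 2 + M 0 1 * M 1 3 * M 2 2 * M 3 0 +
    M 0 2 * M 1 0 * M 2 1 * M 3 3 - M 0 2 * M 1 0 * M 2 3 * M 3 1 -
    M 0 2 * M 1 1 * M 2 0 * M 3 3 + M 0 2 * M 1 1 * M 2 3 * M 3 0 +
    M 0 2 * M 1 3 * M 2 0 * M 3 1 - M 0 2 * M 1 3 * M 2 1 * M 3 0 -
    M 0 3 * M 1 0 * M 2 1 * M 3 2 + M 0 3 * M 1 0 * M 2 2 * M 3 1 +
    M 0 3 * M 1 1 * M 2 0 * M 3 2 - M 0 3 * M 1 1 * M 2 2 * M 3 0 -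
    M 0 3 * M 1 2 * M 2 0 * M 3 1 + M 0 3 * M 1 2 * M 2 1 * M 3 0 := by
  simp [Matrix.det_succ_row_zero, Fin.sum_univ_succ, Fin.succAbove]
  ring

theorem cov_poly (t : ℝ) (A : E4 →L[ℝ] E4) : 24 * t ^ 4 * A.det =
    (1 + (0 : ℝ) • A).det - 4 * (1 + t • A).det + 6 * (1 + (2 * t) • A).det -
      4 * (1 + (3 * t) • A).det + (1 + (4 * t) • A).det := by
  set b := (EuclideanSpace.basisFun (Fin 4) ℝ).toBasis
  have e : ∀ s : ℝ, (1 + s • A).det = (1 + s • LinearMap.toMatrix b b A).det := fun s => by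
    rw [← LinearMap.toMatrix_one b, ← map_smul, ← map_add, LinearMap.det_toMatrix]
    rfl
  rw [e, e, e, e, e, ContinuousLinearMap.det, ← LinearMap.det_toMatrix b]
  generalize LinearMap.toMatrix b b A = M
  simp [cov_det4]
  ring

theorem cov_cont (t : ℝ) : Continuous fun A : E4 →L[ℝ] E4 => (1 + t • A).det :=
  ContinuousLinearMap.continuous_det.comp (by fun_prop)

theorem cov_pos {A : E4 →L[ℝ] E4} {K t : ℝ} (hA : ‖A‖ ≤ K) (h0 : 0 ≤ t) (h1 : t * K < 1) :
    0 < (1 + t • A).det := by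
  by_contra hc
  have hK := (norm_nonneg A).trans hA
  have h2 : Continuous fun s : ℝ => (1 + s • A).det :=
    ContinuousLinearMap.continuous_det.comp (by fun_prop)
  obtain ⟨s, hs, e⟩ := intermediate_value_Icc' h0 h2.continuousOn (show (0 : ℝ) ∈ _ from
    ⟨not_lt.1 hc, by simp [ContinuousLinearMap.det]⟩)
  obtain ⟨v, hv, h3⟩ := (Submodule.ne_bot_iff _).1 (LinearMap.bot_lt_ker_of_det_eq_zero e).ne'
  have h4 : v = -(s • A v) := eq_neg_of_add_eq_zero_left hv
  have h5 : ‖v‖ ≤ t * K * ‖v‖ := by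
    conv_lhs => rw [h4, norm_neg, norm_smul, Real.norm_of_nonneg hs.1]
    rw [mul_assoc]
    exact mul_le_mul hs.2 (A.le_of_opNorm_le hA v) (norm_nonneg _) h0
  nlinarith [norm_pos_iff.2 h3]

theorem cov_lip {G : E4 → E4} {K : ℝ≥0} (hG : LipschitzWith K G) {t : ℝ} (h0 : 0 ≤ t) :
    LipschitzWith (NNReal.mk t h0 * K) fun u => t • G u :=
  LipschitzWith.of_dist_le_mul fun u v => by
    rw [dist_smul₀, Real.norm_of_nonneg h0, NNReal.coe_mul, mul_assoc]
    exact mul_le_mul_of_nonneg_left (hG.dist_le_mul u v) h0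

theorem cov_bij {G : E4 → E4} {K : ℝ≥0} (hG : LipschitzWith K G) {t : ℝ} (h0 : 0 ≤ t)
    (h1 : t * K < 1) : Function.Bijective fun u => u + t • G u := by
  have key : ∀ y : E4, ContractingWith (NNReal.mk t h0 * K) fun u => y - t • G u := fun y =>
    ⟨h1, LipschitzWith.of_dist_le_mul fun u v => by
      rw [dist_sub_left]
      exact (cov_lip hG h0).dist_le_mul u v⟩
  refine ⟨fun u v h => (key (v + t • G v)).fixedPoint_unique' (eq_sub_of_add_eq h).symm
    (add_sub_cancel_right _ _), fun y => ⟨(key y).fixedPoint _, ?_⟩⟩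
  exact eq_sub_iff_add_eq.1 (key y).fixedPoint_isFixedPt.symm

theorem cov_area {G : E4 → E4} {K : ℝ≥0} (hG : LipschitzWith K G) {t : ℝ} (h0 : 0 ≤ t)
    (h1 : t * K < 1) (R : ℝ) : ∫ u in ball 0 R, (1 + t • fderiv ℝ G u).det =
      (volume ((fun u => u + t • G u) '' ball 0 R)).toReal := by
  have hp := fun u => cov_pos (norm_fderiv_le_of_lipschitz ℝ hG (x₀ := u)) h0 h1
  have h := lintegral_image_lip (LipschitzWith.id.add (cov_lip hG h0))
    (measurableSet_ball (x := 0) (ε := R)) (cov_bij hG h0 h1).1.injOn fun _ => 1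
  rw [integral_eq_lintegral_of_nonneg_ae (Eventually.of_forall fun u => (hp u).le)
    (cov_int hG R (cov_cont t)).aestronglyMeasurable, ← setLIntegral_one]
  refine congrArg _ (Eq.trans (lintegral_congr_ae (ae_restrict_of_ae ?_)) h.symm)
  filter_upwards [hG.ae_differentiableAt (μ := volume)] with u hu
  have e : fderiv ℝ (fun x => id x + t • G x) u = 1 + t • fderiv ℝ G u :=
    ((hasFDerivAt_id u).add (hu.hasFDerivAt.const_smul t)).fderiv
  rw [e, mul_one, abs_of_pos (hp u)]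

/-- For `0 ≤ t`, `t K < 1`: `u ↦ u + t • G u` is a Lipschitz bijection of `E4`
(`ApproximatesLinearOn.surjective`, or a contraction fixed point), the same for `H`; they agree
off the ball, so the ball has the same image; `det (1 + t • A) > 0` for `‖A‖ ≤ K`
(`1 + s • A` is injective for `s ∈ [0, t]`, intermediate values). So the integrals of
`det (1 + t • G')` and `det (1 + t • H')` agree for `t = 0, t₀, …, 4 t₀`, and
`∑ (-1)^k C(4,k) det (1 + k t₀ • A) = 24 t₀⁴ det A` for a 4 by 4 matrix. -/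
theorem int_det_eq {G H : E4 → E4} {K : ℝ≥0} (hG : LipschitzWith K G) (hH : LipschitzWith K H)
    {R : ℝ} (heq : ∀ u, R ≤ ‖u‖ → G u = H u) :
    ∫ u in ball 0 R, (fderiv ℝ G u).det = ∫ u in ball 0 R, (fderiv ℝ H u).det := by
  obtain ⟨t, h0, h1⟩ : ∃ t : ℝ, 0 < t ∧ 4 * t * K < 1 := by
    refine ⟨1 / (4 * K + 1), by positivity, ?_⟩
    rw [mul_right_comm, mul_one_div, div_lt_one (by positivity)]
    linarith
  have hK : 0 ≤ t * K := by positivity
  have key : ∀ s : ℝ, 0 ≤ s → s * K < 1 → ∫ u in ball 0 R, (1 + s • fderiv ℝ G u).det =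
      ∫ u in ball 0 R, (1 + s • fderiv ℝ H u).det := fun s a b => by
    rw [cov_area hG a b, cov_area hH a b, ← compl_compl (ball (0 : E4) R),
      image_compl_eq (cov_bij hG a b), image_compl_eq (cov_bij hH a b),
      image_congr fun u hu => by rw [heq u (not_lt.1 (mt mem_ball_zero_iff.2 hu))]]
  have sum : ∀ {G : E4 → E4}, LipschitzWith K G →
      24 * t ^ 4 * ∫ u in ball 0 R, (fderiv ℝ G u).det =
        (∫ u in ball 0 R, (1 + (0 : ℝ) • fderiv ℝ G u).det) -
          4 * (∫ u in ball 0 R, (1 + t • fderiv ℝ G u).det) +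
          6 * (∫ u in ball 0 R, (1 + (2 * t) • fderiv ℝ G u).det) -
          4 * (∫ u in ball 0 R, (1 + (3 * t) • fderiv ℝ G u).det) +
          ∫ u in ball 0 R, (1 + (4 * t) • fderiv ℝ G u).det := fun {G} hG => by
    have i := fun s => cov_int hG R (cov_cont s)
    have a1 := (i 0).sub ((i t).const_mul 4)
    have a2 := a1.add ((i (2 * t)).const_mul 6)
    have a3 := a2.sub ((i (3 * t)).const_mul 4)
    simp only [← integral_const_mul, cov_poly]
    rw [integral_add, integral_sub, integral_add, integral_sub]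
    exacts [i 0, (i t).const_mul 4, a1, (i (2 * t)).const_mul 6, a2, (i (3 * t)).const_mul 4, a3,
      i (4 * t)]
  refine mul_left_cancel₀ (show 24 * t ^ 4 ≠ 0 by positivity) ?_
  rw [sum hG, sum hH, key 0 le_rfl (by simp), key t h0.le (by linarith),
    key (2 * t) (by positivity) (by linarith), key (3 * t) (by positivity) (by linarith),
    key (4 * t) (by positivity) h1]

end H42
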