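import Pool.Agent.Lib.MP_320961_gt.Meas1

/-! Invariance of the measure and the contradiction. -/

open scoped RealInnerProductSpace ENNReal NNReal
open Set Metric MeasureTheory Filter Topology

noncomputable section

namespace H42

theorem meas2_unique {E G : Type*} [NormedAddCommGroup E] [NormedSpace ℝ E] [NormedAddCommGroup G]
    [NormedSpace ℝ G] {f : E → G} {a b : E →L[ℝ] G} {x : E} (h : HasFDerivAt f a x)
    (h' : HasFDerivAt f b x) : a = b := h.unique h'

/-- `ψ u = (L (gr F u)).fst` is Lipschitz, injective, `gr F (ψ u) = L (gr F u)`. Let `N` be the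
null set where `gr F` is not differentiable, `A' = A \ ψ⁻¹' N` (measurable); `ψ '' A` lies in
`ψ '' A' ∪ N`. `lintegral_image_lip` on `A'`; at a point of `A'` outside `N` the chain rule and
`PhiL_comp` give `det ψ' * rho F (ψ u) = lam * rho F u`, both densities are nonnegative. -/
theorem mu_image_le {F : E4 → E4} (hF : LipschitzWith 1 F) (L : S →L[ℝ] S) {lam : ℝ}
    (hlam : 0 ≤ lam) (hi : Function.Injective L) (hC : ∀ u, L (gr F u) ∈ range (gr F))
    (hP : ∀ T : E4 →L[ℝ] S, PhiL (L.comp T) = lam * PhiL T) {A : Set E4} (hA : MeasurableSet A) :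
    mu F ((fun u => (L (gr F u)).fst) '' A) ≤ ENNReal.ofReal lam * mu F A := by
  set ψ : E4 → E4 := fun u => (L (gr F u)).fst with hψ
  have hg := lip_gr hF
  have hgr : ∀ u, gr F (ψ u) = L (gr F u) := by
    intro u
    obtain ⟨w, hw⟩ := hC u
    simp only [hψ, ← hw]
    rfl
  have hl := (fstS.comp L).lipschitz.comp hg
  have hl' : LipschitzWith _ ψ := hl
  have hinj : Function.Injective ψ := by
    intro u v e
    have : L (gr F u) = L (gr F v) := by rw [← hgr, ← hgr, e]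
    exact congrArg WithLp.fst (hi this)
  set N : Set E4 := {u | DifferentiableAt ℝ (gr F) u}ᶜ with hN
  have mN : MeasurableSet N := (measurableSet_of_differentiableAt ℝ (gr F)).compl
  have zN : volume N = 0 := hg.ae_differentiableAt
  have mA : MeasurableSet (A \ ψ ⁻¹' N) := hA.diff (hl'.continuous.measurable mN)
  have sub : ψ '' A ⊆ ψ '' (A \ ψ ⁻¹' N) ∪ N := by
    rintro _ ⟨u, hu, rfl⟩
    by_cases e : ψ u ∈ N
    · exact Or.inr e
    · exact Or.inl ⟨u, ⟨hu, e⟩, rfl⟩
  have key : ∀ u, u ∉ N → ψ u ∉ N → ENNReal.ofReal |(fderiv ℝ ψ u).det| *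
      ENNReal.ofReal (rho F (ψ u)) = ENNReal.ofReal lam * ENNReal.ofReal (rho F u) := by
    intro u h1 h2
    have d1 : DifferentiableAt ℝ (gr F) u := not_not.1 h1
    have d2 : DifferentiableAt ℝ (gr F) (ψ u) := not_not.1 h2
    have d4 : HasFDerivAt (fun u => L (gr F u)) (L.comp (fderiv ℝ (gr F) u)) u :=
      L.hasFDerivAt.comp u d1.hasFDerivAt
    have d3 : DifferentiableAt ℝ ψ u := (fstS.hasFDerivAt.comp u d4).differentiableAt
    have e1 : (fderiv ℝ (gr F) (ψ u)).comp (fderiv ℝ ψ u) = L.comp (fderiv ℝ (gr F) u) := by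
      have d5 := d2.hasFDerivAt.comp u d3.hasFDerivAt
      rw [show gr F ∘ ψ = fun u => L (gr F u) from funext hgr] at d5
      exact meas2_unique d5 d4
    have e2 : (fderiv ℝ ψ u).det * rho F (ψ u) = lam * rho F u := by
      unfold rho
      rw [← PhiL_comp, e1, hP]
    rw [← ENNReal.ofReal_mul (abs_nonneg _), ← ENNReal.ofReal_mul hlam,
      ← abs_of_nonneg (rho_nonneg hF (ψ u)), ← abs_mul, e2,
      abs_of_nonneg (mul_nonneg hlam (rho_nonneg hF u))]
  unfold mu
  calc ∫⁻ u in ψ '' A, ENNReal.ofReal (rho F u)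
      ≤ ∫⁻ u in ψ '' (A \ ψ ⁻¹' N) ∪ N, ENNReal.ofReal (rho F u) := lintegral_mono_set sub
    _ ≤ (∫⁻ u in ψ '' (A \ ψ ⁻¹' N), ENNReal.ofReal (rho F u)) +
        ∫⁻ u in N, ENNReal.ofReal (rho F u) := lintegral_union_le _ _ _
    _ = ∫⁻ u in A \ ψ ⁻¹' N, ENNReal.ofReal lam * ENNReal.ofReal (rho F u) := by
      rw [setLIntegral_measure_zero _ _ zN, add_zero, lintegral_image_lip hl' mA hinj.injOn]
      apply lintegral_congr_ae
      filter_upwards [ae_restrict_mem mA, ae_restrict_of_ae (compl_mem_ae_iff.2 zN)] with u h1 h2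
      exact key u h2 h1.2
    _ ≤ ∫⁻ u in A, ENNReal.ofReal lam * ENNReal.ofReal (rho F u) := lintegral_mono_set sdiff_subset
    _ = _ := lintegral_const_mul' _ _ ENNReal.ofReal_ne_top

theorem meas2_gr_smul {F : E4 → E4} (hF : Cone F) {t : ℝ} (ht : 0 ≤ t) (u : E4) :
    gr F (t • u) = t • gr F u := by
  unfold gr
  rw [hF.hom t ht]
  rfl

/-- For `u` in `ball 0 R` and `i` from `hsh`: `r = (K + 1) / N i`, `r⁻¹ • hi i (gr F u) = gr F u'`
with `‖u'‖ < R` (`Cone.hom`; `u = 0` is fine), so `u` is in the image of the ball under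
`L = r • h i`, `lam = r⁴`. Hence `mu (ball) ≤ ∑_{l i = k} r_i⁴ mu (ball)`; by summability the sum is
`< 1` for large `k` (`summable_iff_vanishing`, the finite exceptional set has bounded `l`). -/
theorem no_cone {ι : Type*} {F : E4 → E4} (hF : Cone F) (h hi : ι → S →L[ℝ] S) (N : ι → ℝ)
    (l : ι → ℕ) (hfin : ∀ k, {i | l i = k}.Finite) (hN : ∀ i, 0 < N i)
    (hsum : Summable fun i => (N i ^ 4)⁻¹) (h1 : ∀ i, h i * hi i = 1) (h2 : ∀ i, hi i * h i = 1)
    (hC : ∀ i u, h i (gr F u) ∈ range (gr F)) (hCi : ∀ i u, hi i (gr F u) ∈ range (gr F))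
    (hP : ∀ i s₁ s₂ s₃ s₄, Phi (h i s₁) (h i s₂) (h i s₃) (h i s₄) = Phi s₁ s₂ s₃ s₄)
    {K : ℝ} (hK : 0 < K) (hsh : ∀ u k, ∃ i, l i = k ∧ ‖hi i (gr F u)‖ ≤ K / N i * ‖u‖) : False := by
  classical
  obtain ⟨R, -, hpos⟩ := hF.mu_pos
  have htop := mu_ball_lt_top hF.lip R
  set r : ι → ℝ := fun i => (K + 1) / N i with hr
  have rp : ∀ i, 0 < r i := fun i => div_pos (by linarith) (hN i)
  have hs : Summable fun i => r i ^ 4 := by
    refine (hsum.mul_left ((K + 1) ^ 4)).congr fun i => ?_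
    rw [hr, div_pow, div_eq_mul_inv]
  obtain ⟨s, hs⟩ := hs.vanishing (Iio_mem_nhds one_pos)
  set t := (hfin (s.sup l + 1)).toFinset with ht
  have lt1 : ∑ i ∈ t, r i ^ 4 < 1 := by
    refine hs t (Finset.disjoint_left.2 fun i h1 h2 => ?_)
    have k1 : l i = s.sup l + 1 := by simpa [ht] using h1
    have k2 : l i ≤ s.sup l := Finset.le_sup h2
    omega
  have a1 : ∀ i x, h i (hi i x) = x := fun i x => congrArg (fun T : S →L[ℝ] S => T x) (h1 i)
  have a2 : ∀ i x, hi i (h i x) = x := fun i x => congrArg (fun T : S →L[ℝ] S => T x) (h2 i)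
  have each : ∀ i, mu F ((fun u => ((r i • h i) (gr F u)).fst) '' ball 0 R) ≤
      ENNReal.ofReal (r i ^ 4) * mu F (ball 0 R) := by
    intro i
    refine mu_image_le hF.lip _ (pow_pos (rp i) 4).le ?_ ?_ ?_ measurableSet_ball
    · intro x y e
      have e' : h i x = h i y := smul_right_injective S (rp i).ne' e
      rw [← a2 i x, e', a2]
    · intro u
      obtain ⟨w, hw⟩ := hC i u
      exact ⟨r i • w, by rw [meas2_gr_smul hF (rp i).le, hw]; rfl⟩
    · intro T
      exact (Phi_smul (r i) _ _ _ _).trans (congrArg _ (hP i _ _ _ _))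
  have cov : ball (0 : E4) R ⊆ ⋃ i ∈ t, (fun u => ((r i • h i) (gr F u)).fst) '' ball 0 R := by
    intro u hu
    obtain ⟨i, e, hb⟩ := hsh u (s.sup l + 1)
    obtain ⟨w, hw⟩ := hCi i u
    refine mem_iUnion₂.2 ⟨i, by simpa [ht] using e, (r i)⁻¹ • w, ?_, ?_⟩
    · rw [mem_ball_zero_iff] at hu ⊢
      refine lt_of_le_of_lt ?_ hu
      have k1 : ‖w‖ ≤ ‖gr F w‖ := WithLp.norm_fst_le (p := 2) E4 (gr F w)
      rw [norm_smul, Real.norm_of_nonneg (inv_pos.2 (rp i)).le, inv_mul_le_iff₀ (rp i)]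
      refine k1.trans ((hw ▸ hb).trans (mul_le_mul_of_nonneg_right ?_ (norm_nonneg _)))
      exact div_le_div_of_nonneg_right (by linarith) (hN i).le
    · show (r i • h i (gr F ((r i)⁻¹ • w))).fst = u
      rw [meas2_gr_smul hF (inv_pos.2 (rp i)).le, map_smul, smul_inv_smul₀ (rp i).ne', hw, a1]
      rfl
  have fin : ∀ (t : Finset ι) (B : ι → Set E4), mu F (⋃ i ∈ t, B i) ≤ ∑ i ∈ t, mu F (B i) := by
    intro t B
    induction t using Finset.induction_on with
    | empty => simp [mu]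
    | insert i t hi ih =>
      rw [Finset.set_biUnion_insert, Finset.sum_insert hi]
      exact (lintegral_union_le _ _ _).trans (add_le_add_right ih _)
  have le : mu F (ball 0 R) ≤ ENNReal.ofReal (∑ i ∈ t, r i ^ 4) * mu F (ball 0 R) := by
    rw [ENNReal.ofReal_sum_of_nonneg fun i _ => (pow_pos (rp i) 4).le, Finset.sum_mul]
    exact (lintegral_mono_set cov).trans ((fin t _).trans (Finset.sum_le_sum fun i _ => each i))
  have := ENNReal.mul_lt_mul_left hpos.ne' htop.ne (ENNReal.ofReal_lt_one.2 lt1)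
  rw [one_mul] at this
  exact this.not_ge le

end H42
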