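import Pool.Agent.Lib.MP_320961_gt.KakS

/-! The gap of a lifted triple boost. -/

open scoped RealInnerProductSpace ENNReal NNReal
open Set Metric MeasureTheory Filter Topology

noncomputable section

namespace H42

section Gen

variable {H : Type} [NormedAddCommGroup H] [InnerProductSpace ℝ H]

theorem gaps_comm {c x y : H →L[ℝ] H} (h1 : c * x = -(x * c)) (h2 : c * y = -(y * c)) :
    Commute c (x * y) := by
  change c * (x * y) = x * y * c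
  rw [← mul_assoc, h1, neg_mul, mul_assoc, h2, mul_neg, neg_neg, mul_assoc]

/-- The trace of a continuous linear map. -/
def gaps_tr (H : Type) [NormedAddCommGroup H] [InnerProductSpace ℝ H] : (H →L[ℝ] H) →ₗ[ℝ] ℝ :=
  (LinearMap.trace ℝ H).comp (ContinuousLinearMap.coeLM ℝ)

theorem gaps_tr_zero {X a b : H →L[ℝ] H} (h : Commute a X) (h' : a * b = -(b * a)) :
    gaps_tr H (X * (b * a)) = 0 := by
  have h1 : gaps_tr H (a * (X * b)) = gaps_tr H (X * b * a) :=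
    LinearMap.trace_mul_comm ℝ (a : H →ₗ[ℝ] H) (X * b : H →L[ℝ] H)
  rw [← mul_assoc, h.eq, mul_assoc, h', mul_neg, map_neg, mul_assoc] at h1
  linarith

/-- The projector of an involution. -/
def gaps_E (J : H →L[ℝ] H) : H →L[ℝ] H := (2⁻¹ : ℝ) • (1 + J)

theorem gaps_E_comm {J X : H →L[ℝ] H} (h : Commute X J) : Commute X (gaps_E J) :=
  ((Commute.one_right X).add_right h).smul_right _

theorem gaps_JE {J : H →L[ℝ] H} (h : J * J = 1) : J * gaps_E J = gaps_E J := by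
  rw [gaps_E, mul_smul_comm, mul_add, mul_one, h, add_comm]

theorem gaps_fix {J X : H →L[ℝ] H} (h : J * X = X) : gaps_E J * X = X := by
  rw [gaps_E, smul_mul_assoc, add_mul, one_mul, h, ← two_smul ℝ X, smul_smul]
  norm_num

theorem gaps_E_norm {J : H →L[ℝ] H} (h : ‖J‖ ≤ 1) : ‖gaps_E J‖ ≤ 1 := by
  have h1 := norm_add_le (1 : H →L[ℝ] H) J
  have h2 : ‖(1 : H →L[ℝ] H)‖ ≤ 1 := ContinuousLinearMap.norm_id_le
  rw [gaps_E, norm_smul, Real.norm_of_nonneg (by norm_num)]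
  linarith

theorem gaps_line [FiniteDimensional ℝ H] {J0 J1 J2 : H →L[ℝ] H} (s0 : J0 * J0 = 1)
    (s1 : J1 * J1 = 1) (s2 : J2 * J2 = 1)
    (c01 : Commute J0 J1) (c02 : Commute J0 J2) (c12 : Commute J1 J2)
    (y0 : ∀ s t, ⟪J0 s, t⟫ = ⟪s, J0 t⟫) (y1 : ∀ s t, ⟪J1 s, t⟫ = ⟪s, J1 t⟫)
    (y2 : ∀ s t, ⟪J2 s, t⟫ = ⟪s, J2 t⟫)
    (ht : gaps_tr H (gaps_E J0 * gaps_E J1 * gaps_E J2) = 1) :
    ∃ u : H, ‖u‖ = 1 ∧ J0 u = u ∧ J1 u = u ∧ J2 u = u ∧
      ∀ s, (gaps_E J0 * gaps_E J1 * gaps_E J2) s = ⟪u, s⟫ • u := by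
  obtain ⟨E, hE⟩ : ∃ E, E = gaps_E J0 * gaps_E J1 * gaps_E J2 := ⟨_, rfl⟩
  have e0 : J0 * E = E := by rw [hE, ← mul_assoc, ← mul_assoc, gaps_JE s0]
  have e1 : J1 * E = E := by
    rw [hE, ← mul_assoc, ← mul_assoc, (gaps_E_comm c01.symm).eq, mul_assoc (gaps_E J0),
      gaps_JE s1]
  have e2 : J2 * E = E := by
    rw [hE, ← mul_assoc, ((gaps_E_comm c02.symm).mul_right (gaps_E_comm c12.symm)).eq, mul_assoc,
      gaps_JE s2]
  have e3 : E * E = E := by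
    conv_lhs => arg 1; rw [hE]
    rw [mul_assoc, gaps_fix e2, mul_assoc, gaps_fix e1, gaps_fix e0]
  have h1 : IsIdempotentElem (E : H →ₗ[ℝ] H) := congrArg ContinuousLinearMap.toLinearMap e3
  have h2 := (LinearMap.IsIdempotentElem.isProj_range _ h1).trace
  rw [← hE] at ht
  have h3 : Module.finrank ℝ (LinearMap.range (E : H →ₗ[ℝ] H)) = 1 := by
    have h4 : LinearMap.trace ℝ H (E : H →ₗ[ℝ] H) = 1 := ht
    rw [h4] at h2
    exact_mod_cast h2.symm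
  obtain ⟨⟨_, x, rfl⟩, h4, h5⟩ := finrank_eq_one_iff'.1 h3
  have h6 : E x ≠ 0 := fun h => h4 (Subtype.ext h)
  have h7 : ‖E x‖ ≠ 0 := norm_ne_zero_iff.2 h6
  obtain ⟨u, hu⟩ : ∃ u, u = ‖E x‖⁻¹ • E x := ⟨_, rfl⟩
  have hu1 : ‖u‖ = 1 := by rw [hu, norm_smul, norm_inv, norm_norm, inv_mul_cancel₀ h7]
  have hfix : ∀ J : H →L[ℝ] H, J * E = E → J u = u := by
    intro J hJ
    have h8 : J (E x) = E x := ContinuousLinearMap.ext_iff.1 hJ x
    rw [hu, map_smul, h8]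
  have hin : ∀ J : H →L[ℝ] H, J * E = E → (∀ s t, ⟪J s, t⟫ = ⟪s, J t⟫) →
      ∀ s, ⟪u, gaps_E J s⟫ = ⟪u, s⟫ := by
    intro J hJ hy s
    change ⟪u, (2⁻¹ : ℝ) • (s + J s)⟫ = _
    rw [inner_smul_right, inner_add_right, ← hy, hfix J hJ]
    ring
  refine ⟨u, hu1, hfix _ e0, hfix _ e1, hfix _ e2, fun s => ?_⟩
  have h8 : ⟪u, E s⟫ = ⟪u, s⟫ := by
    rw [hE]
    change ⟪u, gaps_E J0 (gaps_E J1 (gaps_E J2 s))⟫ = _
    rw [hin _ e0 y0, hin _ e1 y1, hin _ e2 y2]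
  obtain ⟨c, hc⟩ := h5 ⟨E s, s, rfl⟩
  have h9 : E s = (c * ‖E x‖) • u := by
    rw [hu, smul_smul, mul_assoc, mul_inv_cancel₀ h7, mul_one]
    exact (congrArg Subtype.val hc).symm
  rw [← hE, ← h8, h9, inner_smul_right, real_inner_self_eq_norm_sq, hu1, one_pow, mul_one]

/-- The one parameter group of an involution. -/
def gaps_B (J : H →L[ℝ] H) (t : ℝ) : H →L[ℝ] H := Real.cosh (t / 2) • 1 + Real.sinh (t / 2) • J

theorem gaps_bst {J : H →L[ℝ] H} (h1 : ‖J‖ ≤ 1) {t : ℝ} (ht : 0 ≤ t) :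
    ‖gaps_B J t‖ ≤ Real.exp (t / 2) ∧ ‖Real.exp (t / 2) • gaps_E J‖ ≤ Real.exp (t / 2) ∧
    ‖gaps_B J t - Real.exp (t / 2) • gaps_E J‖ ≤ Real.exp (-t) * Real.exp (t / 2) := by
  have h2 : ‖(1 : H →L[ℝ] H)‖ ≤ 1 := ContinuousLinearMap.norm_id_le
  refine ⟨?_, ?_, ?_⟩
  · have h3 : 0 ≤ Real.sinh (t / 2) := Real.sinh_nonneg_iff.2 (by linarith)
    have h4 := Real.cosh_pos (t / 2)
    refine (norm_add_le _ _).trans ?_
    rw [norm_smul, norm_smul, Real.norm_of_nonneg h3, Real.norm_of_nonneg h4.le,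
      ← Real.cosh_add_sinh]
    exact add_le_add (mul_le_of_le_one_right h4.le h2) (mul_le_of_le_one_right h3 h1)
  · rw [norm_smul, Real.norm_of_nonneg (Real.exp_pos _).le]
    exact mul_le_of_le_one_right (Real.exp_pos _).le (gaps_E_norm h1)
  · have h3 : gaps_B J t - Real.exp (t / 2) • gaps_E J = Real.exp (-(t / 2)) • gaps_E (-J) := by
      rw [gaps_B, gaps_E, gaps_E, Real.cosh_eq, Real.sinh_eq]
      module
    rw [h3, norm_smul, Real.norm_of_nonneg (Real.exp_pos _).le, ← Real.exp_add,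
      show -t + t / 2 = -(t / 2) by ring]
    exact mul_le_of_le_one_right (Real.exp_pos _).le (gaps_E_norm (by rwa [norm_neg]))

theorem gaps_tele {B0 B1 B2 F0 F1 F2 : H →L[ℝ] H} {c0 c1 c2 d0 d1 d2 : ℝ} (b1 : ‖B1‖ ≤ c1)
    (b2 : ‖B2‖ ≤ c2) (f0 : ‖F0‖ ≤ c0) (f1 : ‖F1‖ ≤ c1) (g0 : ‖B0 - F0‖ ≤ d0 * c0)
    (g1 : ‖B1 - F1‖ ≤ d1 * c1) (g2 : ‖B2 - F2‖ ≤ d2 * c2) :
    ‖B0 * B1 * B2 - F0 * F1 * F2‖ ≤ (d0 + d1 + d2) * (c0 * c1 * c2) := by
  have h : ∀ {X Y Z : H →L[ℝ] H} {x y z : ℝ}, ‖X‖ ≤ x → ‖Y‖ ≤ y → ‖Z‖ ≤ z →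
      ‖X * Y * Z‖ ≤ x * y * z := fun hx hy hz =>
    norm_mul_le_of_le (norm_mul_le_of_le hx hy) hz
  have h1 : B0 * B1 * B2 - F0 * F1 * F2 =
      (B0 - F0) * B1 * B2 + F0 * (B1 - F1) * B2 + F0 * F1 * (B2 - F2) := by noncomm_ring
  rw [h1]
  refine (norm_add₃_le.trans (add_le_add (add_le_add (h g0 b1 b2) (h f0 g1 b2))
    (h f0 f1 g2))).trans (le_of_eq ?_)
  ring

theorem gaps_main [FiniteDimensional ℝ H] (hd : Module.finrank ℝ H = 8) {a b : Fin 3 → H →L[ℝ] H}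
    (haa : ∀ i j, i ≠ j → a i * a j = -(a j * a i)) (hbb : ∀ i j, i ≠ j → b i * b j = -(b j * b i))
    (hab : ∀ i j, a i * b j = -(b j * a i)) (ha : ∀ i, a i * a i = 1) (hb : ∀ i, b i * b i = -1)
    (ya : ∀ i s t, ⟪a i s, t⟫ = ⟪s, a i t⟫) (yb : ∀ i s t, ⟪b i s, t⟫ = -⟪s, b i t⟫)
    (hn : ∀ i, ‖b i * a i‖ ≤ 1) {m : Fin 3 → ℝ} (hm : ∀ i, 0 ≤ m i) {B : H →L[ℝ] H}
    (hB : B = gaps_B (b 0 * a 0) (m 0) * gaps_B (b 1 * a 1) (m 1) * gaps_B (b 2 * a 2) (m 2)) :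
    ‖B‖ = Real.exp ((m 0 + m 1 + m 2) / 2) ∧ ∃ u : H, ‖u‖ = 1 ∧ B u = ‖B‖ • u ∧
      ∀ s, ‖B s - (‖B‖ * ⟪u, s⟫) • u‖ ≤
        (Real.exp (-m 0) + Real.exp (-m 1) + Real.exp (-m 2)) * ‖B‖ * ‖s‖ := by
  have hba : ∀ i j, b i * a j = -(a j * b i) := fun i j => by rw [hab, neg_neg]
  have ca : ∀ i j, i ≠ j → Commute (a i) (b j * a j) := fun i j h =>
    gaps_comm (hab _ _) (haa _ _ h)
  have cJ : ∀ i j, i ≠ j → Commute (b i * a i) (b j * a j) := fun i j h =>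
    (gaps_comm (hbb _ _ h) (hba _ _)).mul_left (ca i j h)
  have sq : ∀ i, b i * a i * (b i * a i) = 1 := fun i => by
    rw [mul_assoc, ← mul_assoc (a i), hab, neg_mul, mul_assoc, ha, mul_one, mul_neg, hb, neg_neg]
  have sy : ∀ i s t, ⟪(b i * a i) s, t⟫ = ⟪s, (b i * a i) t⟫ := fun i s t => by
    rw [mul_apply_eq_comp, yb, ya, ← mul_apply_eq_comp, hab,
      _root_.neg_apply, inner_neg_right, neg_neg]
  have ht : gaps_tr H (gaps_E (b 0 * a 0) * gaps_E (b 1 * a 1) * gaps_E (b 2 * a 2)) = 1 := by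
    have t1 : ∀ i, gaps_tr H (b i * a i) = 0 := fun i => by
      have h := gaps_tr_zero (Commute.one_right (a i)) (hab i i)
      rwa [one_mul] at h
    have t2 : ∀ i j, j ≠ i → gaps_tr H (b i * a i * (b j * a j)) = 0 := fun i j h =>
      gaps_tr_zero (ca j i h) (hab j j)
    have t3 := gaps_tr_zero ((ca 2 0 (by decide)).mul_right (ca 2 1 (by decide))) (hab 2 2)
    have t0 : gaps_tr H 1 = 8 := by
      change LinearMap.trace ℝ H 1 = 8
      rw [LinearMap.trace_one, hd]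
      norm_num
    simp only [gaps_E, smul_mul_assoc, mul_smul_comm, add_mul, mul_add, one_mul, mul_one, map_smul,
      map_add, t0, t1, t2 0 1 (by decide), t2 0 2 (by decide), t2 1 2 (by decide), t3, smul_eq_mul]
    norm_num
  obtain ⟨u, hu, u0, u1, u2, hE⟩ := gaps_line (sq 0) (sq 1) (sq 2) (cJ 0 1 (by decide))
    (cJ 0 2 (by decide)) (cJ 1 2 (by decide)) (sy 0) (sy 1) (sy 2) ht
  obtain ⟨b0, f0, g0⟩ := gaps_bst (hn 0) (hm 0)
  obtain ⟨b1, f1, g1⟩ := gaps_bst (hn 1) (hm 1)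
  obtain ⟨b2, -, g2⟩ := gaps_bst (hn 2) (hm 2)
  have hc : Real.exp (m 0 / 2) * Real.exp (m 1 / 2) * Real.exp (m 2 / 2) =
      Real.exp ((m 0 + m 1 + m 2) / 2) := by
    rw [← Real.exp_add, ← Real.exp_add]
    congr 1
    ring
  have hJ : ∀ (J : H →L[ℝ] H) (t : ℝ), J u = u → gaps_B J t u = Real.exp (t / 2) • u := by
    intro J t h
    change Real.cosh (t / 2) • u + Real.sinh (t / 2) • J u = _
    rw [h, ← add_smul, Real.cosh_add_sinh]
  have h1 : B u = Real.exp ((m 0 + m 1 + m 2) / 2) • u := by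
    rw [hB, mul_apply_eq_comp, mul_apply_eq_comp, hJ _ _ u2, map_smul,
      hJ _ _ u1, map_smul, map_smul, hJ _ _ u0, smul_smul, smul_smul, ← hc]
    congr 1
    ring
  have h2 : ‖B‖ = Real.exp ((m 0 + m 1 + m 2) / 2) := by
    refine le_antisymm ?_ ?_
    · rw [hB, ← hc]
      exact norm_mul_le_of_le (norm_mul_le_of_le b0 b1) b2
    · have h3 := B.le_opNorm u
      rwa [h1, norm_smul, hu, Real.norm_of_nonneg (Real.exp_pos _).le, mul_one, mul_one] at h3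
  refine ⟨h2, u, hu, by rw [h1, h2], fun s => ?_⟩
  have h3 := gaps_tele b1 b2 f0 f1 g0 g1 g2
  rw [hc, smul_mul_smul_comm, smul_mul_smul_comm, hc, ← hB] at h3
  have h4 := ContinuousLinearMap.le_of_opNorm_le _ h3 s
  rw [_root_.sub_apply, _root_.smul_apply, hE, smul_smul] at h4
  rw [h2]
  exact h4

end Gen

theorem gaps_anti {x y : V} (h : qV x y = 0) : cl x * cl y = -(cl y * cl x) := by
  ext1 s
  have h1 := cl_anti x y s
  rw [h, mul_zero, zero_smul] at h1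
  rw [_root_.neg_apply, mul_apply_eq_comp, mul_apply_eq_comp]
  exact eq_neg_of_add_eq_zero_left h1

theorem gaps_iso {B k : S →L[ℝ] S} {u : S} {η : ℝ} (G : Gap B u u η) (hk : ∀ s, ‖k s‖ = ‖s‖) :
    ‖B * k‖ = ‖B‖ ∧ ∃ v, Gap (B * k) u v η := by
  let f : S →ₗᵢ[ℝ] S := ⟨k, hk⟩
  obtain ⟨v, hv⟩ := LinearMap.surjective_of_injective (f := (k : S →ₗ[ℝ] S)) f.injective u
  have hv' : k v = u := hv
  have h1 : ‖v‖ = 1 := by rw [← hk, hv', G.hu]
  have h2 : (B * k) v = ‖B‖ • u := by rw [mul_apply_eq_comp, hv', G.top]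
  have h3 : ‖B * k‖ = ‖B‖ := by
    refine le_antisymm (ContinuousLinearMap.opNorm_le_bound _ (norm_nonneg _) fun s => ?_) ?_
    · rw [← hk s]
      exact B.le_opNorm _
    · have h4 := (B * k).le_opNorm v
      rwa [h2, h1, norm_smul, G.hu, norm_norm, mul_one, mul_one] at h4
  refine ⟨h3, v, G.hu, h1, by rw [h2, h3], fun s => ?_⟩
  have h4 : ⟪k v, k s⟫ = ⟪v, s⟫ := f.inner_map_map v s
  rw [h3, ← h4, hv', ← hk s]
  exact G.near (k s)

/-- `J i = JJ (p i) (w i)` are commuting symmetric involutions (`inner_cl_p`, `inner_cl_w`,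
`cl_anti`), `E i = (1 + J i)/2` orthogonal projectors,
`bstS = exp (t/2) • E + exp (-t/2) • (1 - E)`, so `‖bstS‖ ≤ exp (t/2)` and
`‖bstS - exp (t/2) • E‖ ≤ exp (-t/2)`. `E = E 0 * E 1 * E 2` is a symmetric idempotent of trace
`8/8 = 1` (a product of 2, 4 or 6 pairwise anticommuting maps has trace zero: move the last one to
the front), so its range is a line (`LinearMap.IsProj.trace`) and `E s = ⟪u, s⟫ • u`. Telescope. -/
theorem bstS3_gap {p : Fin 4 → E4} {w : Fin 3 → E3} (hp : Orthonormal ℝ p) (hw : Orthonormal ℝ w)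
    {m : Fin 3 → ℝ} (hm : ∀ i, 0 ≤ m i) :
    ‖bstS3 p w m‖ = Real.exp ((m 0 + m 1 + m 2) / 2) ∧
      ∃ u, Gap (bstS3 p w m) u u (Real.exp (-m 0) + Real.exp (-m 1) + Real.exp (-m 2)) := by
  have hd : Module.finrank ℝ S = 8 := by
    rw [(WithLp.linearEquiv 2 ℝ (E4 × E4)).finrank_eq, Module.finrank_prod]
    simp
  obtain ⟨h1, u, h2, h3, h4⟩ := gaps_main hd (a := fun i => cl (mkV (p i.castSucc) 0))
    (b := fun i => cl (mkV 0 (w i)))
    (fun i j h => gaps_anti (by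
      simp [qV_apply, hp.inner_eq_zero fun e => h (Fin.castSucc_injective _ e)]))
    (fun i j h => gaps_anti (by simp [qV_apply, hw.inner_eq_zero h]))
    (fun i j => gaps_anti (by simp [qV_apply]))
    (fun i => by
      ext1 s
      rw [mul_apply_eq_comp, cl_cl, qV_self]
      simp [hp.1])
    (fun i => by
      ext1 s
      rw [mul_apply_eq_comp, cl_cl, qV_self]
      simp [hw.1])
    (fun i => inner_cl_p _) (fun i => inner_cl_w _)
    (fun i => ContinuousLinearMap.opNorm_le_bound _ one_pos.le fun s => le_of_eq (by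
      rw [mul_apply_eq_comp, norm_cl_w, norm_cl_p, hp.1, hw.1, one_mul]))
    hm (B := bstS3 p w m) rfl
  exact ⟨h1, u, h2, h2, h3, h4⟩

theorem gaps_nonneg {g k : V →L[ℝ] V} {p : Fin 4 → E4} {w : Fin 3 → E3} {m : Fin 3 → ℝ}
    (P : Polar g p w m k) (i : Fin 3) : 0 ≤ m i := by
  fin_cases i
  · exact P.m2.trans (P.m21.trans P.m10)
  · exact P.m2.trans P.m21
  · exact P.m2

theorem Polar.norm_eq {g k : V →L[ℝ] V} {h : S →L[ℝ] S} {p : Fin 4 → E4} {w : Fin 3 → E3}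
    {m : Fin 3 → ℝ} (P : Polar g p w m k) (L : Lift g h) :
    ‖h‖ = Real.exp ((m 0 + m 1 + m 2) / 2) := by
  obtain ⟨hk, rfl, h1⟩ := P.factor L
  obtain ⟨h2, u, G⟩ := bstS3_gap P.hp P.hw (gaps_nonneg P)
  rw [(gaps_iso G h1).1, h2]

/-- `exists_polar`, `Polar.factor`; `hk` is a surjective linear isometry, `v` is the preimage of
`u`; `μ ≤ exp (m i)` by `Polar.low`. -/
theorem lift_gap {g : V →L[ℝ] V} {h : S →L[ℝ] S} (L : Lift g h) {μ : ℝ} (hμ : 0 < μ)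
    (hw : ∀ w, ‖w‖ = 1 → μ ≤ ‖g (mkV 0 w)‖) : ∃ u v, Gap h u v (3 / μ) := by
  obtain ⟨p, w, m, k, P⟩ := exists_polar L.orth
  obtain ⟨hk, rfl, h1⟩ := P.factor L
  obtain ⟨-, u, G⟩ := bstS3_gap P.hp P.hw (gaps_nonneg P)
  obtain ⟨-, v, G'⟩ := gaps_iso G h1
  have h2 : ∀ i, Real.exp (-m i) ≤ 1 / μ := by
    intro i
    obtain ⟨y, h3, h4⟩ := P.low i
    rw [Real.exp_neg, one_div]
    exact inv_anti₀ hμ ((hw y h3).trans h4)
  refine ⟨u, v, G'.hu, G'.hv, G'.top, fun s => (G'.near s).trans ?_⟩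
  have h3 : Real.exp (-m 0) + Real.exp (-m 1) + Real.exp (-m 2) ≤ 3 / μ :=
    (add_le_add (add_le_add (h2 0) (h2 1)) (h2 2)).trans (le_of_eq (by ring))
  gcongr

end H42
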