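import Pool.Agent.Lib.MP_320961_gt.Defs

/-! Word lengths. -/

open scoped RealInnerProductSpace ENNReal NNReal
open Set Metric MeasureTheory Filter Topology

noncomputable section

namespace H42

variable {Γ : Type*} [Group Γ]

/-- `l γ` is the least length of a list of letters with product `γ` (`Nat.find`). Finite balls:
`List.finite_length_le` on the subtype, or induction with `Set.Finite.mul`. -/
theorem exists_wordLen {Sg : Set Γ} (hf : Sg.Finite) (hs : ∀ σ ∈ Sg, σ⁻¹ ∈ Sg)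
    (hg : ∀ γ, ∃ L : List Γ, (∀ σ ∈ L, σ ∈ Sg) ∧ L.prod = γ) :
    ∃ l : Γ → ℕ, WordLen l ∧ ∀ L : List Γ, (∀ σ ∈ L, σ ∈ Sg) → l L.prod ≤ L.length := by
  classical
  have hex : ∀ γ, ∃ n, ∃ L : List Γ, (∀ σ ∈ L, σ ∈ Sg) ∧ L.prod = γ ∧ L.length = n := fun γ => by
    obtain ⟨L, h1, h2⟩ := hg γ
    exact ⟨_, L, h1, h2, rfl⟩
  obtain ⟨l, hsp, hle⟩ : ∃ l : Γ → ℕ,
      (∀ γ, ∃ L : List Γ, (∀ σ ∈ L, σ ∈ Sg) ∧ L.prod = γ ∧ L.length = l γ) ∧
      ∀ L : List Γ, (∀ σ ∈ L, σ ∈ Sg) → l L.prod ≤ L.length :=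
    ⟨fun γ => Nat.find (hex γ), fun γ => Nat.find_spec (hex γ),
      fun L hL => Nat.find_min' (hex _) ⟨L, hL, rfl, rfl⟩⟩
  have hone : ∀ γ, l γ = 0 → γ = 1 := fun γ h => by
    obtain ⟨L, _, h2, h3⟩ := hsp γ
    rw [h, List.length_eq_zero_iff] at h3
    rw [← h2, h3, List.prod_nil]
  have hinv : ∀ γ, l γ⁻¹ ≤ l γ := fun γ => by
    obtain ⟨L, h1, h2, h3⟩ := hsp γ
    have := hle (L.map fun x => x⁻¹).reverse fun σ hσ => by
      obtain ⟨x, hx, rfl⟩ := List.mem_map.1 (List.mem_reverse.1 hσ)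
      exact hs x (h1 x hx)
    rwa [← List.prod_inv_reverse, h2, List.length_reverse, List.length_map, h3] at this
  have hmul : ∀ γ η, l (γ * η) ≤ l γ + l η := fun γ η => by
    obtain ⟨L, h1, h2, h3⟩ := hsp γ
    obtain ⟨L', h4, h5, h6⟩ := hsp η
    have := hle (L ++ L') fun σ hσ => (List.mem_append.1 hσ).elim (h1 σ) (h4 σ)
    rwa [List.prod_append, h2, h5, List.length_append, h3, h6] at this
  have hstep : ∀ γ k, l γ = k + 1 → ∃ η σ, γ = η * σ ∧ l η ≤ k ∧ σ ∈ Sg := fun γ k h => by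
    obtain ⟨L, h1, h2, h3⟩ := hsp γ
    rcases List.eq_nil_or_concat' L with rfl | ⟨L', σ, rfl⟩
    · rw [h] at h3
      simp at h3
    · refine ⟨L'.prod, σ, by rw [← h2]; simp, ?_, h1 σ (by simp)⟩
      have := hle L' fun x hx => h1 x (List.mem_append_left _ hx)
      rw [h, List.length_append, List.length_singleton] at h3
      omega
  refine ⟨l, ⟨?_, hone, fun γ => le_antisymm (hinv γ) ?_, hmul, fun γ k h => ?_, fun k => ?_⟩, hle⟩
  · simpa using hle [] (by simp)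
  · simpa using hinv γ⁻¹
  · obtain ⟨η, σ, h1, h2, h3⟩ := hstep γ k h
    have h4 : l σ ≤ 1 := by simpa using hle [σ] (by simpa using h3)
    have h5 := hmul η σ
    rw [← h1, h] at h5
    exact ⟨η, σ, h1, by omega, by omega⟩
  · induction k with
    | zero => exact (finite_singleton 1).subset fun γ hγ => hone γ (Nat.le_zero.1 hγ)
    | succ k ih =>
      refine (ih.union (Finite.image2 (· * ·) ih hf)).subset fun γ hγ => ?_
      rcases Nat.of_le_succ (show l γ ≤ k + 1 from hγ) with h | h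
      · exact Or.inl h
      · obtain ⟨η, σ, h1, h2, h3⟩ := hstep γ k h
        exact Or.inr ⟨η, h2, σ, h3, h1.symm⟩

theorem WordLen.step_left {l : Γ → ℕ} (W : WordLen l) (γ : Γ) (k : ℕ) (h : l γ = k + 1) :
    ∃ σ η, γ = σ * η ∧ l σ = 1 ∧ l η = k := by
  obtain ⟨η, σ, h1, h2, h3⟩ := W.step γ⁻¹ k (by rw [W.inv, h])
  refine ⟨σ⁻¹, η⁻¹, ?_, by rw [W.inv, h3], by rw [W.inv, h2]⟩
  rw [← mul_inv_rev, ← h1, inv_inv]

theorem WordLen.split {l : Γ → ℕ} (W : WordLen l) (γ : Γ) {k : ℕ} (hk : k ≤ l γ) :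
    ∃ α β, γ = α * β ∧ l α = k ∧ l γ = k + l β := by
  induction k with
  | zero => exact ⟨1, γ, (one_mul γ).symm, W.one, (zero_add _).symm⟩
  | succ k ih =>
    obtain ⟨α, β, h1, h2, h3⟩ := ih (by omega)
    obtain ⟨σ, η, h4, h5, h6⟩ := W.step_left β (l β - 1) (by omega)
    have h7 : γ = α * σ * η := by rw [h1, h4, mul_assoc]
    have h8 := W.mul α σ
    have h9 := W.mul (α * σ) η
    rw [← h7] at h9
    exact ⟨α * σ, η, h7, by omega, by omega⟩

theorem WordLen.path {l : Γ → ℕ} (W : WordLen l) (γ : Γ) :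
    ∃ P : ℕ → Γ, P 0 = 1 ∧ P (l γ) = γ ∧
      ∀ i j, i ≤ j → j ≤ l γ → l ((P i)⁻¹ * P j) = j - i := by
  obtain ⟨n, hn⟩ : ∃ n, l γ = n := ⟨_, rfl⟩
  rw [hn]
  induction n generalizing γ with
  | zero =>
    refine ⟨fun _ => 1, rfl, (W.eq_one γ hn).symm, fun i j hij hj => ?_⟩
    rw [inv_one, one_mul, W.one]
    omega
  | succ k ih =>
    obtain ⟨η, σ, h1, h2, h3⟩ := W.step γ k hn
    obtain ⟨P, h4, h5, h6⟩ := ih η h2
    refine ⟨fun i => if i ≤ k then P i else γ, by simp [h4], by simp, fun i j hij hj => ?_⟩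
    by_cases hjk : j ≤ k
    · simp only [if_pos hjk, if_pos (hij.trans hjk)]
      exact h6 i j hij hjk
    by_cases hik : i ≤ k
    · simp only [if_neg hjk, if_pos hik]
      have h7 := W.mul ((P i)⁻¹ * P k) σ
      rw [h6 i k hik le_rfl, h5, mul_assoc, ← h1] at h7
      have h8 := W.mul (P i) ((P i)⁻¹ * γ)
      have h9 := h6 0 i (Nat.zero_le i) hik
      rw [h4, inv_one, one_mul] at h9
      rw [mul_inv_cancel_left] at h8
      omega
    · simp only [if_neg hjk, if_neg hik, inv_mul_cancel, W.one]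
      omega

theorem WordLen.norm_le {l : Γ → ℕ} (W : WordLen l) {E : Type*} [NormedAddCommGroup E]
    [NormedSpace ℝ E] (h : Γ →* (E →L[ℝ] E)) : ∃ D : ℝ, 1 ≤ D ∧ ∀ γ, ‖h γ‖ ≤ D ^ l γ := by
  obtain ⟨D, hD⟩ := ((W.fin 1).image fun γ => ‖h γ‖).bddAbove
  refine ⟨max 1 D, le_max_left _ _, fun γ => ?_⟩
  obtain ⟨n, hn⟩ : ∃ n, l γ = n := ⟨_, rfl⟩
  rw [hn]
  induction n generalizing γ with
  | zero =>
    rw [W.eq_one γ hn, map_one, pow_zero]
    exact ContinuousLinearMap.norm_id_le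
  | succ k ih =>
    obtain ⟨η, σ, h1, h2, h3⟩ := W.step γ k hn
    have h4 : ‖h σ‖ ≤ max 1 D := (hD ⟨σ, h3.le, rfl⟩).trans (le_max_right _ _)
    rw [h1, map_mul, pow_succ]
    exact (norm_mul_le _ _).trans
      (mul_le_mul (ih η h2) h4 (norm_nonneg _) ((norm_nonneg _).trans (ih η h2)))

end H42
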