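import Pool.Agent.Lib.MP_320961_gt.Step
import Pool.Agent.Lib.MP_320961_gt.Word
import Pool.Agent.Lib.MP_320961_gt.GapS

/-! Sharpness. -/

open scoped RealInnerProductSpace ENNReal NNReal
open Set Metric MeasureTheory Filter Topology

noncomputable section

namespace H42

variable {Γ : Type*} [Group Γ]

/-- Letters: `Sg = {σ | ∃ y, qV y y < 0 ∧ nn y ≤ R₁ ∧ nn (g σ y) ≤ R₁}`. Induction on `k`: if
`qV x x < 0`, `nn (g γ⁻¹ x) ≤ R₀` and `nn x ≤ exp (k δ)` then `γ` is a product of at most `k + 1`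
letters (if `nn x ≤ R₁` then `γ` is a letter; otherwise `sharp_step` at `y = g γ⁻¹ x`, choose `γ'`
for `x' = g γ y'`, then `γ'⁻¹ γ` is a letter). Apply it to `x = g γ (mkV 0 w)`, `nn x = ‖x‖²`. -/
theorem Act.sharp (A : Act Γ) : ∃ l : Γ → ℕ, WordLen l ∧ ∃ c > 0, ∃ C > 0,
    ∀ γ (w : E3), ‖w‖ = 1 → Real.exp (c * l γ) ≤ C * ‖A.g γ (mkV 0 w)‖ := by
  obtain ⟨R, hR⟩ := A.cocomp
  obtain ⟨R₁, δ, hδ, h1, h2, hs⟩ := sharp_step (le_max_right R 1)
  have hm : ∀ a b y, A.g a (A.g b y) = A.g (a * b) y := fun a b y => by rw [map_mul]; rfl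
  have hq : ∀ a y, qV (A.g a y) (A.g a y) = qV y y := fun a y => (A.lift a).orth y y
  have key : ∀ (k : ℕ) γ y, qV y y < 0 → nn y ≤ max R 1 → nn (A.g γ y) ≤ Real.exp (k * δ) →
      ∃ L : List Γ, (∀ σ ∈ L, σ ∈ {σ | ∃ y, qV y y < 0 ∧ nn y ≤ R₁ ∧ nn (A.g σ y) ≤ R₁}) ∧
        L.prod = γ ∧ L.length ≤ k + 1 := by
    intro k
    induction k with
    | zero =>
      intro γ y hy hn hk
      rw [Nat.cast_zero, zero_mul, Real.exp_zero] at hk
      exact ⟨[γ], List.forall_mem_singleton.2 ⟨y, hy, hn.trans h1, by linarith⟩, by simp, le_rfl⟩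
    | succ k ih =>
      intro γ y hy hn hk
      obtain ⟨y', hy', hn', h | h⟩ := hs _ (A.lift γ).orth y hy hn
      · exact ⟨[γ], List.forall_mem_singleton.2 ⟨y', hy', hn', h.trans h2⟩, by simp, by simp⟩
      obtain ⟨γ', h3⟩ := hR (A.g γ y') (by rwa [hq])
      replace h3 := h3.trans (le_max_left R 1)
      obtain ⟨L, l1, l2, l3⟩ := ih γ' _ (by rwa [hq, hq]) h3 (by
        rw [hm, mul_inv_cancel, map_one]
        refine h.trans ((mul_le_mul_of_nonneg_left hk (Real.exp_pos _).le).trans_eq ?_)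
        rw [← Real.exp_add]
        congr 1
        push_cast
        ring)
      refine ⟨L ++ [γ'⁻¹ * γ], List.forall_mem_append.2 ⟨l1, List.forall_mem_singleton.2
        ⟨y', hy', hn', ?_⟩⟩, by simp [l2], by simpa using l3⟩
      rw [← hm]
      exact h3.trans h1
  have key2 : ∀ γ (w : E3), ‖w‖ = 1 → ∃ L : List Γ,
      (∀ σ ∈ L, σ ∈ {σ | ∃ y, qV y y < 0 ∧ nn y ≤ R₁ ∧ nn (A.g σ y) ≤ R₁}) ∧ L.prod = γ ∧
        Real.exp (δ / 2 * L.length) ≤ Real.exp δ * ‖A.g γ (mkV 0 w)‖ := by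
    intro γ w hw
    obtain ⟨h3, h4⟩ := nn_mkV_w hw
    have h5 : nn (A.g γ (mkV 0 w)) = ‖A.g γ (mkV 0 w)‖ ^ 2 := by rw [nn, hq, h3]; simp
    have h6 : 1 ≤ ‖A.g γ (mkV 0 w)‖ := by
      have := one_le_nn (y := A.g γ (mkV 0 w)) (by rw [hq, h3]; norm_num)
      rw [h5] at this
      exact (one_le_sq_iff₀ (norm_nonneg _)).1 this
    have h7 := Real.exp_log (zero_lt_one.trans_le h6)
    have h8 := Real.log_nonneg h6
    generalize Real.log _ = t at h7 h8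
    obtain ⟨L, l1, l2, l3⟩ := key ⌈2 * t / δ⌉₊ γ _ (by rw [h3]; norm_num)
      (h4.le.trans (le_max_right _ _)) (by
        rw [h5, ← h7, ← Real.exp_nat_mul, Real.exp_le_exp]
        exact (div_le_iff₀ hδ).1 (Nat.le_ceil _))
    refine ⟨L, l1, l2, ?_⟩
    rw [← h7, ← Real.exp_add, Real.exp_le_exp]
    have h9 : (L.length : ℝ) ≤ ⌈2 * t / δ⌉₊ + 1 := by exact_mod_cast l3
    have h10 := Nat.ceil_lt_add_one (show 0 ≤ 2 * t / δ by positivity)
    have h11 : δ * (2 * t / δ) = 2 * t := by field_simp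
    nlinarith
  obtain ⟨l, W, hl⟩ := exists_wordLen (A.proper R₁)
    (fun σ ⟨y, hy, hn, hn'⟩ => ⟨A.g σ y, by rwa [hq], hn', by
      rwa [hm, inv_mul_cancel, map_one]⟩)
    fun γ => (key2 γ wI norm_wI).imp fun L h => ⟨h.1, h.2.1⟩
  refine ⟨l, W, δ / 2, half_pos hδ, _, Real.exp_pos δ, fun γ w hw => ?_⟩
  obtain ⟨L, l1, rfl, l3⟩ := key2 γ w hw
  exact (Real.exp_le_exp.2 (mul_le_mul_of_nonneg_left (Nat.cast_le.2 (hl L l1))
    (half_pos hδ).le)).trans l3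

/-- `lift_gap` with `μ = exp (c l γ) / C`. -/
theorem Act.dyn (A : Act Γ) : ∃ D : Dyn Γ, D.h = A.h := by
  obtain ⟨l, W, c, hc, C, hC, h⟩ := A.sharp
  choose u v huv using fun γ => lift_gap (A.lift γ) (div_pos (Real.exp_pos (c * l γ)) hC)
    fun w hw => (div_le_iff₀' hC).2 (h γ w hw)
  refine ⟨⟨l, W, A.h, fun γ => (A.lift γ).conf, u, v, c, 3 * C, hc, by positivity, fun γ => ?_⟩,
    rfl⟩
  convert huv γ using 1
  rw [Real.exp_neg]
  field_simp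

end H42
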