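import Pool.Agent.Lib.MP_320961_gt.Box
import Pool.Agent.Lib.MP_320961_gt.GapS

/-! Summability from properness. -/

open scoped RealInnerProductSpace ENNReal NNReal
open Set Metric MeasureTheory Filter Topology

noncomputable section

namespace H42

theorem sum_fibre (p : E4) :
    volume {w : E3 | mkV p w ∈ shell} ≤
      ENNReal.ofReal (6 * (1 + ‖p‖)) * volume (ball (0 : E3) 1) := by
  have ha : 0 ≤ ‖p‖ := norm_nonneg p
  set a := ‖p‖ with hadef
  set b := Real.sqrt (a ^ 2 + 3) with hbdef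
  have hb0 : 0 ≤ b := Real.sqrt_nonneg _
  have hb2 : b ^ 2 = a ^ 2 + 3 := Real.sq_sqrt (by positivity)
  have hab : a ≤ b := by
    exact Real.le_sqrt_of_sq_le (by linarith)
  have hb : b ≤ a + 2 := by
    apply Real.sqrt_le_iff.2
    exact ⟨by linarith, by nlinarith⟩
  have hsub : {w : E3 | mkV p w ∈ shell} ⊆ closedBall (0 : E3) b \ ball 0 a := by
    intro w hw
    obtain ⟨h1, h2⟩ := hw
    rw [qV_self, mkV_fst, mkV_snd, ← hadef] at h1 h2
    have hw0 := norm_nonneg w
    refine ⟨mem_closedBall_zero_iff.2 ?_, fun h => ?_⟩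
    · exact Real.le_sqrt_of_sq_le (by linarith)
    · have := mem_ball_zero_iff.1 h
      nlinarith
  refine (measure_mono hsub).trans ?_
  rw [measure_sdiff (ball_subset_closedBall.trans (closedBall_subset_closedBall hab))
    measurableSet_ball.nullMeasurableSet measure_ball_lt_top.ne,
    Measure.addHaar_closedBall volume _ hb0, Measure.addHaar_ball volume _ ha, tsub_le_iff_right,
    ← add_mul, ← ENNReal.ofReal_add (by positivity) (by positivity)]
  gcongr
  simp only [finrank_euclideanSpace, Fintype.card_fin]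
  have h3 : b ^ 3 - a ^ 3 ≤ (b ^ 2 - a ^ 2) * (a + b) := by
    nlinarith [mul_nonneg (sub_nonneg.2 hab) (mul_nonneg ha hb0)]
  rw [hb2] at h3
  nlinarith

theorem sum_wt_le (p : E4) (w : E3) : wt (mkV p w) ≤ ENNReal.ofReal ((1 + ‖p‖) ^ (-6 : ℝ)) := by
  apply ENNReal.ofReal_le_ofReal
  have h : ‖p‖ ≤ ‖mkV p w‖ := by
    have := normV_sq (mkV p w)
    rw [mkV_fst, mkV_snd] at this
    exact (pow_le_pow_iff_left₀ (norm_nonneg _) (norm_nonneg _) two_ne_zero).1
      (by rw [this]; nlinarith [sq_nonneg ‖w‖])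
  exact Real.rpow_le_rpow_of_nonpos (by positivity) (by linarith) (by norm_num)

/-- Transport to `E4 × E3` (`WithLp.volume_preserving_toLp`), Tonelli. For fixed `p` the fibre is
`{w | ‖p‖² + 1 ≤ ‖w‖² ≤ ‖p‖² + 3}`, a difference of balls of radii `a ≤ b` with
`b³ - a³ ≤ C (1 + ‖p‖)` (`Measure.addHaar_closedBall`, `Measure.addHaar_ball`), and
`wt ≤ (1 + ‖p‖)^(-6)`; `finite_integral_one_add_norm` with exponent 5 in dimension 4. -/
theorem shell_finite : ∫⁻ x in shell, wt x < ∞ := by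
  have hm : Measurable (shell.indicator wt) := measurable_wt.indicator measurableSet_shell
  have hp := WithLp.volume_preserving_toLp E4 E3
  rw [← lintegral_indicator measurableSet_shell, ← hp.lintegral_comp hm,
    Measure.volume_eq_prod, lintegral_prod (fun a : E4 × E3 => shell.indicator wt (WithLp.toLp 2 a))
      (hm.comp hp.measurable).aemeasurable]
  have key : ∀ p : E4, ∫⁻ w : E3, shell.indicator wt (WithLp.toLp 2 (p, w)) ≤
      (6 * volume (ball (0 : E3) 1)) * ENNReal.ofReal ((1 + ‖p‖) ^ (-5 : ℝ)) := by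
    intro p
    have hms : MeasurableSet {w : E3 | mkV p w ∈ shell} :=
      (hp.measurable.comp measurable_prodMk_left) measurableSet_shell
    calc ∫⁻ w : E3, shell.indicator wt (WithLp.toLp 2 (p, w))
        ≤ ∫⁻ w : E3, {w : E3 | mkV p w ∈ shell}.indicator
            (fun _ => ENNReal.ofReal ((1 + ‖p‖) ^ (-6 : ℝ))) w := by
          refine lintegral_mono fun w => ?_
          by_cases hw : mkV p w ∈ shell
          · rw [indicator_of_mem (s := {w : E3 | mkV p w ∈ shell}) hw]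
            exact (indicator_le_self _ _ _).trans (sum_wt_le p w)
          · have : shell.indicator wt (WithLp.toLp 2 (p, w)) = 0 := indicator_of_notMem hw _
            rw [this]
            exact zero_le
      _ = ENNReal.ofReal ((1 + ‖p‖) ^ (-6 : ℝ)) * volume {w : E3 | mkV p w ∈ shell} :=
          lintegral_indicator_const hms _
      _ ≤ ENNReal.ofReal ((1 + ‖p‖) ^ (-6 : ℝ)) *
            (ENNReal.ofReal (6 * (1 + ‖p‖)) * volume (ball (0 : E3) 1)) := by
          gcongr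
          exact sum_fibre p
      _ = (6 * volume (ball (0 : E3) 1)) * ENNReal.ofReal ((1 + ‖p‖) ^ (-5 : ℝ)) := by
          have h0 : (0 : ℝ) < 1 + ‖p‖ := by positivity
          have h1 : (1 + ‖p‖) ^ (-6 : ℝ) * (6 * (1 + ‖p‖)) = 6 * (1 + ‖p‖) ^ (-5 : ℝ) := by
            have : (-5 : ℝ) = -6 + 1 := by norm_num
            rw [this, Real.rpow_add_one h0.ne']
            ring
          rw [← mul_assoc, ← ENNReal.ofReal_mul (by positivity), h1,
            ENNReal.ofReal_mul (by norm_num), ENNReal.ofReal_ofNat]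
          ring
  refine (lintegral_mono key).trans_lt ?_
  have hfin : 6 * volume (ball (0 : E3) 1) ≠ ∞ :=
    ENNReal.mul_ne_top (by simp) measure_ball_lt_top.ne
  rw [lintegral_const_mul' _ _ hfin]
  refine ENNReal.mul_lt_top hfin.lt_top ?_
  apply finite_integral_one_add_norm
  simp only [finrank_euclideanSpace, Fintype.card_fin]
  norm_num

theorem sum_nn_le {g : V →L[ℝ] V} (hg : Orth g) {x : V} (hx : x ∈ shell) (h4 : ‖g x‖ ≤ 4) :
    qV (g x) (g x) < 0 ∧ nn (g x) ≤ 16 := by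
  obtain ⟨-, h2⟩ := hx
  rw [nn, hg x x]
  refine ⟨by linarith, ?_⟩
  rw [div_le_iff₀ (by linarith)]
  have := norm_nonneg (g x)
  nlinarith

theorem sum_card_le {Γ : Type*} [Group Γ] (A : Act Γ) : ∃ M : ℕ, ∀ x ∈ shell, ∀ T : Finset Γ,
    (∀ γ ∈ T, ‖A.g γ⁻¹ x‖ ≤ 4) → T.card ≤ M := by
  classical
  refine ⟨(A.proper 16).toFinset.card, fun x hx T hT => ?_⟩
  rcases T.eq_empty_or_nonempty with rfl | ⟨γ₀, h₀⟩
  · simp
  refine Finset.card_le_card_of_injOn (fun γ => γ⁻¹ * γ₀) (fun γ hγ => ?_) (fun a _ b _ h => ?_)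
  · have h1 := sum_nn_le (A.lift γ₀⁻¹).orth hx (hT γ₀ h₀)
    have h2 := sum_nn_le (A.lift γ⁻¹).orth hx (hT γ hγ)
    simp only [Finset.mem_coe, Finite.mem_toFinset, mem_ofPred_eq]
    refine ⟨A.g γ₀⁻¹ x, h1.1, h1.2, ?_⟩
    have : A.g (γ⁻¹ * γ₀) (A.g γ₀⁻¹ x) = A.g γ⁻¹ x := by
      rw [← mul_apply_eq_comp, ← map_mul, mul_inv_cancel_right]
    rw [this]
    exact h2.2
  · simpa using h

/-- On the shell `‖g γ⁻¹ x‖ ≤ 4` gives `nn ≤ 16`; if it holds for `γ₀` and `γ` then `γ⁻¹ γ₀` lies in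
the finite set of `A.proper 16`; so for a finite set `T` the sum of the indicators is at most
`M` times the indicator of the shell. `‖h‖⁴ = exp (2 (m 0 + m 1 + m 2)) ≥ exp (m 0 + m 1 + 4 m 2)`
(`exists_polar`, `Polar.norm_eq`, `box_lower`), `summable_of_sum_le`. -/
theorem Act.summable {Γ : Type*} [Group Γ] (A : Act Γ) : Summable fun γ => (‖A.h γ‖ ^ 4)⁻¹ := by
  classical
  obtain ⟨c, hc, hbox⟩ := box_lower
  obtain ⟨M, hM⟩ := sum_card_le A
  have hms : ∀ γ : Γ, MeasurableSet (shell ∩ {x | ‖A.g γ⁻¹ x‖ ≤ 4}) := fun γ =>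
    measurableSet_shell.inter
      (isClosed_le (A.g γ⁻¹).continuous.norm continuous_const).measurableSet
  have h1 : ∀ γ, ENNReal.ofReal (c * (‖A.h γ‖ ^ 4)⁻¹) ≤
      ∫⁻ x, (shell ∩ {x | ‖A.g γ⁻¹ x‖ ≤ 4}).indicator wt x := by
    intro γ
    obtain ⟨p, w, m, k, P⟩ := exists_polar (A.lift γ).orth
    rw [lintegral_indicator (hms γ)]
    refine le_trans (ENNReal.ofReal_le_ofReal ?_) (hbox (A.g γ) (A.g γ⁻¹) k p w m P fun x => ?_)
    · rw [P.norm_eq (A.lift γ), ← Real.exp_nat_mul, ← Real.exp_neg]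
      have := P.m2
      have := P.m21
      have := P.m10
      gcongr
      push_cast
      linarith
    · rw [← mul_apply_eq_comp, ← map_mul, inv_mul_cancel, map_one,
        one_apply_eq_self]
  have h2 : ∀ (T : Finset Γ) (x : V),
      ∑ γ ∈ T, (shell ∩ {x | ‖A.g γ⁻¹ x‖ ≤ 4}).indicator wt x ≤ M * shell.indicator wt x := by
    intro T x
    by_cases hx : x ∈ shell
    · rw [indicator_of_mem hx, ← Finset.sum_filter_add_sum_filter_not T (fun γ => ‖A.g γ⁻¹ x‖ ≤ 4)]
      rw [Finset.sum_eq_zero (s := T.filter fun γ => ¬ ‖A.g γ⁻¹ x‖ ≤ 4) fun γ hγ =>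
        indicator_of_notMem (fun h => (Finset.mem_filter.1 hγ).2 h.2) _, add_zero]
      refine (Finset.sum_le_card_nsmul _ _ (wt x) fun γ _ => indicator_le_self _ _ _).trans ?_
      rw [nsmul_eq_mul]
      gcongr
      exact hM x hx _ fun γ hγ => (Finset.mem_filter.1 hγ).2
    · rw [Finset.sum_eq_zero fun γ _ => indicator_of_notMem (fun h => hx h.1) _]
      exact zero_le
  have hfin : (M : ℝ≥0∞) * ∫⁻ x in shell, wt x ≠ ∞ :=
    ENNReal.mul_ne_top (by simp) shell_finite.ne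
  refine summable_of_sum_le (c := ((M : ℝ≥0∞) * ∫⁻ x in shell, wt x).toReal / c)
    (fun γ => by positivity) fun T => ?_
  rw [le_div_iff₀ hc, Finset.sum_mul, ← ENNReal.ofReal_le_iff_le_toReal hfin,
    ENNReal.ofReal_sum_of_nonneg fun γ _ => by positivity]
  calc ∑ γ ∈ T, ENNReal.ofReal ((‖A.h γ‖ ^ 4)⁻¹ * c)
      ≤ ∑ γ ∈ T, ∫⁻ x, (shell ∩ {x | ‖A.g γ⁻¹ x‖ ≤ 4}).indicator wt x :=
        Finset.sum_le_sum fun γ _ => by rw [mul_comm]; exact h1 γ
    _ = ∫⁻ x, ∑ γ ∈ T, (shell ∩ {x | ‖A.g γ⁻¹ x‖ ≤ 4}).indicator wt x :=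
        (lintegral_finsetSum T fun γ _ => measurable_wt.indicator (hms γ)).symm
    _ ≤ ∫⁻ x, M * shell.indicator wt x := lintegral_mono (h2 T)
    _ = M * ∫⁻ x in shell, wt x := by
        rw [lintegral_const_mul' _ _ (by simp), lintegral_indicator measurableSet_shell]

end H42
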