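import Pool.Agent.Lib.MP_320961_gt.Top2
import Pool.Agent.Lib.MP_320961_gt.Meas2
import Pool.Agent.Lib.MP_320961_gt.Sum
import Pool.Agent.Lib.MP_320961_gt.Sharp

/-! No proper cocompact action with a spin lift. -/

open scoped RealInnerProductSpace ENNReal NNReal
open Set Metric MeasureTheory Filter Topology

noncomputable section

namespace H42

theorem core_smul_mem {L₀ : Set S} {s : S} (hs : s ∈ cone L₀) {t : ℝ} (ht : 0 ≤ t) :
    t • s ∈ cone L₀ := by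
  obtain ⟨r, hr, s₀, h₀, rfl⟩ := hs
  exact ⟨t * r, mul_nonneg ht hr, s₀, h₀, smul_smul _ _ _⟩

/-- A conformal map which preserves the lines of a strictly negative set sends its cone into the
cone or into the opposite cone. -/
theorem core_side {L₀ : Set S} (h0 : ∀ s ∈ L₀, qS s s = 0)
    (hneg : ∀ s ∈ L₀, ∀ t ∈ L₀, s ≠ t → qS s t < 0)
    (h3 : ∃ a ∈ L₀, ∃ b ∈ L₀, ∃ c ∈ L₀, a ≠ b ∧ a ≠ c ∧ b ≠ c) {h : S →L[ℝ] S} (hc : Conf h)
    (hl : ∀ s ∈ L₀, h s ∈ cone L₀ ∨ -h s ∈ cone L₀) :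
    ∃ σ : ℝ, (σ = 1 ∨ σ = -1) ∧ ∀ s ∈ cone L₀, σ • h s ∈ cone L₀ := by
  have hle : ∀ s ∈ cone L₀, ∀ t ∈ cone L₀, qS s t ≤ 0 := by
    rintro _ ⟨r, hr, s, hs, rfl⟩ _ ⟨r', hr', t, ht, rfl⟩
    have : qS s t ≤ 0 := by
      by_cases e : s = t
      · rw [e, h0 t ht]
      · exact (hneg s hs t ht e).le
    simp only [map_smul, LinearMap.smul_apply, smul_eq_mul]
    exact mul_nonpos_of_nonneg_of_nonpos hr' (mul_nonpos_of_nonneg_of_nonpos hr this)
  have same : ∀ s t, (h s ∈ cone L₀ ∧ h t ∈ cone L₀) ∨ (-h s ∈ cone L₀ ∧ -h t ∈ cone L₀) →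
      qS (h s) (h t) ≤ 0 := by
    rintro s t (⟨a, b⟩ | ⟨a, b⟩)
    · exact hle _ a _ b
    · simpa using hle _ a _ b
  have opp : ∀ s t, h s ∈ cone L₀ → -h t ∈ cone L₀ → 0 ≤ qS (h s) (h t) := by
    intro s t a b
    simpa using hle _ a _ b
  have ext : ∀ σ : ℝ, (∀ s ∈ L₀, σ • h s ∈ cone L₀) → ∀ s ∈ cone L₀, σ • h s ∈ cone L₀ := by
    rintro σ H _ ⟨r, hr, s, hs, rfl⟩
    rw [map_smul, smul_comm]
    exact core_smul_mem (H s hs) hr
  obtain ⟨a, ha, b, hb, c, hc', hab, hac, hbc⟩ := h3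
  rcases hc with hc | hc
  · rcases hl a ha with h1 | h1
    · refine ⟨1, Or.inl rfl, ext 1 fun s hs => ?_⟩
      rw [one_smul]
      by_cases e : a = s
      · exact e ▸ h1
      · refine (hl s hs).resolve_right fun h2 => ?_
        have := opp a s h1 h2
        rw [hc] at this
        exact absurd (hneg a ha s hs e) (not_lt.2 this)
    · refine ⟨-1, Or.inr rfl, ext (-1) fun s hs => ?_⟩
      rw [neg_smul, one_smul]
      by_cases e : s = a
      · exact e ▸ h1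
      · refine (hl s hs).resolve_left fun h2 => ?_
        have := opp s a h2 h1
        rw [hc] at this
        exact absurd (hneg s hs a ha e) (not_lt.2 this)
  · exfalso
    have n1 := hneg a ha b hb hab
    have n2 := hneg a ha c hc' hac
    have n3 := hneg b hb c hc' hbc
    have e1 := hc a b
    have e2 := hc a c
    have e3 := hc b c
    rcases hl a ha with x | x <;> rcases hl b hb with y | y <;> rcases hl c hc' with z | z
    · linarith [same a b (Or.inl ⟨x, y⟩)]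
    · linarith [same a b (Or.inl ⟨x, y⟩)]
    · linarith [same a c (Or.inl ⟨x, z⟩)]
    · linarith [same b c (Or.inr ⟨y, z⟩)]
    · linarith [same b c (Or.inl ⟨y, z⟩)]
    · linarith [same a c (Or.inr ⟨x, z⟩)]
    · linarith [same a b (Or.inr ⟨x, y⟩)]
    · linarith [same a b (Or.inr ⟨x, y⟩)]

/-- The contradiction for a strictly negative set. -/
theorem core_neg {Γ : Type*} [Group Γ] (h : Γ →* (S →L[ℝ] S)) (N : Γ → ℝ) (l : Γ → ℕ)
    (hfin : ∀ k, {γ | l γ = k}.Finite) (hN : ∀ γ, 0 < N γ) (hsum : Summable fun γ => (N γ ^ 4)⁻¹)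
    (hconf : ∀ γ, Conf (h γ))
    (hP : ∀ γ s₁ s₂ s₃ s₄, Phi (h γ s₁) (h γ s₂) (h γ s₃) (h γ s₄) = Phi s₁ s₂ s₃ s₄)
    {L₀ : Set S} (hc : IsCompact L₀) (h1 : ∀ s ∈ L₀, ‖s‖ = 1) (h0 : ∀ s ∈ L₀, qS s s = 0)
    (hneg : ∀ s ∈ L₀, ∀ t ∈ L₀, s ≠ t → qS s t < 0)
    (hon : ∀ u : E4, ‖u‖ ^ 2 = 1 / 2 → ∃ s ∈ L₀, s.fst = u)
    (hl : ∀ γ, ∀ s ∈ L₀, h γ s ∈ cone L₀ ∨ -h γ s ∈ cone L₀) {K : ℝ} (hK : 0 < K)
    (hsh : ∀ s ∈ L₀, ∀ k, ∃ η, l η = k ∧ ‖h η⁻¹ s‖ ≤ K / N η) : False := by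
  obtain ⟨F, hF, hr⟩ := exists_cone hc h1 h0 hneg hon
  have hn : ∀ i : Fin 4, ‖(√(1 / 2) : ℝ) • ee i‖ ^ 2 = 1 / 2 := fun i => by
    rw [norm_smul, norm_ee, mul_one, Real.norm_eq_abs, sq_abs, Real.sq_sqrt (by norm_num)]
  have hne : ∀ i j : Fin 4, i ≠ j → (√(1 / 2) : ℝ) • ee i ≠ (√(1 / 2) : ℝ) • ee j := by
    intro i j hij e
    have := congrArg (fun u : E4 => u i) e
    simp [ee, hij] at this
  obtain ⟨a, ha, ea⟩ := hon _ (hn 0)
  obtain ⟨b, hb, eb⟩ := hon _ (hn 1)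
  obtain ⟨c, hc', ec⟩ := hon _ (hn 2)
  have h3 : ∃ a ∈ L₀, ∃ b ∈ L₀, ∃ c ∈ L₀, a ≠ b ∧ a ≠ c ∧ b ≠ c :=
    ⟨a, ha, b, hb, c, hc', fun e => hne 0 1 (by decide) (by rw [← ea, ← eb, e]),
      fun e => hne 0 2 (by decide) (by rw [← ea, ← ec, e]),
      fun e => hne 1 2 (by decide) (by rw [← eb, ← ec, e])⟩
  choose σ hσ hσc using fun γ => core_side h0 hneg h3 (hconf γ) (hl γ)
  have hσ2 : ∀ γ, σ γ * σ γ = 1 := fun γ => by rcases hσ γ with e | e <;> rw [e] <;> norm_num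
  have hσa : ∀ γ, |σ γ| = 1 := fun γ => by rcases hσ γ with e | e <;> rw [e] <;> norm_num
  have hinv : ∀ γ s, h γ (h γ⁻¹ s) = s := fun γ s => by
    rw [← mul_apply_eq_comp, ← map_mul, mul_inv_cancel, map_one]; rfl
  have hσi : ∀ γ, σ γ⁻¹ = σ γ := by
    intro γ
    by_contra hne'
    have hb' := hσc γ _ (hσc γ⁻¹ b ⟨1, zero_le_one, b, hb, (one_smul _ _).symm⟩)
    rw [map_smul, hinv, smul_smul] at hb'
    have e : σ γ * σ γ⁻¹ = -1 := by
      rcases hσ γ with e | e <;> rcases hσ γ⁻¹ with e' | e' <;> simp_all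
    rw [e] at hb'
    obtain ⟨r, hr', t, ht, et⟩ := hb'
    have h4 : qS a t ≤ 0 := by
      by_cases e : a = t
      · rw [e, h0 t ht]
      · exact (hneg a ha t ht e).le
    have h5 := congrArg (qS a) et
    simp only [map_smul, smul_eq_mul] at h5
    have h6 := hneg a ha b hb fun e => hne 0 1 (by decide) (by rw [← ea, ← eb, e])
    nlinarith [mul_nonneg hr' (neg_nonneg.2 h4)]
  refine no_cone hF (fun γ => σ γ • h γ) (fun γ => σ γ • h γ⁻¹) N l hfin hN hsum (fun γ => ?_)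
    (fun γ => ?_) (fun γ u => ?_) (fun γ u => ?_) (fun γ s₁ s₂ s₃ s₄ => ?_) (K := 2 * K)
    (by positivity) fun u k => ?_
  · ext1 s
    simp only [mul_apply_eq_comp, smul_apply, map_smul, smul_smul, hσ2, hinv, one_smul]
    rfl
  · ext1 s
    have := hinv γ⁻¹ s
    rw [inv_inv] at this
    simp only [mul_apply_eq_comp, smul_apply, map_smul, smul_smul, hσ2, this, one_smul]
    rfl
  · rw [hr]
    exact hσc γ _ (hr ▸ mem_range_self u)
  · rw [hr, ← hσi]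
    exact hσc γ⁻¹ _ (hr ▸ mem_range_self u)
  · simp only [smul_apply]
    rw [Phi_smul, hP, show σ γ ^ 4 = (σ γ * σ γ) ^ 2 by ring, hσ2]; ring
  · obtain ⟨r, hr', s, hs, es⟩ : gr F u ∈ cone L₀ := hr ▸ mem_range_self u
    obtain ⟨η, e1, e2⟩ := hsh s hs k
    refine ⟨η, e1, ?_⟩
    have hu : u = r • s.fst := congrArg WithLp.fst es
    have h7 : r ≤ 2 * ‖u‖ := by
      have h8 := (half_of_null (h1 s hs) (h0 s hs)).1
      have h9 : 1 / 2 ≤ ‖s.fst‖ := by nlinarith [norm_nonneg s.fst]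
      rw [hu, norm_smul, Real.norm_of_nonneg hr']
      nlinarith
    have hp : 0 ≤ K / N η := (div_pos hK (hN η)).le
    simp only [smul_apply]
    rw [es, map_smul, norm_smul, norm_smul, Real.norm_eq_abs, hσa, one_mul,
      Real.norm_of_nonneg hr']
    calc r * ‖h η⁻¹ s‖ ≤ 2 * ‖u‖ * (K / N η) :=
          mul_le_mul h7 e2 (norm_nonneg _) (by positivity)
      _ = 2 * K / N η * ‖u‖ := by ring

theorem Act.false {Γ : Type*} [Group Γ] (A : Act Γ) : False := by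
  obtain ⟨D, hD⟩ := A.dyn
  have hL := A.pre D hD
  obtain ⟨L', e, he, hcl, hsub, hpm, hsg⟩ := hL.sign
  obtain ⟨K, hK, hsh⟩ := D.shadow
  have hcomp : IsCompact L' := (isCompact_sphere (0 : S) 1).of_isClosed_subset hcl
    fun s hs => by simpa using hL.norm s (hsub hs)
  have hne : ∀ s ∈ L', -s ∉ L' := by
    intro s hs hs'
    have h1 : s ≠ -s := fun e' => by
      have : (2 : ℝ) • s = 0 := by rw [two_smul]; nth_rewrite 2 [e']; simp
      have h2 := hL.norm s (hsub hs)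
      rw [(smul_eq_zero.1 this).resolve_left two_ne_zero, norm_zero] at h2
      exact zero_ne_one h2
    have := hsg s hs _ hs' h1
    simp [hL.null s (hsub hs)] at this
  have hhalf : ∀ s ∈ L', ‖s.fst‖ ^ 2 = 1 / 2 ∧ ‖s.snd‖ ^ 2 = 1 / 2 := fun s hs =>
    half_of_null (hL.norm s (hsub hs)) (hL.null s (hsub hs))
  have hcs : ∀ a b : E4, ‖a‖ ^ 2 = 1 / 2 → ‖b‖ ^ 2 = 1 / 2 → ⟪a, b⟫ ≤ 1 / 2 := fun a b ha hb => by
    nlinarith [real_inner_le_norm a b, sq_nonneg (‖a‖ - ‖b‖)]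
  have hfin : ∀ k, {γ | D.l γ = k}.Finite := fun k => (D.wl.fin k).subset fun γ hγ => le_of_eq hγ
  have hN : ∀ γ, 0 < ‖D.h γ‖ := fun γ => zero_lt_one.trans_le (D.one_le_norm γ)
  have hsum : Summable fun γ => (‖D.h γ‖ ^ 4)⁻¹ := by rw [hD]; exact A.summable
  have hP : ∀ γ s₁ s₂ s₃ s₄, Phi (D.h γ s₁) (D.h γ s₂) (D.h γ s₃) (D.h γ s₄) = Phi s₁ s₂ s₃ s₄ := by
    rw [hD]; exact fun γ => (A.lift γ).Phi
  have hl : ∀ γ, ∀ s ∈ L', D.h γ s ∈ cone L' ∨ -D.h γ s ∈ cone L' := by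
    intro γ s hs
    have h0 : D.h γ s ≠ 0 := fun e' => by
      have h2 := hL.norm s (hsub hs)
      rw [(D.conf γ).injective (e'.trans (map_zero _).symm), norm_zero] at h2
      exact zero_ne_one h2
    have h1 : ‖D.h γ s‖ ≠ 0 := norm_ne_zero_iff.2 h0
    refine (hpm _ (D.lim_inv (hsub hs) γ)).imp (fun h2 => ⟨_, norm_nonneg (D.h γ s), _, h2, ?_⟩)
      fun h2 => ⟨_, norm_nonneg (D.h γ s), _, h2, ?_⟩
    · rw [smul_inv_smul₀ h1]
    · rw [smul_neg, smul_inv_smul₀ h1]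
  rcases he with rfl | rfl
  · have hi : InjOn sndS L' := by
      intro s hs t ht e'
      by_contra hst
      have h1 := hsg s hs t ht hst
      have e2 : s.snd = t.snd := e'
      rw [one_mul, qS_apply, e2, real_inner_self_eq_norm_sq, (hhalf t ht).2] at h1
      linarith [hcs _ _ (hhalf s hs).1 (hhalf t ht).1]
    have hw : swp * swp = 1 := by ext1 s; simp
    let h' : Γ →* (S →L[ℝ] S) :=
      { toFun := fun γ => swp * D.h γ * swp
        map_one' := by rw [map_one, mul_one, hw]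
        map_mul' := fun a b => by
          rw [map_mul]
          ext1 s
          simp }
    have h'a : ∀ γ s, h' γ s = swp (D.h γ (swp s)) := fun _ _ => rfl
    have hsc : Conf swp := Or.inr qS_swp
    have hco : ∀ s ∈ cone L', swp s ∈ cone (swp '' L') := by
      rintro _ ⟨r, hr, s, hs, rfl⟩
      exact ⟨r, hr, _, mem_image_of_mem _ hs, map_smul _ _ _⟩
    refine core_neg h' _ D.l hfin hN hsum (fun γ => (hsc.mul (D.conf γ)).mul hsc)
      (fun γ s₁ s₂ s₃ s₄ => ?_) (hcomp.image swp.continuous) ?_ ?_ ?_ (fun u hu => ?_) ?_ hK ?_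
    · rw [h'a, h'a, h'a, h'a, Phi_swp, hP, Phi_swp]
    · rintro _ ⟨s, hs, rfl⟩
      rw [norm_swp, hL.norm s (hsub hs)]
    · rintro _ ⟨s, hs, rfl⟩
      rw [qS_swp, hL.null s (hsub hs), neg_zero]
    · rintro _ ⟨s, hs, rfl⟩ _ ⟨t, ht, rfl⟩ hst
      have := hsg s hs t ht fun e' => hst (by rw [e'])
      rw [qS_swp]; linarith
    · obtain ⟨s, hs, e'⟩ := hL.proj_onto hcl hsub hpm hne sndS hi (fun s hs => (hhalf s hs).2) u hu
      exact ⟨_, mem_image_of_mem _ hs, e'⟩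
    · rintro γ _ ⟨s, hs, rfl⟩
      rw [h'a, swp_swp, ← map_neg]
      exact (hl γ s hs).imp (hco _) (hco _)
    · rintro _ ⟨s, hs, rfl⟩ k
      obtain ⟨η, e1, e2⟩ := hsh s (hsub hs) k
      exact ⟨η, e1, by rwa [h'a, swp_swp, norm_swp]⟩
  · have hi : InjOn fstS L' := by
      intro s hs t ht e'
      by_contra hst
      have h1 := hsg s hs t ht hst
      have e2 : s.fst = t.fst := e'
      rw [qS_apply, e2, real_inner_self_eq_norm_sq, (hhalf t ht).1] at h1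
      linarith [hcs _ _ (hhalf s hs).2 (hhalf t ht).2]
    refine core_neg D.h _ D.l hfin hN hsum D.conf hP hcomp (fun s hs => hL.norm s (hsub hs))
      (fun s hs => hL.null s (hsub hs)) (fun s hs t ht hst => ?_)
      (hL.proj_onto hcl hsub hpm hne fstS hi fun s hs => (hhalf s hs).1) hl hK
      fun s hs => hsh s (hsub hs)
    linarith [hsg s hs t ht hst]

end H42
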