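import Pool.Agent.Lib.MP_320961_gt.Dyn3

/-! Every null vector kills a spinor of the limit set. -/

open scoped RealInnerProductSpace ENNReal NNReal
open Set Metric MeasureTheory Filter Topology

noncomputable section

namespace H42

variable {Γ : Type*} [Group Γ]

/-- What the topology needs to know about the limit set. -/
structure Pre (L : Set S) : Prop where
  closed : IsClosed L
  norm : ∀ s ∈ L, ‖s‖ = 1
  neg : ∀ s ∈ L, -s ∈ L
  null : ∀ s ∈ L, qS s s = 0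
  trans : ∀ s ∈ L, ∀ t ∈ L, t ≠ s → t ≠ -s → qS s t ≠ 0
  cover : ∀ p : E4, ‖p‖ = 1 → ∃ s ∈ L, cl (mkV p wI) s = 0

/-- `x n = mkV (n • p) (√(n² + 1) • wI)` has `qV = -1`; `y n = g (γ n)⁻¹ (x n)` has
`‖y n‖² ≤ R`. `l (γ n) → ∞` since `n ≤ ‖x n‖ ≤ d ^ l (γ n) √R` (`WordLen.norm_le` for `A.g`).
`cl (x n) (u) = ‖h‖⁻¹ • h (cl (y n) v)` has norm at most `2 √R`. Divide by `n`,
`Dyn.lim_cluster`, and `n⁻¹ • x n → mkV p wI`. -/
theorem Act.cover (A : Act Γ) (D : Dyn Γ) (hD : D.h = A.h) (p : E4) (hp : ‖p‖ = 1) :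
    ∃ s ∈ D.Lim, cl (mkV p wI) s = 0 := by
  obtain ⟨R, hR⟩ := A.cocomp
  obtain ⟨d, hd1, hd⟩ := D.wl.norm_le A.g
  let x : ℕ → V := fun n => mkV ((n : ℝ) • p) (Real.sqrt ((n : ℝ) ^ 2 + 1) • wI)
  have hs : ∀ n : ℕ, Real.sqrt ((n : ℝ) ^ 2 + 1) ^ 2 = (n : ℝ) ^ 2 + 1 := fun n =>
    Real.sq_sqrt (by positivity)
  have h1 : ∀ n, ‖(x n).fst‖ ^ 2 = (n : ℝ) ^ 2 := fun n => by
    simp only [x, mkV_fst, norm_smul, hp, mul_one, Real.norm_eq_abs, sq_abs]
  have h2 : ∀ n, ‖(x n).snd‖ ^ 2 = (n : ℝ) ^ 2 + 1 := fun n => by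
    simp only [x, mkV_snd, norm_smul, norm_wI, mul_one, Real.norm_eq_abs, sq_abs, hs]
  have hq : ∀ n, qV (x n) (x n) = -1 := fun n => by
    rw [qV_self, h1, h2]
    ring
  choose γ hγ using fun n => hR (x n) (by rw [hq]; norm_num)
  let y : ℕ → V := fun n => A.g (γ n)⁻¹ (x n)
  have hy : ∀ n, ‖y n‖ ≤ Real.sqrt R := fun n => by
    have e := hγ n
    rw [nn, (A.lift _).orth, hq, neg_neg, div_one] at e
    exact Real.le_sqrt_of_sq_le e
  have hxy : ∀ n, A.g (γ n) (y n) = x n := fun n => by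
    show (A.g (γ n) * A.g (γ n)⁻¹) (x n) = x n
    rw [← map_mul, mul_inv_cancel, map_one]
    rfl
  have hr : 0 ≤ Real.sqrt R := Real.sqrt_nonneg R
  have hn : ∀ n : ℕ, (n : ℝ) ≤ d ^ D.l (γ n) * Real.sqrt R := fun n => by
    have e1 : (n : ℝ) ≤ ‖x n‖ := by
      refine le_of_sq_le_sq ?_ (norm_nonneg _)
      rw [normV_sq, h1, h2]
      nlinarith [sq_nonneg (n : ℝ)]
    refine e1.trans ?_
    rw [← hxy]
    exact ((A.g (γ n)).le_opNorm _).trans
      (mul_le_mul (hd _) (hy n) (norm_nonneg _) (by positivity))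
  have hl : Tendsto (fun n => D.l (γ n)) atTop atTop := by
    refine tendsto_atTop.2 fun k => ?_
    obtain ⟨N, hN⟩ := exists_nat_gt (d ^ k * Real.sqrt R)
    filter_upwards [eventually_ge_atTop N] with n hnN
    by_contra hlt
    have e1 : d ^ D.l (γ n) ≤ d ^ k := pow_le_pow_right₀ hd1 (not_le.1 hlt).le
    have e2 : (N : ℝ) ≤ n := by exact_mod_cast hnN
    have e3 := mul_le_mul_of_nonneg_right e1 hr
    linarith [hn n]
  have hc : ∀ n, ‖cl (x n) (D.u (γ n))‖ ≤ 2 * Real.sqrt R := fun n => by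
    have G := D.gap (γ n)
    have h0 : 0 < ‖D.h (γ n)‖ := lt_of_lt_of_le one_pos (D.one_le_norm _)
    have e : D.h (γ n) (cl (y n) (D.v (γ n))) = ‖D.h (γ n)‖ • cl (x n) (D.u (γ n)) := by
      rw [← map_smul, ← G.top, hD, (A.lift _).eqv, hxy]
    have e2 := (D.h (γ n)).le_opNorm (cl (y n) (D.v (γ n)))
    rw [e, norm_smul, norm_norm] at e2
    have e3 := norm_cl_le (y n) (D.v (γ n))
    rw [G.hv, mul_one] at e3
    have e4 := le_of_mul_le_mul_left e2 h0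
    linarith [hy n]
  have hb : ∀ n : ℕ, (n : ℝ) * ‖cl (mkV p wI) (D.u (γ n))‖ ≤ 2 * Real.sqrt R + 1 := fun n => by
    have h0 : (0 : ℝ) ≤ n := Nat.cast_nonneg n
    have e : x n = (n : ℝ) • mkV p wI + mkV 0 ((Real.sqrt ((n : ℝ) ^ 2 + 1) - n) • wI) := by
      rw [mkV_smul, mkV_add, add_zero, ← add_smul, add_sub_cancel]
    have e1 : (n : ℝ) • cl (mkV p wI) (D.u (γ n)) = cl (x n) (D.u (γ n)) -
        cl (mkV 0 ((Real.sqrt ((n : ℝ) ^ 2 + 1) - n) • wI)) (D.u (γ n)) := by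
      rw [e, map_add, map_smul, ContinuousLinearMap.add_apply, ContinuousLinearMap.smul_apply,
        add_sub_cancel_right]
    have e2 : |Real.sqrt ((n : ℝ) ^ 2 + 1) - n| ≤ 1 := by
      have a1 : (n : ℝ) ≤ Real.sqrt ((n : ℝ) ^ 2 + 1) := Real.le_sqrt_of_sq_le (by linarith)
      have a2 : Real.sqrt ((n : ℝ) ^ 2 + 1) ≤ n + 1 :=
        Real.sqrt_le_iff.2 ⟨by linarith, by nlinarith⟩
      rw [abs_of_nonneg (by linarith)]
      linarith
    have e3 := norm_sub_le (cl (x n) (D.u (γ n)))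
      (cl (mkV 0 ((Real.sqrt ((n : ℝ) ^ 2 + 1) - n) • wI)) (D.u (γ n)))
    rw [← e1, norm_smul, Real.norm_eq_abs, abs_of_nonneg h0, norm_cl_w, norm_smul, norm_wI,
      (D.gap (γ n)).hu, Real.norm_eq_abs] at e3
    linarith [hc n]
  have h0 : Tendsto (fun n => cl (mkV p wI) (D.u (γ n))) atTop (𝓝 0) := by
    refine squeeze_zero_norm' ?_ (tendsto_const_div_atTop_nhds_zero_nat (2 * Real.sqrt R + 1))
    filter_upwards [eventually_gt_atTop 0] with n hn0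
    rw [le_div_iff₀ (by exact_mod_cast hn0), mul_comm]
    exact hb n
  obtain ⟨s, hsL, φ, hφ, hlim⟩ := D.lim_cluster γ hl
  exact ⟨s, hsL, tendsto_nhds_unique (((cl (mkV p wI)).continuous.tendsto s).comp hlim)
    (h0.comp hφ.tendsto_atTop)⟩

theorem Act.pre (A : Act Γ) (D : Dyn Γ) (hD : D.h = A.h) : Pre D.Lim :=
  ⟨D.lim_closed, fun _ => D.lim_norm, fun _ => D.lim_neg, fun _ => D.lim_null,
    fun _ hs _ ht => D.transverse hs ht, A.cover D hD⟩

end H42
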