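import Mathlib

/-! The space `V = R^(4,3)`, its spin module `S = R^(4,4)`, the Clifford product, the split Cayley
form, lifts, word lengths and the data of a proper cocompact action. -/

open scoped RealInnerProductSpace

noncomputable section

namespace H42

abbrev E4 := EuclideanSpace ℝ (Fin 4)
abbrev E3 := EuclideanSpace ℝ (Fin 3)
abbrev V := WithLp 2 (E4 × E3)
abbrev S := WithLp 2 (E4 × E4)

def mkV (p : E4) (w : E3) : V := WithLp.toLp 2 (p, w)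
def mkS (a b : E4) : S := WithLp.toLp 2 (a, b)

@[simp] theorem mkV_fst (p : E4) (w : E3) : (mkV p w).fst = p := rfl
@[simp] theorem mkV_snd (p : E4) (w : E3) : (mkV p w).snd = w := rfl
@[simp] theorem mkS_fst (a b : E4) : (mkS a b).fst = a := rfl
@[simp] theorem mkS_snd (a b : E4) : (mkS a b).snd = b := rfl
@[simp] theorem mkV_eta (x : V) : mkV x.fst x.snd = x := rfl
@[simp] theorem mkS_eta (s : S) : mkS s.fst s.snd = s := rfl

theorem V_ext {x y : V} (h1 : x.fst = y.fst) (h2 : x.snd = y.snd) : x = y := by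
  rw [← mkV_eta x, ← mkV_eta y, h1, h2]

theorem S_ext {s t : S} (h1 : s.fst = t.fst) (h2 : s.snd = t.snd) : s = t := by
  rw [← mkS_eta s, ← mkS_eta t, h1, h2]

theorem inner4 (a b : E4) : ⟪a, b⟫ = a 0 * b 0 + a 1 * b 1 + a 2 * b 2 + a 3 * b 3 := by
  simp [PiLp.inner_apply, Fin.sum_univ_four]; ring

theorem inner3 (a b : E3) : ⟪a, b⟫ = a 0 * b 0 + a 1 * b 1 + a 2 * b 2 := by
  simp [PiLp.inner_apply, Fin.sum_univ_three]; ring

theorem innerV (x y : V) : ⟪x, y⟫ = ⟪x.fst, y.fst⟫ + ⟪x.snd, y.snd⟫ := rfl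
theorem innerS (s t : S) : ⟪s, t⟫ = ⟪s.fst, t.fst⟫ + ⟪s.snd, t.snd⟫ := rfl
theorem normV_sq (x : V) : ‖x‖ ^ 2 = ‖x.fst‖ ^ 2 + ‖x.snd‖ ^ 2 := WithLp.prod_norm_sq_eq_of_L2 x
theorem normS_sq (s : S) : ‖s‖ ^ 2 = ‖s.fst‖ ^ 2 + ‖s.snd‖ ^ 2 := WithLp.prod_norm_sq_eq_of_L2 s

/-- The linear map `(u, v) ↦ mkV (A u) (B u)`. -/
def prV {E : Type*} [NormedAddCommGroup E] [NormedSpace ℝ E] (A : E →L[ℝ] E4) (B : E →L[ℝ] E3) :
    E →L[ℝ] V :=
  (WithLp.prodContinuousLinearEquiv 2 ℝ E4 E3).symm.toContinuousLinearMap.comp (A.prod B)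

/-- The linear map `u ↦ mkS (A u) (B u)`. -/
def prS {E : Type*} [NormedAddCommGroup E] [NormedSpace ℝ E] (A B : E →L[ℝ] E4) : E →L[ℝ] S :=
  (WithLp.prodContinuousLinearEquiv 2 ℝ E4 E4).symm.toContinuousLinearMap.comp (A.prod B)

@[simp] theorem prV_apply {E : Type*} [NormedAddCommGroup E] [NormedSpace ℝ E] (A : E →L[ℝ] E4)
    (B : E →L[ℝ] E3) (u : E) : prV A B u = mkV (A u) (B u) := rfl

@[simp] theorem prS_apply {E : Type*} [NormedAddCommGroup E] [NormedSpace ℝ E] (A B : E →L[ℝ] E4)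
    (u : E) : prS A B u = mkS (A u) (B u) := rfl

def fstV : V →L[ℝ] E4 := WithLp.fstL 2 ℝ E4 E3
def sndV : V →L[ℝ] E3 := WithLp.sndL 2 ℝ E4 E3
def fstS : S →L[ℝ] E4 := WithLp.fstL 2 ℝ E4 E4
def sndS : S →L[ℝ] E4 := WithLp.sndL 2 ℝ E4 E4

@[simp] theorem fstV_apply (x : V) : fstV x = x.fst := rfl
@[simp] theorem sndV_apply (x : V) : sndV x = x.snd := rfl
@[simp] theorem fstS_apply (s : S) : fstS s = s.fst := rfl
@[simp] theorem sndS_apply (s : S) : sndS s = s.snd := rfl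

/-- The Cartan involutions and the swap. -/
def thV : V →L[ℝ] V := prV fstV (-sndV)
def thS : S →L[ℝ] S := prS fstS (-sndS)
def swp : S →L[ℝ] S := prS sndS fstS

theorem thV_apply (x : V) : thV x = mkV x.fst (-x.snd) := rfl
theorem thS_apply (s : S) : thS s = mkS s.fst (-s.snd) := rfl
theorem swp_apply (s : S) : swp s = mkS s.snd s.fst := rfl

/-- The forms of signature `(4,3)` and `(4,4)`. -/
def qV : V →ₗ[ℝ] V →ₗ[ℝ] ℝ := (innerₗ V).comp thV.toLinearMap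
def qS : S →ₗ[ℝ] S →ₗ[ℝ] ℝ := (innerₗ S).comp thS.toLinearMap

theorem qV_eq (x y : V) : qV x y = ⟪thV x, y⟫ := rfl
theorem qS_eq (s t : S) : qS s t = ⟪thS s, t⟫ := rfl

theorem qV_apply (x y : V) : qV x y = ⟪x.fst, y.fst⟫ - ⟪x.snd, y.snd⟫ := by
  rw [qV_eq, innerV, thV_apply]; simp [sub_eq_add_neg]

theorem qS_apply (s t : S) : qS s t = ⟪s.fst, t.fst⟫ - ⟪s.snd, t.snd⟫ := by
  rw [qS_eq, innerS, thS_apply]; simp [sub_eq_add_neg]

theorem qV_comm (x y : V) : qV x y = qV y x := by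
  rw [qV_apply, qV_apply, real_inner_comm x.fst, real_inner_comm x.snd]

theorem qS_comm (s t : S) : qS s t = qS t s := by
  rw [qS_apply, qS_apply, real_inner_comm s.fst, real_inner_comm s.snd]

theorem qV_self (x : V) : qV x x = ‖x.fst‖ ^ 2 - ‖x.snd‖ ^ 2 := by
  rw [qV_apply, real_inner_self_eq_norm_sq, real_inner_self_eq_norm_sq]

theorem qS_self (s : S) : qS s s = ‖s.fst‖ ^ 2 - ‖s.snd‖ ^ 2 := by
  rw [qS_apply, real_inner_self_eq_norm_sq, real_inner_self_eq_norm_sq]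

@[simp] theorem thV_thV (x : V) : thV (thV x) = x := by simp [thV_apply]
@[simp] theorem thS_thS (s : S) : thS (thS s) = s := by simp [thS_apply]
@[simp] theorem swp_swp (s : S) : swp (swp s) = s := by simp [swp_apply]

@[simp] theorem norm_thV (x : V) : ‖thV x‖ = ‖x‖ := by
  rw [← sq_eq_sq₀ (norm_nonneg _) (norm_nonneg _), normV_sq, normV_sq, thV_apply]; simp

@[simp] theorem norm_thS (s : S) : ‖thS s‖ = ‖s‖ := by
  rw [← sq_eq_sq₀ (norm_nonneg _) (norm_nonneg _), normS_sq, normS_sq, thS_apply]; simp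

@[simp] theorem norm_swp (s : S) : ‖swp s‖ = ‖s‖ := by
  rw [← sq_eq_sq₀ (norm_nonneg _) (norm_nonneg _), normS_sq, normS_sq, swp_apply]; simp [add_comm]

theorem qV_thV (x y : V) : qV (thV x) y = ⟪x, y⟫ := by rw [qV_eq, thV_thV]
theorem qS_thS (s t : S) : qS (thS s) t = ⟪s, t⟫ := by rw [qS_eq, thS_thS]

theorem qS_swp (s t : S) : qS (swp s) (swp t) = -qS s t := by
  simp [qS_apply, swp_apply]

theorem abs_qV_le (x y : V) : |qV x y| ≤ ‖x‖ * ‖y‖ := by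
  rw [qV_eq, ← norm_thV x]; exact abs_real_inner_le_norm _ _

theorem abs_qS_le (s t : S) : |qS s t| ≤ ‖s‖ * ‖t‖ := by
  rw [qS_eq, ← norm_thS s]; exact abs_real_inner_le_norm _ _

theorem qV_nondeg {x y : V} (h : ∀ z, qV x z = qV y z) : x = y := by
  have : thV x = thV y := ext_inner_right ℝ h
  rw [← thV_thV x, this, thV_thV]

theorem qS_nondeg {s t : S} (h : ∀ z, qS s z = qS t z) : s = t := by
  have : thS s = thS t := ext_inner_right ℝ h
  rw [← thS_thS s, this, thS_thS]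

theorem continuous_qV {X : Type*} [TopologicalSpace X] {f g : X → V} (hf : Continuous f)
    (hg : Continuous g) : Continuous fun x => qV (f x) (g x) :=
  (thV.continuous.comp hf).inner hg

theorem continuous_qS {X : Type*} [TopologicalSpace X] {f g : X → S} (hf : Continuous f)
    (hg : Continuous g) : Continuous fun x => qS (f x) (g x) :=
  (thS.continuous.comp hf).inner hg

/-- Quaternion product, conjugation, pure quaternions, in coordinates. -/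
def qm (a b : E4) : E4 :=
  !₂[a 0 * b 0 - a 1 * b 1 - a 2 * b 2 - a 3 * b 3, a 0 * b 1 + a 1 * b 0 + a 2 * b 3 - a 3 * b 2,
    a 0 * b 2 - a 1 * b 3 + a 2 * b 0 + a 3 * b 1, a 0 * b 3 + a 1 * b 2 - a 2 * b 1 + a 3 * b 0]

def cj (a : E4) : E4 := !₂[a 0, -a 1, -a 2, -a 3]
def im3 (w : E3) : E4 := !₂[0, w 0, w 1, w 2]
def pu (a : E4) : E3 := !₂[a 1, a 2, a 3]

/-- `(p,w).(a,b) = (w a + b p, a conj(p) - w b)`. -/
def cl0 (x : V) (s : S) : S :=
  mkS (qm (im3 x.snd) s.fst + qm s.snd x.fst) (qm s.fst (cj x.fst) - qm (im3 x.snd) s.snd)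

def clL : V →ₗ[ℝ] S →ₗ[ℝ] S :=
  LinearMap.mk₂ ℝ cl0
    (fun x y s => by
      refine S_ext ?_ ?_ <;> ext i <;> fin_cases i <;> simp [cl0, qm, cj, im3] <;> ring)
    (fun c x s => by
      refine S_ext ?_ ?_ <;> ext i <;> fin_cases i <;> simp [cl0, qm, cj, im3] <;> ring)
    (fun x s t => by
      refine S_ext ?_ ?_ <;> ext i <;> fin_cases i <;> simp [cl0, qm, cj, im3] <;> ring)
    (fun c x s => by
      refine S_ext ?_ ?_ <;> ext i <;> fin_cases i <;> simp [cl0, qm, cj, im3] <;> ring)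

/-- The Clifford product. -/
def cl : V →ₗ[ℝ] S →L[ℝ] S :=
  (LinearMap.toContinuousLinearMap : (S →ₗ[ℝ] S) ≃ₗ[ℝ] S →L[ℝ] S).toLinearMap ∘ₗ clL

theorem cl_apply (x : V) (s : S) : cl x s = cl0 x s := rfl

/-- The `V`-valued skew form with `qV (tau s t) x = qS (cl x s) t`. -/
def tau0 (s t : S) : V :=
  mkV (qm (cj s.snd) t.fst - qm (cj t.snd) s.fst)
    (-pu (qm t.fst (cj s.fst) + qm t.snd (cj s.snd)))

def tau : S →ₗ[ℝ] S →ₗ[ℝ] V :=
  LinearMap.mk₂ ℝ tau0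
    (fun x y s => by
      refine V_ext ?_ ?_ <;> ext i <;> fin_cases i <;> simp [tau0, qm, cj, pu] <;> ring)
    (fun c x s => by
      refine V_ext ?_ ?_ <;> ext i <;> fin_cases i <;> simp [tau0, qm, cj, pu] <;> ring)
    (fun x s t => by
      refine V_ext ?_ ?_ <;> ext i <;> fin_cases i <;> simp [tau0, qm, cj, pu] <;> ring)
    (fun c x s => by
      refine V_ext ?_ ?_ <;> ext i <;> fin_cases i <;> simp [tau0, qm, cj, pu] <;> ring)

theorem tau_apply (s t : S) : tau s t = tau0 s t := rfl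

/-- The split Cayley form. -/
def Phi (s₁ s₂ s₃ s₄ : S) : ℝ :=
  -(qV (tau s₁ s₂) (tau s₃ s₄) - qV (tau s₁ s₃) (tau s₂ s₄) + qV (tau s₁ s₄) (tau s₂ s₃)) / 3

/-- The standard basis of `E4`. -/
def ee (i : Fin 4) : E4 := EuclideanSpace.single i 1

/-- The value of the Cayley form on the image of the standard basis. -/
def PhiL (T : E4 →L[ℝ] S) : ℝ := Phi (T (ee 0)) (T (ee 1)) (T (ee 2)) (T (ee 3))

/-- The fixed unit vector `i` of the negative part. -/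
def wI : E3 := EuclideanSpace.single 0 1

/-- `n(y) = |y|^2 / (-q(y))`. -/
def nn (y : V) : ℝ := ‖y‖ ^ 2 / (-qV y y)

def Orth (g : V →L[ℝ] V) : Prop := ∀ x y, qV (g x) (g y) = qV x y

def Conf (h : S →L[ℝ] S) : Prop :=
  (∀ s t, qS (h s) (h t) = qS s t) ∨ (∀ s t, qS (h s) (h t) = -qS s t)

/-- `h` covers `g`. -/
structure Lift (g : V →L[ℝ] V) (h : S →L[ℝ] S) : Prop where
  orth : Orth g
  eqv : ∀ x s, h (cl x s) = cl (g x) (h s)
  conf : Conf h

/-- `h` is close to the rank one map `s ↦ ‖h‖ ⟪v, s⟫ u`. -/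
structure Gap (h : S →L[ℝ] S) (u v : S) (η : ℝ) : Prop where
  hu : ‖u‖ = 1
  hv : ‖v‖ = 1
  top : h v = ‖h‖ • u
  near : ∀ s, ‖h s - (‖h‖ * ⟪v, s⟫) • u‖ ≤ η * ‖h‖ * ‖s‖

/-- A word length with finite balls. -/
structure WordLen {Γ : Type*} [Group Γ] (l : Γ → ℕ) : Prop where
  one : l 1 = 0
  eq_one : ∀ γ, l γ = 0 → γ = 1
  inv : ∀ γ, l γ⁻¹ = l γ
  mul : ∀ γ η, l (γ * η) ≤ l γ + l η
  step : ∀ γ k, l γ = k + 1 → ∃ η σ, γ = η * σ ∧ l η = k ∧ l σ = 1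
  fin : ∀ k, {γ | l γ ≤ k}.Finite

/-- A proper cocompact action on the negative cone modulo scaling, with its spin lift. -/
structure Act (Γ : Type*) [Group Γ] where
  g : Γ →* (V →L[ℝ] V)
  h : Γ →* (S →L[ℝ] S)
  lift : ∀ γ, Lift (g γ) (h γ)
  proper : ∀ R : ℝ, {γ | ∃ y, qV y y < 0 ∧ nn y ≤ R ∧ nn (g γ y) ≤ R}.Finite
  cocomp : ∃ R : ℝ, ∀ x, qV x x < 0 → ∃ γ, nn (g γ⁻¹ x) ≤ R

/-- A conformal representation on `S` with a uniform rank one gap. -/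
structure Dyn (Γ : Type*) [Group Γ] where
  l : Γ → ℕ
  wl : WordLen l
  h : Γ →* (S →L[ℝ] S)
  conf : ∀ γ, Conf (h γ)
  u : Γ → S
  v : Γ → S
  c : ℝ
  C : ℝ
  c_pos : 0 < c
  C_pos : 0 < C
  gap : ∀ γ, Gap (h γ) (u γ) (v γ) (C * Real.exp (-(c * l γ)))

/-- Distance of two unit vectors up to sign. -/
def pd (s t : S) : ℝ := min ‖s - t‖ ‖s + t‖

/-- The limit set. -/
def Dyn.Lim {Γ : Type*} [Group Γ] (D : Dyn Γ) : Set S :=
  {s | ∀ ε > 0, ∀ n, ∃ γ, n ≤ D.l γ ∧ pd s (D.u γ) < ε}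

/-- The boost of angle `t` in the plane of the unit vectors `p`, `w`. -/
def bst (p : E4) (w : E3) (t : ℝ) : V →L[ℝ] V :=
  1 + ((Real.cosh t - 1) • ((innerSL ℝ p).comp fstV) + Real.sinh t • ((innerSL ℝ w).comp sndV)).smulRight (mkV p 0)
    + (Real.sinh t • ((innerSL ℝ p).comp fstV) + (Real.cosh t - 1) • ((innerSL ℝ w).comp sndV)).smulRight (mkV 0 w)

theorem bst_apply (p : E4) (w : E3) (t : ℝ) (x : V) : bst p w t x =
    x + ((Real.cosh t - 1) * ⟪p, x.fst⟫ + Real.sinh t * ⟪w, x.snd⟫) • mkV p 0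
      + (Real.sinh t * ⟪p, x.fst⟫ + (Real.cosh t - 1) * ⟪w, x.snd⟫) • mkV 0 w := by
  simp [bst]

/-- The symmetric involution of `S` attached to the plane of `p`, `w`. -/
def JJ (p : E4) (w : E3) : S →L[ℝ] S := cl (mkV 0 w) * cl (mkV p 0)

/-- The lift of the boost. -/
def bstS (p : E4) (w : E3) (t : ℝ) : S →L[ℝ] S :=
  Real.cosh (t / 2) • 1 + Real.sinh (t / 2) • JJ p w

/-- The product of the three boosts of a pair of frames. -/
def bst3 (p : Fin 4 → E4) (w : Fin 3 → E3) (m : Fin 3 → ℝ) : V →L[ℝ] V :=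
  bst (p 0) (w 0) (m 0) * bst (p 1) (w 1) (m 1) * bst (p 2) (w 2) (m 2)

def bstS3 (p : Fin 4 → E4) (w : Fin 3 → E3) (m : Fin 3 → ℝ) : S →L[ℝ] S :=
  bstS (p 0) (w 0) (m 0) * bstS (p 1) (w 1) (m 1) * bstS (p 2) (w 2) (m 2)

/-- The graph of `F`. -/
def gr (F : E4 → E4) (u : E4) : S := mkS u (F u)

/-- The density of the Cayley form on the graph of `F`. -/
def rho (F : E4 → E4) (u : E4) : ℝ := PhiL (fderiv ℝ (gr F) u)

/-- A cone over a strictly negative sphere. -/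
structure Cone (F : E4 → E4) : Prop where
  lip : LipschitzWith 1 F
  hom : ∀ t : ℝ, 0 ≤ t → ∀ u, F (t • u) = t • F u
  half : ∃ e : E4, ‖e‖ = 1 ∧ ∃ c > 0, ∀ u, c * ‖F u‖ ≤ ⟪e, F u⟫
  norm : ∀ u, ‖F u‖ = ‖u‖

end H42
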