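import Pool.Agent.Lib.MP_320961_gt.Alg
import Pool.Agent.Lib.MP_320961_gt.Word

/-! Supermultiplicativity of the norm along geodesics. -/

open scoped RealInnerProductSpace ENNReal NNReal
open Set Metric MeasureTheory Filter Topology

noncomputable section

namespace H42

variable {Γ : Type*} [Group Γ]

/-- `‖h⁻¹ t‖² = qS (thS (h⁻¹ t)) (h⁻¹ t) = ± qS (h (thS (h⁻¹ t))) t`. -/
theorem Dyn.norm_inv (D : Dyn Γ) (γ : Γ) : ‖D.h γ⁻¹‖ = ‖D.h γ‖ := by
  have key : ∀ γ : Γ, ‖D.h γ⁻¹‖ ≤ ‖D.h γ‖ := fun γ => by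
    refine ContinuousLinearMap.opNorm_le_bound _ (norm_nonneg _) fun t => ?_
    set s := D.h γ⁻¹ t with hs
    have e : D.h γ s = t := by
      show (D.h γ * D.h γ⁻¹) t = t
      rw [← map_mul, mul_inv_cancel, map_one]
      rfl
    have h1 := (D.conf γ).abs (thS s) s
    rw [qS_thS, real_inner_self_eq_norm_sq, abs_of_nonneg (sq_nonneg ‖s‖), e] at h1
    have h2 := abs_qS_le (D.h γ (thS s)) t
    have h3 := (D.h γ).le_opNorm (thS s)
    rw [norm_thS] at h3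
    have h4 : ‖s‖ * ‖s‖ ≤ ‖s‖ * (‖D.h γ‖ * ‖t‖) := by
      have := mul_le_mul_of_nonneg_right h3 (norm_nonneg t)
      nlinarith
    rcases (norm_nonneg s).eq_or_lt with h0 | h0
    · rw [← h0]; positivity
    · exact le_of_mul_le_mul_left h4 h0
  refine le_antisymm (key γ) ?_
  simpa using key γ⁻¹

theorem Dyn.one_le_norm (D : Dyn Γ) (γ : Γ) : 1 ≤ ‖D.h γ‖ := by
  have e : D.h γ (D.h γ⁻¹ (D.u γ)) = D.u γ := by
    show (D.h γ * D.h γ⁻¹) _ = _
    rw [← map_mul, mul_inv_cancel, map_one]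
    rfl
  have h1 := (D.h γ).le_opNorm (D.h γ⁻¹ (D.u γ))
  have h2 := (D.h γ⁻¹).le_opNorm (D.u γ)
  rw [e, (D.gap γ).hu] at h1
  rw [D.norm_inv, (D.gap γ).hu] at h2
  have h0 := norm_nonneg (D.h γ)
  nlinarith [mul_le_mul_of_nonneg_left h2 h0]

/-- With `N = ‖B‖`, `α = ‖A u‖`, `r = ‖(innerSL ℝ v).comp C‖`: `‖A B‖ ≤ N (α + η d)`,
`‖B C‖ ≤ N (r + η d)`, `‖A B C‖ ≥ N (α r - η d²)`, `N ≤ d² ‖A B C‖`. -/
theorem Gap.three {A A' B C C' : S →L[ℝ] S} {u v : S} {η d : ℝ} (G : Gap B u v η) (hη : 0 ≤ η)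
    (hA : A' * A = 1) (hC : C * C' = 1) (h1 : ‖A‖ ≤ d) (h2 : ‖A'‖ ≤ d) (h3 : ‖C‖ ≤ d)
    (h4 : ‖C'‖ ≤ d) :
    ‖A * B‖ * ‖B * C‖ ≤ ‖A * B * C‖ * ‖B‖ * (1 + d ^ 4 * (3 * η + η ^ 2)) := by
  let N := ‖B‖
  let α := ‖A u‖
  let f : S →L[ℝ] ℝ := (innerSL ℝ v).comp C
  let r := ‖f‖
  let M := ‖A * B * C‖
  have N0 : 0 ≤ N := norm_nonneg _
  have α0 : 0 ≤ α := norm_nonneg _
  have r0 : 0 ≤ r := norm_nonneg _
  have M0 : 0 ≤ M := norm_nonneg _
  have d0 : 0 ≤ d := (norm_nonneg _).trans h1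
  have αd : α ≤ d := (A.le_of_opNorm_le h1 u).trans (by rw [G.hu, mul_one])
  have iv : ∀ s, |⟪v, s⟫| ≤ ‖s‖ := fun s => by simpa [G.hv] using abs_real_inner_le_norm v s
  have Cd : ∀ s, ‖C s‖ ≤ d * ‖s‖ := fun s => C.le_of_opNorm_le h3 s
  have rd : r ≤ d := ContinuousLinearMap.opNorm_le_bound _ d0 fun s => (iv _).trans (Cd s)
  have nr : ∀ s, ‖A (B s) - (N * ⟪v, s⟫) • A u‖ ≤ d * (η * N * ‖s‖) := fun s => by
    rw [← map_smul, ← map_sub]
    exact (A.le_of_opNorm_le h1 _).trans (mul_le_mul_of_nonneg_left (G.near s) d0)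
  have ns : ∀ s, ‖(N * ⟪v, s⟫) • A u‖ = N * |⟪v, s⟫| * α := fun s => by
    rw [norm_smul, Real.norm_eq_abs, abs_mul, abs_of_nonneg N0]
  have a1 : ‖A * B‖ ≤ N * (α + η * d) :=
    ContinuousLinearMap.opNorm_le_bound _ (by positivity) fun s => by
      have h5 := norm_le_insert' (A (B s)) ((N * ⟪v, s⟫) • A u)
      have h6 := mul_le_mul_of_nonneg_left (iv s) (mul_nonneg N0 α0)
      rw [ns] at h5
      have := nr s
      show ‖A (B s)‖ ≤ _
      linarith
  have a2 : ‖B * C‖ ≤ N * (r + η * d) :=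
    ContinuousLinearMap.opNorm_le_bound _ (by positivity) fun s => by
      have h5 := norm_le_insert' (B (C s)) ((N * ⟪v, C s⟫) • u)
      rw [norm_smul, G.hu, Real.norm_eq_abs, abs_mul, abs_of_nonneg N0] at h5
      have h6 : |⟪v, C s⟫| ≤ r * ‖s‖ := f.le_opNorm s
      have h7 := G.near (C s)
      have h8 := mul_le_mul_of_nonneg_left (Cd s) (mul_nonneg hη N0)
      have h9 := mul_le_mul_of_nonneg_left h6 N0
      show ‖B (C s)‖ ≤ _
      linarith
  have a3 : N * α * r ≤ M + η * N * d ^ 2 := by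
    have : ‖(N * α) • f‖ ≤ M + η * N * d ^ 2 :=
      ContinuousLinearMap.opNorm_le_bound _ (by positivity) fun s => by
        have h5 := norm_le_insert (A (B (C s))) ((N * ⟪v, C s⟫) • A u)
        rw [ns] at h5
        have h6 : ‖A (B (C s))‖ ≤ M * ‖s‖ := (A * B * C).le_opNorm s
        have h7 := nr (C s)
        have h8 := mul_le_mul_of_nonneg_left (Cd s) (mul_nonneg d0 (mul_nonneg hη N0))
        show ‖(N * α) * ⟪v, C s⟫‖ ≤ _
        rw [norm_mul, Real.norm_of_nonneg (mul_nonneg N0 α0), Real.norm_eq_abs]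
        linarith
    rwa [norm_smul, Real.norm_of_nonneg (mul_nonneg N0 α0)] at this
  have a4 : N ≤ d * M * d := by
    have e : B = A' * (A * B * C) * C' := by
      rw [← mul_assoc, ← mul_assoc, hA, one_mul, mul_assoc, hC, mul_one]
    refine (congrArg norm e).le.trans <| (norm_mul_le _ _).trans (mul_le_mul ((norm_mul_le _ _).trans ?_) h4 (norm_nonneg _)
      (by positivity))
    exact mul_le_mul_of_nonneg_right h2 M0
  have b1 : N * (N * α * r) ≤ N * (M + η * N * d ^ 2) := mul_le_mul_of_nonneg_left a3 N0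
  have b2 : N * N * (η * d) * (α + r) ≤ N * N * (η * d) * (d + d) :=
    mul_le_mul_of_nonneg_left (add_le_add αd rd) (by positivity)
  have b3 : N * d ^ 2 * (3 * η + η ^ 2) * N ≤ N * d ^ 2 * (3 * η + η ^ 2) * (d * M * d) :=
    mul_le_mul_of_nonneg_left a4 (by positivity)
  calc ‖A * B‖ * ‖B * C‖ ≤ N * (α + η * d) * (N * (r + η * d)) :=
        mul_le_mul a1 a2 (norm_nonneg _) (by positivity)
    _ ≤ M * N * (1 + d ^ 4 * (3 * η + η ^ 2)) := by linarith

theorem dyn1_two {l : Γ → ℕ} (W : WordLen l) {a : Γ → ℝ} {E q : ℝ}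
    (H : ∀ σ μ τ, l σ = 1 → l τ = 1 →
      a (σ * μ) + a (μ * τ) ≤ a (σ * μ * τ) + a μ + E * (1 - q) * q ^ l μ)
    {τ β : Γ} (hτ : l τ = 1) (n : ℕ) : ∀ α, l α = n → l (α * β * τ) = n + l β + 1 →
      a (α * β) + a (β * τ) ≤ a (α * β * τ) + a β + E * (q ^ l β - q ^ (l β + n)) := by
  induction n with
  | zero =>
    intro α h0 _
    rw [W.eq_one α h0, one_mul]
    simp [add_comm]
  | succ n ih =>
    intro α h0 h1
    obtain ⟨σ, α', rfl, hσ, hα⟩ := W.step_left α n h0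
    have e1 := W.mul σ (α' * β * τ)
    have e2 := W.mul (α' * β) τ
    have e3 := W.mul α' β
    rw [mul_assoc σ, mul_assoc σ] at h1
    have h2 := ih α' hα (by omega)
    have h3 := H σ (α' * β) τ hσ hτ
    rw [show l (α' * β) = l β + n by omega] at h3
    rw [mul_assoc σ α' β, ← add_assoc (l β), pow_succ]
    linarith

theorem dyn1_one {l : Γ → ℕ} (W : WordLen l) {a : Γ → ℝ} {E q : ℝ} (hE : 0 ≤ E) (h0 : 0 ≤ q)
    (h1 : q ≤ 1) (H : ∀ σ μ τ, l σ = 1 → l τ = 1 →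
      a (σ * μ) + a (μ * τ) ≤ a (σ * μ * τ) + a μ + E * (1 - q) * (1 - q) * q ^ l μ)
    (α : Γ) (m : ℕ) : ∀ β, l β = m → l (α * β) = l α + m →
      a α + a β ≤ a (α * β) + a 1 + E * (1 - q ^ m) := by
  induction m with
  | zero =>
    intro β h _
    rw [W.eq_one β h, mul_one]
    simp
  | succ m ih =>
    intro β h h2
    obtain ⟨β', τ, rfl, hβ, hτ⟩ := W.step β m h
    rw [← mul_assoc] at h2
    have e2 := W.mul (α * β') τ
    have e3 := W.mul α β'
    have h3 := ih β' hβ (by omega)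
    have h4 := dyn1_two W H hτ (l α) α rfl (by omega : l (α * β' * τ) = l α + l β' + 1)
    have h5 : 0 ≤ E * (1 - q) * q ^ (l β' + l α) := by
      have := sub_nonneg.2 h1
      positivity
    rw [hβ] at h4 h5
    rw [← mul_assoc, pow_succ]
    linarith

/-- `a γ = log ‖h γ‖`, `e k = d⁴ (3 + C) C exp (-c k)`. For a letter `τ` and
`l (α β τ) = l α + l β + 1`, induction on `l α` (`WordLen.step_left`) gives
`a (α β τ) - a (α β) - a (β τ) + a β ≥ -∑_{i < l α} e (i + l β)`; then induction on `l β`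
(`WordLen.step`); the double geometric sum is bounded. -/
theorem Dyn.supermul (D : Dyn Γ) : ∃ K > 0, ∀ α β, D.l (α * β) = D.l α + D.l β →
    ‖D.h α‖ * ‖D.h β‖ ≤ K * ‖D.h (α * β)‖ := by
  obtain ⟨d, hd, hl⟩ := D.wl.norm_le D.h
  set q := Real.exp (-D.c) with hq
  have q0 : 0 < q := Real.exp_pos _
  have q1 : 0 < 1 - q := sub_pos.2 (Real.exp_lt_one_iff.2 (neg_neg_of_pos D.c_pos))
  have C0 := D.C_pos
  have pos : ∀ γ, 0 < ‖D.h γ‖ := fun γ => one_pos.trans_le (D.one_le_norm γ)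
  set E := d ^ 4 * ((3 + D.C) * D.C) / ((1 - q) * (1 - q)) with hE
  have E0 : 0 ≤ E := by positivity
  have key := dyn1_one D.wl (a := fun γ => Real.log ‖D.h γ‖) E0 q0.le (by linarith)
    fun σ μ τ hσ hτ => by
      have G := D.gap μ
      rw [show -(D.c * D.l μ) = D.l μ * -D.c by ring, Real.exp_nat_mul, ← hq] at G
      have hp : 0 < q ^ D.l μ := by positivity
      have hp1 : q ^ D.l μ ≤ 1 := pow_le_one₀ q0.le (by linarith)
      have b : ∀ γ, D.l γ = 1 → ‖D.h γ‖ ≤ d := fun γ h => by simpa [h] using hl γ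
      have h3 := G.three (A := D.h σ) (A' := D.h σ⁻¹) (C := D.h τ) (C' := D.h τ⁻¹) (by positivity)
        (by rw [← map_mul, inv_mul_cancel, map_one]) (by rw [← map_mul, mul_inv_cancel, map_one])
        (b _ hσ) (b _ (by rw [D.wl.inv, hσ])) (b _ hτ) (b _ (by rw [D.wl.inv, hτ]))
      simp only [← map_mul] at h3
      have h4 := Real.log_le_log (mul_pos (pos _) (pos _)) h3
      rw [Real.log_mul (pos _).ne' (pos _).ne', Real.log_mul (mul_pos (pos _) (pos _)).ne'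
        (by positivity), Real.log_mul (pos _).ne' (pos _).ne'] at h4
      have h5 := Real.log_le_sub_one_of_pos (x := 1 + d ^ 4 *
        (3 * (D.C * q ^ D.l μ) + (D.C * q ^ D.l μ) ^ 2)) (by positivity)
      have h6 : E * (1 - q) * (1 - q) = d ^ 4 * ((3 + D.C) * D.C) := by
        rw [hE]; field_simp
      have h7 : d ^ 4 * (D.C * D.C * q ^ D.l μ) * q ^ D.l μ ≤ d ^ 4 * (D.C * D.C * q ^ D.l μ) * 1 :=
        mul_le_mul_of_nonneg_left hp1 (by positivity)
      rw [h6]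
      linarith
  refine ⟨‖D.h 1‖ * Real.exp E, mul_pos (pos _) (Real.exp_pos _), fun α β h => ?_⟩
  have h1 := key α _ β rfl h
  have h2 : 0 ≤ E * q ^ D.l β := by positivity
  have h3 := Real.exp_le_exp.2 (show Real.log ‖D.h α‖ + Real.log ‖D.h β‖ ≤
    Real.log ‖D.h 1‖ + E + Real.log ‖D.h (α * β)‖ by linarith)
  rwa [Real.exp_add, Real.exp_add, Real.exp_add, Real.exp_log (pos _), Real.exp_log (pos _),
    Real.exp_log (pos _), Real.exp_log (pos _)] at h3

end H42
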