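import Pool.Agent.Lib.MP_320961_gt.Dyn1

/-! The limit set. -/

open scoped RealInnerProductSpace ENNReal NNReal
open Set Metric MeasureTheory Filter Topology

noncomputable section

namespace H42

variable {Γ : Type*} [Group Γ]

theorem pd_comm (s t : S) : pd s t = pd t s := by
  unfold pd
  rw [norm_sub_rev s t, add_comm s t]

theorem pd_neg (s t : S) : pd (-s) t = pd s t := by
  unfold pd
  have h1 : -s - t = -(s + t) := by abel
  have h2 : -s + t = -(s - t) := by abel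
  rw [h1, h2, norm_neg, norm_neg, min_comm]

theorem pd_triangle (s t r : S) : pd s r ≤ pd s t + pd t r := by
  unfold pd
  have a1 : ‖s - r‖ ≤ ‖s - t‖ + ‖t - r‖ := by
    have : s - r = (s - t) + (t - r) := by abel
    rw [this]; exact norm_add_le _ _
  have a2 : ‖s + r‖ ≤ ‖s - t‖ + ‖t + r‖ := by
    have : s + r = (s - t) + (t + r) := by abel
    rw [this]; exact norm_add_le _ _
  have a3 : ‖s + r‖ ≤ ‖s + t‖ + ‖t - r‖ := by
    have : s + r = (s + t) - (t - r) := by abel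
    rw [this]; exact norm_sub_le _ _
  have a4 : ‖s - r‖ ≤ ‖s + t‖ + ‖t + r‖ := by
    have : s - r = (s + t) - (t + r) := by abel
    rw [this]; exact norm_sub_le _ _
  have b1 := min_le_left ‖s - r‖ ‖s + r‖
  have b2 := min_le_right ‖s - r‖ ‖s + r‖
  rcases min_choice ‖s - t‖ ‖s + t‖ with h | h <;> rcases min_choice ‖t - r‖ ‖t + r‖ with h' | h' <;>
    rw [h, h'] <;> linarith

theorem pd_le (s t : S) : pd s t ≤ ‖s - t‖ := min_le_left _ _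

theorem pd_nonneg (s t : S) : 0 ≤ pd s t := le_min (norm_nonneg _) (norm_nonneg _)

theorem pd_pos {s t : S} (h1 : t ≠ s) (h2 : t ≠ -s) : 0 < pd s t := by
  unfold pd
  refine lt_min (norm_pos_iff.2 ?_) (norm_pos_iff.2 ?_)
  · exact fun h => h1 (sub_eq_zero.1 h).symm
  · exact fun h => h2 (eq_neg_of_add_eq_zero_right h)

/-- A unit vector close to the line of a unit vector is close to it up to sign. -/
theorem pd_le_two {s u : S} (hs : ‖s‖ = 1) (hu : ‖u‖ = 1) (a : ℝ) : pd s u ≤ 2 * ‖s - a • u‖ := by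
  have h0 : |1 - (|a|)| ≤ ‖s - a • u‖ := by
    have := abs_norm_sub_norm_le s (a • u)
    rwa [hs, norm_smul, hu, mul_one, Real.norm_eq_abs] at this
  rcases le_total 0 a with ha | ha
  · rw [abs_of_nonneg ha] at h0
    have e : s - u = (s - a • u) - (1 - a) • u := by rw [sub_smul, one_smul]; abel
    have h1 : ‖s - u‖ ≤ ‖s - a • u‖ + ‖(1 - a) • u‖ := by rw [e]; exact norm_sub_le _ _
    rw [norm_smul, hu, mul_one, Real.norm_eq_abs] at h1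
    have := pd_le s u
    linarith
  · rw [abs_of_nonpos ha] at h0
    have e : s + u = (s - a • u) + (1 - -a) • u := by
      rw [sub_smul, one_smul, neg_smul]; abel
    have h1 : ‖s + u‖ ≤ ‖s - a • u‖ + ‖(1 - -a) • u‖ := by rw [e]; exact norm_add_le _ _
    rw [norm_smul, hu, mul_one, Real.norm_eq_abs] at h1
    have : pd s u ≤ ‖s + u‖ := min_le_right _ _
    linarith

theorem dyn2_sign {s t : S} {ε : ℝ} (h : pd s t < ε) : ∃ σ : ℝ, |σ| = 1 ∧ ‖s - σ • t‖ < ε := by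
  unfold pd at h
  rcases min_lt_iff.1 h with h | h
  · exact ⟨1, abs_one, by rwa [one_smul]⟩
  · exact ⟨-1, by simp, by rwa [neg_smul, one_smul, sub_neg_eq_add]⟩

theorem dyn2_small (D : Dyn Γ) {ε : ℝ} (hε : 0 < ε) :
    ∃ n : ℕ, ∀ m : ℕ, n ≤ m → D.C * Real.exp (-(D.c * m)) < ε := by
  have h1 : Tendsto (fun m : ℕ => D.c * (m : ℝ)) atTop atTop :=
    Tendsto.const_mul_atTop D.c_pos tendsto_natCast_atTop_atTop
  have h2 : Tendsto (fun m : ℕ => D.C * Real.exp (-(D.c * m))) atTop (𝓝 (D.C * 0)) :=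
    (Real.tendsto_exp_neg_atTop_nhds_zero.comp h1).const_mul D.C
  rw [mul_zero] at h2
  exact eventually_atTop.1 (h2.eventually (gt_mem_nhds hε))

theorem dyn2_mul (D : Dyn Γ) (α β : Γ) (s : S) : D.h (α * β) s = D.h α (D.h β s) := by
  rw [map_mul]; rfl

theorem dyn2_inv (D : Dyn Γ) (α : Γ) (s : S) : D.h α⁻¹ (D.h α s) = s := by
  rw [← dyn2_mul, inv_mul_cancel, map_one]; rfl

theorem dyn2_pos (D : Dyn Γ) (γ : Γ) : 0 < ‖D.h γ‖ := lt_of_lt_of_le one_pos (D.one_le_norm γ)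

theorem dyn2_u (D : Dyn Γ) (γ : Γ) : D.u γ = ‖D.h γ‖⁻¹ • D.h γ (D.v γ) := by
  rw [(D.gap γ).top, smul_smul, inv_mul_cancel₀ (dyn2_pos D γ).ne', one_smul]

theorem Dyn.lim_norm (D : Dyn Γ) {s : S} (hs : s ∈ D.Lim) : ‖s‖ = 1 := by
  by_contra hne
  have hpos : 0 < |‖s‖ - 1| := abs_pos.2 (sub_ne_zero.2 hne)
  obtain ⟨γ, -, hγ⟩ := hs _ hpos 0
  obtain ⟨σ, hσ, h⟩ := dyn2_sign hγ
  have h1 := abs_norm_sub_norm_le s (σ • D.u γ)
  rw [norm_smul, (D.gap γ).hu, mul_one, Real.norm_eq_abs, hσ] at h1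
  linarith

theorem Dyn.lim_neg (D : Dyn Γ) {s : S} (hs : s ∈ D.Lim) : -s ∈ D.Lim := by
  intro ε hε n
  obtain ⟨γ, h1, h2⟩ := hs ε hε n
  exact ⟨γ, h1, by rwa [pd_neg]⟩

theorem Dyn.lim_closed (D : Dyn Γ) : IsClosed D.Lim := by
  refine isClosed_of_closure_subset fun s hs => ?_
  intro ε hε n
  obtain ⟨t, ht, hd⟩ := Metric.mem_closure_iff.1 hs (ε / 2) (half_pos hε)
  obtain ⟨γ, h1, h2⟩ := ht (ε / 2) (half_pos hε) n
  refine ⟨γ, h1, ?_⟩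
  have h3 := pd_triangle s t (D.u γ)
  have h4 := pd_le s t
  rw [dist_eq_norm] at hd
  linarith

/-- For a unit `s` orthogonal to `v`: `1 ≤ ‖h⁻¹‖ ‖h s‖ ≤ η ‖h‖²`. -/
theorem Dyn.inv_sq_le (D : Dyn Γ) (γ : Γ) :
    (‖D.h γ‖ ^ 2)⁻¹ ≤ D.C * Real.exp (-(D.c * D.l γ)) := by
  have G := D.gap γ
  set w : S := mkS (-(D.v γ).snd) (D.v γ).fst with hw
  have hw1 : ‖w‖ = 1 := by
    have h1 : ‖w‖ ^ 2 = ‖D.v γ‖ ^ 2 := by
      rw [normS_sq, normS_sq, hw, mkS_fst, mkS_snd, norm_neg, add_comm]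
    rw [G.hv] at h1
    exact (sq_eq_sq₀ (norm_nonneg _) zero_le_one).1 h1
  have hw0 : ⟪D.v γ, w⟫ = 0 := by
    rw [innerS, hw, mkS_fst, mkS_snd, inner_neg_right, real_inner_comm (D.v γ).fst]; ring
  have h1 := G.near w
  rw [hw0, mul_zero, zero_smul, sub_zero, hw1, mul_one] at h1
  have h2 : ‖D.h γ⁻¹ (D.h γ w)‖ ≤ ‖D.h γ⁻¹‖ * ‖D.h γ w‖ := (D.h γ⁻¹).le_opNorm _
  rw [dyn2_inv, hw1, D.norm_inv] at h2
  have hp := dyn2_pos D γ
  have h3 := mul_le_mul_of_nonneg_left h1 hp.le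
  rw [inv_le_iff_one_le_mul₀ (pow_pos hp 2)]
  nlinarith

/-- `‖h‖² |qS u u| = |qS v v| ≤ 1`. -/
theorem Dyn.lim_null (D : Dyn Γ) {s : S} (hs : s ∈ D.Lim) : qS s s = 0 := by
  by_contra hne
  have hpos : 0 < |qS s s| := abs_pos.2 hne
  obtain ⟨n, hn⟩ := dyn2_small D (half_pos hpos)
  obtain ⟨γ, h1, h2⟩ := hs (|qS s s| / 4) (by linarith) n
  obtain ⟨σ, hσ, h3⟩ := dyn2_sign h2
  have G := D.gap γ
  have hp := dyn2_pos D γ
  have hσ2 : σ * σ = 1 := by rw [← abs_mul_abs_self, hσ, one_mul]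
  have e1 : |qS (D.h γ (D.v γ)) (D.h γ (D.v γ))| ≤ 1 := by
    rw [(D.conf γ).abs]
    have := abs_qS_le (D.v γ) (D.v γ)
    rwa [G.hv, one_mul] at this
  have e2 : |qS (D.u γ) (D.u γ)| ≤ (‖D.h γ‖ ^ 2)⁻¹ := by
    rw [G.top] at e1
    simp only [map_smul, LinearMap.smul_apply, smul_eq_mul] at e1
    rw [abs_mul, abs_mul, abs_of_pos hp] at e1
    rw [inv_eq_one_div, le_div_iff₀ (pow_pos hp 2)]
    nlinarith
  have e3 := D.inv_sq_le γ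
  have e4 := hn _ h1
  set t : S := σ • D.u γ with ht
  have ht1 : ‖t‖ = 1 := by rw [ht, norm_smul, G.hu, mul_one, Real.norm_eq_abs, hσ]
  have e5 : qS t t = qS (D.u γ) (D.u γ) := by
    rw [ht]
    simp only [map_smul, LinearMap.smul_apply, smul_eq_mul]
    rw [← mul_assoc, hσ2, one_mul]
  have e6 : qS s s = qS t t + (qS (s - t) s + qS (s - t) t) := by
    simp only [map_sub, LinearMap.sub_apply]
    rw [qS_comm t s]; ring
  have e7 := abs_qS_le (s - t) s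
  have e8 := abs_qS_le (s - t) t
  rw [D.lim_norm hs, mul_one] at e7
  rw [ht1, mul_one] at e8
  have e9 : |qS s s| ≤ |qS t t| + (|qS (s - t) s| + |qS (s - t) t|) := by
    conv_lhs => rw [e6]
    exact (abs_add_le _ _).trans (add_le_add le_rfl (abs_add_le _ _))
  rw [e5] at e9
  linarith

/-- `h (β γ) (v γ) = ‖h γ‖ • h β (u γ)` is close to the line of `u (β γ)`;
`l (β γ) ≥ l γ - l β`. -/
theorem Dyn.lim_inv (D : Dyn Γ) {s : S} (hs : s ∈ D.Lim) (β : Γ) :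
    ‖D.h β s‖⁻¹ • D.h β s ∈ D.Lim := by
  intro ε hε n
  have hs1 := D.lim_norm hs
  have hβ := dyn2_pos D β
  have ht : 0 < ‖D.h β s‖ := by
    refine norm_pos_iff.2 fun h0 => ?_
    have := dyn2_inv D β s
    rw [h0, map_zero] at this
    rw [← this, norm_zero] at hs1
    exact zero_ne_one hs1
  set δ : ℝ := ε * ‖D.h β s‖ / (4 * ‖D.h β‖) with hδ
  have hδ0 : 0 < δ := by positivity
  obtain ⟨m, hm⟩ := dyn2_small D hδ0
  obtain ⟨γ, h1, h2⟩ := hs δ hδ0 (max n m + D.l β)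
  obtain ⟨σ, hσ, h3⟩ := dyn2_sign h2
  have hl : max n m ≤ D.l (β * γ) := by
    have h4 := D.wl.mul β⁻¹ (β * γ)
    rw [inv_mul_cancel_left, D.wl.inv] at h4
    omega
  refine ⟨β * γ, le_trans (le_max_left _ _) hl, ?_⟩
  have e1 := hm _ (le_trans (le_max_right _ _) hl)
  have G := D.gap γ
  have G' := D.gap (β * γ)
  have hγ := dyn2_pos D γ
  set η : ℝ := D.C * Real.exp (-(D.c * D.l (β * γ))) with hη
  have hη0 : 0 ≤ η := (mul_pos D.C_pos (Real.exp_pos _)).le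
  set a : ℝ := ‖D.h (β * γ)‖ * ⟪D.v (β * γ), D.v γ⟫ with ha
  have e2 := G'.near (D.v γ)
  rw [G.hv, mul_one, ← ha] at e2
  have e3 : ‖D.h (β * γ)‖ ≤ ‖D.h β‖ * ‖D.h γ‖ := by rw [map_mul]; exact norm_mul_le _ _
  have e4 : ‖D.h β (D.u γ) - (‖D.h γ‖⁻¹ * a) • D.u (β * γ)‖ ≤ η * ‖D.h β‖ := by
    have : D.h β (D.u γ) - (‖D.h γ‖⁻¹ * a) • D.u (β * γ)
        = ‖D.h γ‖⁻¹ • (D.h (β * γ) (D.v γ) - a • D.u (β * γ)) := by
      rw [smul_sub, smul_smul, dyn2_mul, ← map_smul, ← dyn2_u]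
    rw [this, norm_smul, _root_.norm_inv, norm_norm, inv_mul_le_iff₀ hγ]
    have := mul_le_mul_of_nonneg_left e3 hη0
    nlinarith
  have e5 : ‖D.h β s - (σ * (‖D.h γ‖⁻¹ * a)) • D.u (β * γ)‖ ≤ ‖D.h β‖ * δ + η * ‖D.h β‖ := by
    have : D.h β s - (σ * (‖D.h γ‖⁻¹ * a)) • D.u (β * γ)
        = D.h β (s - σ • D.u γ) + σ • (D.h β (D.u γ) - (‖D.h γ‖⁻¹ * a) • D.u (β * γ)) := by
      rw [map_sub, map_smul, smul_sub, smul_smul]; abel
    rw [this]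
    refine (norm_add_le _ _).trans (add_le_add ?_ ?_)
    · exact ((D.h β).le_opNorm _).trans (mul_le_mul_of_nonneg_left h3.le hβ.le)
    · rw [norm_smul, Real.norm_eq_abs, hσ, one_mul]; exact e4
  have hn1 : ‖‖D.h β s‖⁻¹ • D.h β s‖ = 1 := by
    rw [norm_smul, _root_.norm_inv, norm_norm, inv_mul_cancel₀ ht.ne']
  have e6 := pd_le_two hn1 G'.hu (‖D.h β s‖⁻¹ * (σ * (‖D.h γ‖⁻¹ * a)))
  rw [← smul_smul, ← smul_sub, norm_smul, _root_.norm_inv, norm_norm] at e6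
  refine lt_of_le_of_lt e6 ?_
  have e7 : ‖D.h β‖ * δ = ε * ‖D.h β s‖ / 4 := by rw [hδ]; field_simp
  have e8 : η * ‖D.h β‖ < δ * ‖D.h β‖ := mul_lt_mul_of_pos_right e1 hβ
  have e9 : ‖D.h β s - (σ * (‖D.h γ‖⁻¹ * a)) • D.u (β * γ)‖ < ‖D.h β s‖ * (ε / 2) := by
    nlinarith
  have e10 := (inv_mul_lt_iff₀ ht).2 e9
  linarith

theorem Dyn.lim_cluster (D : Dyn Γ) (γ : ℕ → Γ) (hγ : Tendsto (fun n => D.l (γ n)) atTop atTop) :
    ∃ s ∈ D.Lim, ∃ φ : ℕ → ℕ, StrictMono φ ∧ Tendsto (fun n => D.u (γ (φ n))) atTop (𝓝 s) := by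
  have hmem : ∀ n, D.u (γ n) ∈ sphere (0 : S) 1 := fun n => by
    rw [mem_sphere_zero_iff_norm]; exact (D.gap _).hu
  obtain ⟨s, -, φ, hφ, hlim⟩ := (isCompact_sphere (0 : S) 1).tendsto_subseq hmem
  refine ⟨s, ?_, φ, hφ, hlim⟩
  intro ε hε n
  have h1 : ∀ᶠ k in atTop, n ≤ D.l (γ (φ k)) :=
    (hγ.comp hφ.tendsto_atTop).eventually (eventually_ge_atTop n)
  have h2 : ∀ᶠ k in atTop, dist (D.u (γ (φ k))) s < ε := Metric.tendsto_nhds.1 hlim ε hε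
  obtain ⟨k, hk1, hk2⟩ := (h1.and h2).exists
  refine ⟨γ (φ k), hk1, lt_of_le_of_lt (pd_le _ _) ?_⟩
  rwa [dist_comm, dist_eq_norm] at hk2

/-- `γ = η ζ` by `WordLen.split`, `h η⁻¹ (u γ) = ‖h γ‖⁻¹ • h ζ (v γ)`, `Dyn.supermul`; take
`pd s (u γ) < (d ^ k)⁻²` with `d` from `WordLen.norm_le`. -/
theorem Dyn.shadow (D : Dyn Γ) : ∃ K > 0, ∀ s ∈ D.Lim, ∀ k, ∃ η, D.l η = k ∧
    ‖D.h η⁻¹ s‖ ≤ K / ‖D.h η‖ := by
  obtain ⟨K, hK, hsup⟩ := D.supermul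
  obtain ⟨d, hd1, hd⟩ := D.wl.norm_le D.h
  refine ⟨K + 1, by linarith, fun s hs k => ?_⟩
  have hdk : 0 < d ^ k := pow_pos (lt_of_lt_of_le one_pos hd1) k
  obtain ⟨γ, h1, h2⟩ := hs ((d ^ k) ^ 2)⁻¹ (by positivity) k
  obtain ⟨σ, hσ, h3⟩ := dyn2_sign h2
  obtain ⟨η, ζ, hγ, hη, hl⟩ := D.wl.split γ h1
  refine ⟨η, hη, ?_⟩
  have hpη := dyn2_pos D η
  have hpγ := dyn2_pos D γ
  have e1 : ‖D.h η‖ * ‖D.h ζ‖ ≤ K * ‖D.h γ‖ := by
    have := hsup η ζ (by rw [← hγ, hη, hl])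
    rwa [← hγ] at this
  have e2 : D.h η⁻¹ (D.u γ) = ‖D.h γ‖⁻¹ • D.h ζ (D.v γ) := by
    have : D.h γ (D.v γ) = D.h η (D.h ζ (D.v γ)) := by rw [← dyn2_mul, ← hγ]
    rw [dyn2_u D γ, map_smul, this, dyn2_inv]
  have e3 : ‖D.h η⁻¹ (D.u γ)‖ ≤ K / ‖D.h η‖ := by
    have h4 : ‖D.h ζ (D.v γ)‖ ≤ ‖D.h ζ‖ := by
      have := (D.h ζ).le_opNorm (D.v γ)
      rwa [(D.gap γ).hv, mul_one] at this
    rw [e2, norm_smul, _root_.norm_inv, norm_norm, inv_mul_le_iff₀ hpγ, ← mul_div_assoc,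
      le_div_iff₀ hpη]
    have := mul_le_mul_of_nonneg_left h4 hpη.le
    nlinarith
  have e4 : ‖D.h η⁻¹ (s - σ • D.u γ)‖ ≤ 1 / ‖D.h η‖ := by
    have h4 := (D.h η⁻¹).le_opNorm (s - σ • D.u γ)
    rw [D.norm_inv] at h4
    have h5 : ‖D.h η‖ ≤ d ^ k := by have := hd η; rwa [hη] at this
    have h6 : ‖D.h η‖ ^ 2 ≤ (d ^ k) ^ 2 := pow_le_pow_left₀ hpη.le h5 2
    have h7 : ‖s - σ • D.u γ‖ * (d ^ k) ^ 2 ≤ 1 := by
      have := mul_le_mul_of_nonneg_right h3.le (pow_pos hdk 2).le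
      rwa [inv_mul_cancel₀ (pow_pos hdk 2).ne'] at this
    have h8 := mul_le_mul_of_nonneg_left h6 (norm_nonneg (s - σ • D.u γ))
    have h9 := mul_le_mul_of_nonneg_right h4 hpη.le
    rw [le_div_iff₀ hpη]
    nlinarith
  have e5 : D.h η⁻¹ s = D.h η⁻¹ (s - σ • D.u γ) + σ • D.h η⁻¹ (D.u γ) := by
    rw [map_sub, map_smul]; abel
  rw [e5, add_div, add_comm (K / ‖D.h η‖)]
  refine (norm_add_le _ _).trans (add_le_add e4 ?_)
  rw [norm_smul, Real.norm_eq_abs, hσ, one_mul]; exact e3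

end H42
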