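import Pool.Agent.Lib.MP_320961_gt.Dyn2

/-! Transversality. -/

open scoped RealInnerProductSpace ENNReal NNReal
open Set Metric MeasureTheory Filter Topology

noncomputable section

namespace H42

variable {Γ : Type*} [Group Γ]

theorem dyn3_mul_le (D : Dyn Γ) (α β : Γ) : ‖D.h (α * β)‖ ≤ ‖D.h α‖ * ‖D.h β‖ := by
  rw [map_mul]
  exact norm_mul_le _ _

theorem dyn3_pd_self (s : S) : pd s s = 0 :=
  le_antisymm ((pd_le s s).trans (by simp)) (pd_nonneg s s)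

theorem dyn3_small {C c κ : ℝ} (hC : 0 < C) (hc : 0 < c) (hκ : 0 < κ) :
    ∃ n : ℕ, ∀ m : ℕ, n ≤ m → C * Real.exp (-c) ^ m < κ := by
  have hq : Real.exp (-c) < 1 := Real.exp_lt_one_iff.2 (by linarith)
  obtain ⟨n, hn⟩ := exists_pow_lt_of_lt_one (div_pos hκ hC) hq
  refine ⟨n, fun m hm => ?_⟩
  have h1 : Real.exp (-c) ^ m ≤ Real.exp (-c) ^ n :=
    pow_le_pow_of_le_one (Real.exp_pos _).le hq.le hm
  have h2 := (lt_div_iff₀' hC).1 (h1.trans_lt hn)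
  exact h2

theorem dyn3_chain (D : Dyn Γ) {C₁ : ℝ} (hC : 0 < C₁)
    (h : ∀ γ σ, D.l σ ≤ 1 → pd (D.u γ) (D.u (γ * σ)) ≤ C₁ * Real.exp (-(D.c * D.l γ)))
    (a : ℕ → Γ) (J m : ℕ) (h1 : ∀ k < J, D.l ((a k)⁻¹ * a (k + 1)) ≤ 1)
    (h2 : ∀ k < J, m + k ≤ 3 * D.l (a k)) :
    pd (D.u (a 0)) (D.u (a J)) ≤
      C₁ * (1 - Real.exp (-(D.c / 3)))⁻¹ * Real.exp (-(D.c / 3)) ^ m := by
  have hc := D.c_pos
  have hq0 : 0 < Real.exp (-(D.c / 3)) := Real.exp_pos _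
  have hq : Real.exp (-(D.c / 3)) < 1 := Real.exp_lt_one_iff.2 (by linarith)
  have key : ∀ j ≤ J, pd (D.u (a 0)) (D.u (a j)) ≤
      C₁ * (∑ k ∈ Finset.range j, Real.exp (-(D.c / 3)) ^ k) * Real.exp (-(D.c / 3)) ^ m := by
    intro j
    induction j with
    | zero => intro _; simp [dyn3_pd_self]
    | succ j ih =>
      intro hj
      have e1 := h (a j) _ (h1 j hj)
      rw [mul_inv_cancel_left] at e1
      have e2 : Real.exp (-(D.c * D.l (a j))) ≤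
          Real.exp (-(D.c / 3)) ^ j * Real.exp (-(D.c / 3)) ^ m := by
        rw [← pow_add, ← Real.exp_nat_mul, Real.exp_le_exp]
        have e3 : ((m + j : ℕ) : ℝ) ≤ ((3 * D.l (a j) : ℕ) : ℝ) := by exact_mod_cast h2 j hj
        push_cast at e3 ⊢
        nlinarith
      have e4 := pd_triangle (D.u (a 0)) (D.u (a j)) (D.u (a (j + 1)))
      have e5 := ih (Nat.le_of_succ_le hj)
      have e6 := mul_le_mul_of_nonneg_left e2 hC.le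
      rw [Finset.sum_range_succ]
      nlinarith
  refine (key J le_rfl).trans ?_
  have hs : ∑ k ∈ Finset.range J, Real.exp (-(D.c / 3)) ^ k ≤ (1 - Real.exp (-(D.c / 3)))⁻¹ := by
    rw [← tsum_geometric_of_lt_one hq0.le hq]
    exact (summable_geometric_of_lt_one hq0.le hq).sum_le_tsum _ fun _ _ => by positivity
  gcongr

theorem dyn3_gap_q {A B : S →L[ℝ] S} {u v u' v' : S} {η η' : ℝ} (G : Gap A u v η)
    (G' : Gap B u' v' η') (hη : 0 ≤ η) (x y : S) :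
    |qS (A x) (B y)| ≤ ‖A‖ * ‖B‖ * (|qS u u'| + η + η' + η * η') * ‖y‖ * ‖x‖ := by
  have h1 := G.near x
  have h2 := G'.near y
  have h3 : |‖A‖ * ⟪v, x⟫| ≤ ‖A‖ * ‖x‖ := by
    rw [abs_mul, abs_norm]
    have := abs_real_inner_le_norm v x
    rw [G.hv, one_mul] at this
    gcongr
  have h4 : |‖B‖ * ⟪v', y⟫| ≤ ‖B‖ * ‖y‖ := by
    rw [abs_mul, abs_norm]
    have := abs_real_inner_le_norm v' y
    rw [G'.hv, one_mul] at this
    gcongr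
  generalize ‖A‖ * ⟪v, x⟫ = α at h1 h3
  generalize ‖B‖ * ⟪v', y⟫ = α' at h2 h4
  obtain ⟨e, he⟩ : ∃ e, e = A x - α • u := ⟨_, rfl⟩
  obtain ⟨e', he'⟩ : ∃ e', e' = B y - α' • u' := ⟨_, rfl⟩
  have ha : A x = α • u + e := by rw [he]; abel
  have hb : B y = α' • u' + e' := by rw [he']; abel
  rw [← he] at h1
  rw [← he'] at h2
  have hq : qS (A x) (B y) = α * α' * qS u u' + α' * qS e u' + α * qS u e' + qS e e' := by
    rw [ha, hb]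
    simp only [map_add, map_smul, LinearMap.add_apply, LinearMap.smul_apply, smul_eq_mul]
    ring
  have t1 : |α * α' * qS u u'| ≤ ‖A‖ * ‖x‖ * (‖B‖ * ‖y‖) * |qS u u'| := by
    rw [abs_mul, abs_mul]
    gcongr
  have t2 : |α' * qS e u'| ≤ ‖B‖ * ‖y‖ * (η * ‖A‖ * ‖x‖) := by
    rw [abs_mul]
    have := abs_qS_le e u'
    rw [G'.hu, mul_one] at this
    exact mul_le_mul h4 (this.trans h1) (abs_nonneg _) (by positivity)
  have t3 : |α * qS u e'| ≤ ‖A‖ * ‖x‖ * (η' * ‖B‖ * ‖y‖) := by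
    rw [abs_mul]
    have := abs_qS_le u e'
    rw [G.hu, one_mul] at this
    exact mul_le_mul h3 (this.trans h2) (abs_nonneg _) (by positivity)
  have t4 : |qS e e'| ≤ η * ‖A‖ * ‖x‖ * (η' * ‖B‖ * ‖y‖) :=
    (abs_qS_le e e').trans (mul_le_mul h1 h2 (norm_nonneg _) (by positivity))
  rw [hq]
  calc |α * α' * qS u u' + α' * qS e u' + α * qS u e' + qS e e'|
      ≤ |α * α' * qS u u'| + |α' * qS e u'| + |α * qS u e'| + |qS e e'| := by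
        refine (abs_add_le _ _).trans ?_
        have := abs_add_three (α * α' * qS u u') (α' * qS e u') (α * qS u e')
        linarith
    _ ≤ ‖A‖ * ‖x‖ * (‖B‖ * ‖y‖) * |qS u u'| + ‖B‖ * ‖y‖ * (η * ‖A‖ * ‖x‖) +
        ‖A‖ * ‖x‖ * (η' * ‖B‖ * ‖y‖) + η * ‖A‖ * ‖x‖ * (η' * ‖B‖ * ‖y‖) := by linarith
    _ = _ := by ring

theorem dyn3_q_pd (s u w : S) : |qS u w| ≤ |qS s w| + pd s u * ‖w‖ := by
  rcases min_choice ‖s - u‖ ‖s + u‖ with h | h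
  · have e : qS u w = qS s w - qS (s - u) w := by
      simp only [map_sub, LinearMap.sub_apply]; ring
    have h1 := abs_qS_le (s - u) w
    have h2 := abs_sub (qS s w) (qS (s - u) w)
    rw [pd, h, e]
    linarith
  · have e : qS u w = qS (s + u) w - qS s w := by
      simp only [map_add, LinearMap.add_apply]; ring
    have h1 := abs_qS_le (s + u) w
    have h2 := abs_sub (qS (s + u) w) (qS s w)
    rw [pd, h, e]
    linarith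

/-- `‖h (γσ)‖ • u (γσ) = h γ (h σ (v (γσ)))`, `‖h γ‖ ≤ d ‖h (γσ)‖`, `pd_le_two`. -/
theorem Dyn.pd_step (D : Dyn Γ) : ∃ C₁ > 0, ∀ γ σ, D.l σ ≤ 1 →
    pd (D.u γ) (D.u (γ * σ)) ≤ C₁ * Real.exp (-(D.c * D.l γ)) := by
  obtain ⟨d, hd, hn⟩ := D.wl.norm_le D.h
  have hC := D.C_pos
  have hl : ∀ σ, D.l σ ≤ 1 → ‖D.h σ‖ ≤ d := fun σ hσ =>
    (hn σ).trans ((pow_le_pow_right₀ hd hσ).trans (pow_one d).le)
  refine ⟨2 * D.C * d ^ 2, by positivity, fun γ σ hσ => ?_⟩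
  have G := D.gap γ
  have G' := D.gap (γ * σ)
  have hN' : 0 < ‖D.h (γ * σ)‖ := one_pos.trans_le (D.one_le_norm _)
  have hN : ‖D.h γ‖ ≤ ‖D.h (γ * σ)‖ * d := by
    have h1 := dyn3_mul_le D (γ * σ) σ⁻¹
    rw [mul_inv_cancel_right] at h1
    exact h1.trans (mul_le_mul_of_nonneg_left (hl _ (by rw [D.wl.inv]; exact hσ)) hN'.le)
  have hs : ‖D.h σ (D.v (γ * σ))‖ ≤ d := by
    refine ((D.h σ).le_opNorm _).trans ?_
    rw [G'.hv, mul_one]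
    exact hl σ hσ
  have h1 := G.near (D.h σ (D.v (γ * σ)))
  have h2 : D.h γ (D.h σ (D.v (γ * σ))) = ‖D.h (γ * σ)‖ • D.u (γ * σ) := by
    rw [← G'.top, map_mul]; rfl
  rw [h2] at h1
  generalize ‖D.h γ‖ * ⟪D.v γ, D.h σ (D.v (γ * σ))⟫ = a at h1
  have h3 : ‖D.h (γ * σ)‖ • D.u (γ * σ) - a • D.u γ =
      ‖D.h (γ * σ)‖ • (D.u (γ * σ) - (a / ‖D.h (γ * σ)‖) • D.u γ) := by
    rw [smul_sub, smul_smul, mul_div_cancel₀ _ hN'.ne']
  rw [h3, norm_smul, norm_norm] at h1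
  have h4 : D.C * Real.exp (-(D.c * D.l γ)) * ‖D.h γ‖ * ‖D.h σ (D.v (γ * σ))‖ ≤
      D.C * Real.exp (-(D.c * D.l γ)) * (‖D.h (γ * σ)‖ * d) * d := by gcongr
  have h5 : ‖D.u (γ * σ) - (a / ‖D.h (γ * σ)‖) • D.u γ‖ ≤
      D.C * Real.exp (-(D.c * D.l γ)) * d ^ 2 := by
    refine le_of_mul_le_mul_left ((h1.trans h4).trans (le_of_eq ?_)) hN'
    ring
  have h6 := pd_le_two G'.hu G.hu (a / ‖D.h (γ * σ)‖)
  rw [pd_comm]
  linarith

/-- Along `g i = γ * P i` (`WordLen.path` of `γ⁻¹ γ'`), with `m = l (g i₀)` minimal,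
`3 l (g i) ≥ m + |i - i₀|`; so `pd (u γ) (u γ') ≤ C₂ exp (-c m / 3)`. -/
theorem Dyn.pass (D : Dyn Γ) {ε : ℝ} (hε : 0 < ε) : ∃ m₀ : ℕ, ∀ γ γ', ε ≤ pd (D.u γ) (D.u γ') →
    ∃ β, D.l β ≤ m₀ ∧ D.l (γ⁻¹ * γ') = D.l (γ⁻¹ * β) + D.l (β⁻¹ * γ') := by
  obtain ⟨C₁, hC, hstep⟩ := D.pd_step
  have hc := D.c_pos
  have hq : Real.exp (-(D.c / 3)) < 1 := Real.exp_lt_one_iff.2 (by linarith)
  have hq1 : 0 < (1 - Real.exp (-(D.c / 3)))⁻¹ := inv_pos.2 (by linarith)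
  obtain ⟨m₀, hm₀⟩ := dyn3_small (mul_pos hC hq1) (by linarith : 0 < D.c / 3) (half_pos hε)
  refine ⟨m₀, fun γ γ' hpd => ?_⟩
  obtain ⟨P, hP0, hPn, hP⟩ := D.wl.path (γ⁻¹ * γ')
  obtain ⟨i₀, hi₀, hmin⟩ := Finset.exists_min_image (Finset.range (D.l (γ⁻¹ * γ') + 1))
    (fun i => D.l (γ * P i)) ⟨0, by simp⟩
  have hi : i₀ ≤ D.l (γ⁻¹ * γ') := Nat.lt_succ_iff.1 (Finset.mem_range.1 hi₀)
  have hmin' : ∀ i ≤ D.l (γ⁻¹ * γ'), D.l (γ * P i₀) ≤ D.l (γ * P i) := fun i h =>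
    hmin i (Finset.mem_range.2 (Nat.lt_succ_iff.2 h))
  have hd : ∀ i j, (γ * P i)⁻¹ * (γ * P j) = (P i)⁻¹ * P j := fun i j => by group
  have hsym : ∀ i j, D.l ((P i)⁻¹ * P j) = D.l ((P j)⁻¹ * P i) := fun i j => by
    rw [← D.wl.inv]; congr 1; group
  have htri : ∀ i j, D.l ((P i)⁻¹ * P j) ≤ D.l (γ * P i) + D.l (γ * P j) := fun i j => by
    rw [← hd, ← D.wl.inv (γ * P i)]
    exact D.wl.mul _ _
  refine ⟨γ * P i₀, ?_, ?_⟩
  · by_contra hlt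
    have hsm := hm₀ _ (not_le.1 hlt).le
    have h1 := dyn3_chain D hC hstep (fun k => γ * P (i₀ + k)) (D.l (γ⁻¹ * γ') - i₀)
      (D.l (γ * P i₀))
      (fun k hk => by rw [hd, hP _ _ (by omega) (by omega)]; omega)
      (fun k hk => by
        have e1 := hmin' (i₀ + k) (by omega)
        have e2 := htri i₀ (i₀ + k)
        rw [hP _ _ (by omega) (by omega)] at e2
        omega)
    have h2 := dyn3_chain D hC hstep (fun k => γ * P (i₀ - k)) i₀ (D.l (γ * P i₀))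
      (fun k hk => by rw [hd, hsym, hP _ _ (by omega) (by omega)]; omega)
      (fun k hk => by
        have e1 := hmin' (i₀ - k) (by omega)
        have e2 := htri (i₀ - k) i₀
        rw [hP _ _ (by omega) (by omega)] at e2
        omega)
    simp only [Nat.add_zero, Nat.add_sub_cancel' hi, hPn, mul_inv_cancel_left] at h1
    simp only [Nat.sub_zero, Nat.sub_self, hP0, mul_one] at h2
    have h3 := pd_triangle (D.u γ) (D.u (γ * P i₀)) (D.u γ')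
    rw [pd_comm] at h2
    linarith
  · have e1 : γ⁻¹ * (γ * P i₀) = (P 0)⁻¹ * P i₀ := by rw [hP0]; group
    have e2 : (γ * P i₀)⁻¹ * γ' = (P i₀)⁻¹ * P (D.l (γ⁻¹ * γ')) := by rw [hPn]; group
    rw [e1, e2, hP _ _ (Nat.zero_le _) hi, hP _ _ hi le_rfl]
    omega

/-- For `z = h γ⁻¹ (h γ' s)`: `‖z‖² = |qS (h γ (thS z)) (h γ' s)|`; expand both with the gaps. -/
theorem Dyn.norm_inv_mul_le (D : Dyn Γ) (γ γ' : Γ) :
    ‖D.h (γ⁻¹ * γ')‖ ≤ ‖D.h γ‖ * ‖D.h γ'‖ * (|qS (D.u γ) (D.u γ')| +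
      D.C * Real.exp (-(D.c * D.l γ)) + D.C * Real.exp (-(D.c * D.l γ')) +
      D.C * Real.exp (-(D.c * D.l γ)) * (D.C * Real.exp (-(D.c * D.l γ')))) := by
  have hC := D.C_pos
  refine ContinuousLinearMap.opNorm_le_bound _ (by positivity) fun s => ?_
  have h1 := dyn3_gap_q (D.gap γ) (D.gap γ') (by positivity) (thS (D.h (γ⁻¹ * γ') s)) s
  have h2 : D.h γ' s = D.h γ (D.h (γ⁻¹ * γ') s) := by
    change _ = (D.h γ * D.h (γ⁻¹ * γ')) s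
    rw [← map_mul, mul_inv_cancel_left]
  rw [h2, (D.conf γ).abs, qS_thS, real_inner_self_eq_norm_sq, norm_thS,
    abs_of_nonneg (sq_nonneg _), sq] at h1
  rcases (norm_nonneg (D.h (γ⁻¹ * γ') s)).eq_or_lt with h0 | h0
  · rw [← h0]
    positivity
  · exact le_of_mul_le_mul_right h1 h0

/-- `Dyn.pass`, `Dyn.supermul`, `Dyn.norm_inv`, `WordLen.norm_le` give
`‖h γ‖ ‖h γ'‖ ≤ K d^(2 m₀) ‖h (γ⁻¹ γ')‖`; let `u γ → ± s`, `u γ' → ± t`. -/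
theorem Dyn.transverse (D : Dyn Γ) {s t : S} (hs : s ∈ D.Lim) (ht : t ∈ D.Lim) (h1 : t ≠ s)
    (h2 : t ≠ -s) : qS s t ≠ 0 := by
  intro h0
  have hδ := pd_pos h1 h2
  obtain ⟨m₀, hm₀⟩ := D.pass (half_pos hδ)
  obtain ⟨K, hK, hsup⟩ := D.supermul
  obtain ⟨d, hd, hn⟩ := D.wl.norm_le D.h
  have hC := D.C_pos
  have hL : 0 < K * (d ^ m₀ * d ^ m₀) := by positivity
  obtain ⟨κ, hκ, hκ1, hκ2, hκ3⟩ : ∃ κ : ℝ, 0 < κ ∧ κ ≤ 1 ∧ κ ≤ pd s t / 4 ∧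
      κ ≤ 1 / (6 * (K * (d ^ m₀ * d ^ m₀))) :=
    ⟨min 1 (min (pd s t / 4) (1 / (6 * (K * (d ^ m₀ * d ^ m₀))))),
      lt_min one_pos (lt_min (by linarith) (by positivity)), min_le_left _ _,
      (min_le_right _ _).trans (min_le_left _ _), (min_le_right _ _).trans (min_le_right _ _)⟩
  obtain ⟨n, hsm⟩ := dyn3_small hC D.c_pos hκ
  have hsm' : ∀ γ, n ≤ D.l γ → D.C * Real.exp (-(D.c * D.l γ)) < κ := fun γ hγ => by
    have := hsm _ hγ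
    rwa [← Real.exp_nat_mul, mul_neg, mul_comm (D.l γ : ℝ)] at this
  obtain ⟨γ, hγ, hγs⟩ := hs κ hκ n
  obtain ⟨γ', hγ', hγt⟩ := ht κ hκ n
  have hpd : pd s t / 2 ≤ pd (D.u γ) (D.u γ') := by
    have e1 := pd_triangle s (D.u γ) t
    have e2 := pd_triangle (D.u γ) (D.u γ') t
    have e3 := pd_comm (D.u γ') t
    linarith
  obtain ⟨β, hβ, hl⟩ := hm₀ γ γ' hpd
  have hprod : γ⁻¹ * β * (β⁻¹ * γ') = γ⁻¹ * γ' := by group
  have e1 := hsup (γ⁻¹ * β) (β⁻¹ * γ') (by rw [hprod]; exact hl)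
  rw [hprod] at e1
  have hβn : ‖D.h β‖ ≤ d ^ m₀ := (hn β).trans (pow_le_pow_right₀ hd hβ)
  have e2 : ‖D.h γ‖ ≤ ‖D.h (γ⁻¹ * β)‖ * d ^ m₀ := by
    have := dyn3_mul_le D (γ⁻¹ * β) β⁻¹
    rw [mul_inv_cancel_right, D.norm_inv, D.norm_inv] at this
    exact this.trans (mul_le_mul_of_nonneg_left hβn (norm_nonneg _))
  have e3 : ‖D.h γ'‖ ≤ d ^ m₀ * ‖D.h (β⁻¹ * γ')‖ := by
    have := dyn3_mul_le D β (β⁻¹ * γ')
    rw [mul_inv_cancel_left] at this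
    exact this.trans (mul_le_mul_of_nonneg_right hβn (norm_nonneg _))
  have e4 : |qS (D.u γ) (D.u γ')| ≤ 2 * κ := by
    have f1 := dyn3_q_pd s (D.u γ) (D.u γ')
    have f2 := dyn3_q_pd t (D.u γ') s
    rw [(D.gap γ').hu, mul_one, qS_comm s] at f1
    rw [D.lim_norm hs, mul_one, qS_comm t, h0, abs_zero] at f2
    linarith
  have e5 := D.norm_inv_mul_le γ γ'
  have f1 := hsm' γ hγ
  have f2 := hsm' γ' hγ'
  have f3 : 0 < D.C * Real.exp (-(D.c * D.l γ)) := by positivity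
  have f4 : 0 < D.C * Real.exp (-(D.c * D.l γ')) := by positivity
  generalize D.C * Real.exp (-(D.c * D.l γ)) = η at e5 f1 f3
  generalize D.C * Real.exp (-(D.c * D.l γ')) = η' at e5 f2 f4
  have e6 : |qS (D.u γ) (D.u γ')| + η + η' + η * η' ≤ 5 * κ := by nlinarith
  have hNN : 0 < ‖D.h γ‖ * ‖D.h γ'‖ :=
    mul_pos (one_pos.trans_le (D.one_le_norm _)) (one_pos.trans_le (D.one_le_norm _))
  have e7 : ‖D.h (γ⁻¹ * γ')‖ ≤ ‖D.h γ‖ * ‖D.h γ'‖ * (5 * κ) :=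
    e5.trans (mul_le_mul_of_nonneg_left e6 hNN.le)
  have e8 : ‖D.h γ‖ * ‖D.h γ'‖ * 1 ≤
      ‖D.h γ‖ * ‖D.h γ'‖ * (K * (d ^ m₀ * d ^ m₀) * (5 * κ)) :=
    calc ‖D.h γ‖ * ‖D.h γ'‖ * 1
        ≤ ‖D.h (γ⁻¹ * β)‖ * d ^ m₀ * (d ^ m₀ * ‖D.h (β⁻¹ * γ')‖) := by
          rw [mul_one]
          exact mul_le_mul e2 e3 (norm_nonneg _) (by positivity)
      _ = d ^ m₀ * d ^ m₀ * (‖D.h (γ⁻¹ * β)‖ * ‖D.h (β⁻¹ * γ')‖) := by ring
      _ ≤ d ^ m₀ * d ^ m₀ * (K * ‖D.h (γ⁻¹ * γ')‖) := by gcongr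
      _ ≤ d ^ m₀ * d ^ m₀ * (K * (‖D.h γ‖ * ‖D.h γ'‖ * (5 * κ))) := by gcongr
      _ = _ := by ring
  have e9 := le_of_mul_le_mul_left e8 hNN
  have e10 := (le_div_iff₀ (by positivity)).1 hκ3
  nlinarith

end H42
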