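import Pool.Agent.Lib.MP_320961_gt.Alg

/-! Polar decomposition in the orthogonal group of signature (4,3). -/

open scoped RealInnerProductSpace ENNReal NNReal
open Set Metric MeasureTheory Filter Topology

noncomputable section

namespace H42

theorem kak_fst (p : E4) (w : E3) (t : ℝ) (x : V) : (bst p w t x).fst =
    x.fst + ((Real.cosh t - 1) * ⟪p, x.fst⟫ + Real.sinh t * ⟪w, x.snd⟫) • p := by
  rw [bst_apply]
  simp

theorem kak_snd (p : E4) (w : E3) (t : ℝ) (x : V) : (bst p w t x).snd =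
    x.snd + (Real.sinh t * ⟪p, x.fst⟫ + (Real.cosh t - 1) * ⟪w, x.snd⟫) • w := by
  rw [bst_apply]
  simp

theorem kak_one {E : Type*} [NormedAddCommGroup E] [InnerProductSpace ℝ E] {p : E} (hp : ‖p‖ = 1) :
    ⟪p, p⟫ = 1 := by
  rw [real_inner_self_eq_norm_sq, hp, one_pow]

theorem bst_orth {p : E4} {w : E3} (hp : ‖p‖ = 1) (hw : ‖w‖ = 1) (t : ℝ) : Orth (bst p w t) := by
  intro x y
  rw [qV_apply, qV_apply, kak_fst, kak_fst, kak_snd, kak_snd]
  simp only [inner_add_left, inner_add_right, real_inner_smul_left, real_inner_smul_right,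
    kak_one hp, kak_one hw, real_inner_comm p x.fst, real_inner_comm w x.snd]
  linear_combination (⟪p, x.fst⟫ * ⟪p, y.fst⟫ - ⟪w, x.snd⟫ * ⟪w, y.snd⟫) *
    Real.cosh_sq_sub_sinh_sq t

theorem bst_mul_neg {p : E4} {w : E3} (hp : ‖p‖ = 1) (hw : ‖w‖ = 1) (t : ℝ) :
    bst p w t * bst p w (-t) = 1 := by
  ext1 x
  refine V_ext ?_ ?_
  · rw [mul_apply_eq_comp, kak_fst, kak_fst, kak_snd, add_assoc, ← add_smul]
    simp only [inner_add_right, real_inner_smul_right, kak_one hp, kak_one hw, Real.cosh_neg,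
      Real.sinh_neg]
    refine add_eq_left.2 (smul_eq_zero_of_left ?_ _)
    linear_combination ⟪p, x.fst⟫ * Real.cosh_sq_sub_sinh_sq t
  · rw [mul_apply_eq_comp, kak_snd, kak_fst, kak_snd, add_assoc, ← add_smul]
    simp only [inner_add_right, real_inner_smul_right, kak_one hp, kak_one hw, Real.cosh_neg,
      Real.sinh_neg]
    refine add_eq_left.2 (smul_eq_zero_of_left ?_ _)
    linear_combination ⟪w, x.snd⟫ * Real.cosh_sq_sub_sinh_sq t

theorem kak_fix {p p' : E4} {w w' : E3} (hp : ⟪p, p'⟫ = 0) (hw : ⟪w, w'⟫ = 0) (t a b : ℝ) :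
    bst p w t (mkV (a • p') (b • w')) = mkV (a • p') (b • w') := by
  rw [bst_apply]
  simp [real_inner_smul_right, hp, hw]

theorem kak_move {p : E4} {w : E3} (hp : ‖p‖ = 1) (hw : ‖w‖ = 1) (t a b : ℝ) :
    bst p w t (mkV (a • p) (b • w)) = mkV ((Real.cosh t * a + Real.sinh t * b) • p)
      ((Real.sinh t * a + Real.cosh t * b) • w) := by
  refine V_ext ?_ ?_
  · rw [kak_fst]
    simp only [mkV_fst, mkV_snd, real_inner_smul_right, kak_one hp, kak_one hw, ← add_smul]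
    congr 1
    ring
  · rw [kak_snd]
    simp only [mkV_fst, mkV_snd, real_inner_smul_right, kak_one hp, kak_one hw, ← add_smul]
    congr 1
    ring

theorem kak_three {p : Fin 4 → E4} {w : Fin 3 → E3} (hp : Orthonormal ℝ p) (hw : Orthonormal ℝ w)
    (m : Fin 3 → ℝ) (i : Fin 3) (a b : ℝ) : bst3 p w m (mkV (a • p i.castSucc) (b • w i)) =
      mkV ((Real.cosh (m i) * a + Real.sinh (m i) * b) • p i.castSucc)
        ((Real.sinh (m i) * a + Real.cosh (m i) * b) • w i) := by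
  have h1 : ∀ j k : Fin 3, j ≠ k → ∀ t a b : ℝ,
      bst (p j.castSucc) (w j) t (mkV (a • p k.castSucc) (b • w k)) =
        mkV (a • p k.castSucc) (b • w k) := fun j k h =>
    kak_fix (hp.2 fun e => h (Fin.castSucc_injective _ e)) (hw.2 h)
  have h2 := fun j : Fin 3 => kak_move (hp.1 j.castSucc) (hw.1 j)
  change bst (p (0 : Fin 3).castSucc) (w 0) (m 0) (bst (p (1 : Fin 3).castSucc) (w 1) (m 1)
    (bst (p (2 : Fin 3).castSucc) (w 2) (m 2) _)) = _
  obtain rfl | rfl | rfl : i = 0 ∨ i = 1 ∨ i = 2 := by fin_cases i <;> simp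
  · rw [h1 2 0 (by decide), h1 1 0 (by decide), h2]
  · rw [h1 2 1 (by decide), h2, h1 0 1 (by decide)]
  · rw [h2, h1 1 2 (by decide), h1 0 2 (by decide)]

theorem bst3_p {p : Fin 4 → E4} {w : Fin 3 → E3} (hp : Orthonormal ℝ p) (hw : Orthonormal ℝ w)
    (m : Fin 3 → ℝ) (i : Fin 3) : bst3 p w m (mkV (p i.castSucc) 0) =
      mkV (Real.cosh (m i) • p i.castSucc) (Real.sinh (m i) • w i) := by
  simpa using kak_three hp hw m i 1 0

theorem bst3_w {p : Fin 4 → E4} {w : Fin 3 → E3} (hp : Orthonormal ℝ p) (hw : Orthonormal ℝ w)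
    (m : Fin 3 → ℝ) (i : Fin 3) : bst3 p w m (mkV 0 (w i)) =
      mkV (Real.sinh (m i) • p i.castSucc) (Real.cosh (m i) • w i) := by
  simpa using kak_three hp hw m i 0 1

theorem bst3_last {p : Fin 4 → E4} {w : Fin 3 → E3} (hp : Orthonormal ℝ p) (m : Fin 3 → ℝ) :
    bst3 p w m (mkV (p 3) 0) = mkV (p 3) 0 := by
  have h : ∀ j : Fin 4, j ≠ 3 → ∀ (v : E3) (t : ℝ), bst (p j) v t (mkV (p 3) 0) = mkV (p 3) 0 :=
    fun j h v t => by simpa using kak_fix (hp.2 h) (inner_zero_right v) t 1 1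
  change bst (p 0) (w 0) (m 0) (bst (p 1) (w 1) (m 1) (bst (p 2) (w 2) (m 2) _)) = _
  rw [h 2 (by decide), h 1 (by decide), h 0 (by decide)]

structure Polar (g : V →L[ℝ] V) (p : Fin 4 → E4) (w : Fin 3 → E3) (m : Fin 3 → ℝ)
    (k : V →L[ℝ] V) : Prop where
  hp : Orthonormal ℝ p
  hw : Orthonormal ℝ w
  m2 : 0 ≤ m 2
  m21 : m 2 ≤ m 1
  m10 : m 1 ≤ m 0
  fac : g = bst3 p w m * k
  orth : Orth k
  iso : ∀ x, ‖k x‖ = ‖x‖
  neg : ∀ w', (k (mkV 0 w')).fst = 0
  low : ∀ i, ∃ w', ‖w'‖ = 1 ∧ ‖g (mkV 0 w')‖ ≤ Real.exp (m i)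

theorem kak_svd (P : E3 →ₗ[ℝ] E4) : ∃ (b : OrthonormalBasis (Fin 3) ℝ E3) (p : Fin 4 → E4)
    (r : Fin 3 → ℝ), Orthonormal ℝ p ∧ Antitone r ∧ (∀ i, 0 ≤ r i) ∧
      ∀ i, P (b i) = r i • p i.castSucc := by
  have hT : (LinearMap.adjoint P ∘ₗ P).IsSymmetric := fun x y => by
    rw [LinearMap.comp_apply, LinearMap.comp_apply, LinearMap.adjoint_inner_left,
      LinearMap.adjoint_inner_right]
  have hn : Module.finrank ℝ E3 = 3 := by simp
  let b := hT.eigenvectorBasis hn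
  have h1 : ∀ i j, ⟪P (b i), P (b j)⟫ = hT.eigenvalues hn j * ⟪b i, b j⟫ := by
    intro i j
    rw [← LinearMap.adjoint_inner_right, ← LinearMap.comp_apply, hT.apply_eigenvectorBasis,
      real_inner_smul_right]
    rfl
  have h2 : ∀ i, ‖P (b i)‖ ^ 2 = hT.eigenvalues hn i := fun i => by
    rw [← real_inner_self_eq_norm_sq, h1, kak_one (b.orthonormal.1 i), mul_one]
  let v : Fin 4 → E4 := Fin.lastCases 0 fun i => ‖P (b i)‖⁻¹ • P (b i)
  have h3 : ∀ k, v k ≠ 0 → ∃ i : Fin 3, k = i.castSucc ∧ P (b i) ≠ 0 ∧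
      v k = ‖P (b i)‖⁻¹ • P (b i) := by
    intro k
    refine Fin.lastCases (fun h => absurd Fin.lastCases_last h) (fun i h => ?_) k
    have e : v i.castSucc = ‖P (b i)‖⁻¹ • P (b i) := Fin.lastCases_castSucc i
    exact ⟨i, rfl, fun h0 => h (by rw [e, h0, smul_zero]), e⟩
  have h4 : Orthonormal ℝ ({k | v k ≠ 0}.domRestrict v) := by
    refine ⟨fun k => ?_, fun k l hkl => ?_⟩
    · obtain ⟨i, -, h0, e⟩ := h3 k k.2
      change ‖v k‖ = 1
      rw [e, norm_smul, norm_inv, norm_norm, inv_mul_cancel₀ (norm_ne_zero_iff.2 h0)]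
    · obtain ⟨i, hi, -, e⟩ := h3 k k.2
      obtain ⟨j, hj, -, e'⟩ := h3 l l.2
      change ⟪v k, v l⟫ = 0
      have hij : i ≠ j := fun h => hkl (Subtype.ext (by rw [hi, hj, h]))
      rw [e, e', real_inner_smul_left, real_inner_smul_right, h1, b.orthonormal.2 hij, mul_zero,
        mul_zero, mul_zero]
  obtain ⟨p, hp⟩ := h4.exists_orthonormalBasis_extension_of_card_eq (by simp)
  refine ⟨b, p, fun i => ‖P (b i)‖, p.orthonormal, fun i j hij => ?_, fun i => norm_nonneg _,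
    fun i => ?_⟩
  · refine (sq_le_sq₀ (norm_nonneg _) (norm_nonneg _)).1 ?_
    rw [h2, h2]
    exact hT.eigenvalues_antitone hn hij
  · by_cases h0 : P (b i) = 0
    · simp only [h0, norm_zero, zero_smul]
    · have e : v i.castSucc = ‖P (b i)‖⁻¹ • P (b i) := Fin.lastCases_castSucc i
      have hn0 := norm_ne_zero_iff.2 h0
      rw [hp _ (by
        change v _ ≠ 0
        rw [e]
        exact smul_ne_zero (inv_ne_zero hn0) h0), e, smul_inv_smul₀ hn0]

theorem kak_iso {k : V →L[ℝ] V} (hk : Orth k) (b : OrthonormalBasis (Fin 3) ℝ E3) {w : Fin 3 → E3}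
    (hw : Orthonormal ℝ w) (h : ∀ i, k (mkV 0 (b i)) = mkV 0 (w i)) :
    (∀ x, ‖k x‖ = ‖x‖) ∧ ∀ w', (k (mkV 0 w')).fst = 0 := by
  have h1 : ∀ w', (k (mkV 0 w')).fst = 0 := by
    have e : (fstV ∘L k ∘L prV 0 (ContinuousLinearMap.id ℝ E3)).toLinearMap = 0 :=
      b.toBasis.ext fun i => congrArg WithLp.fst (h i)
    exact fun w' => LinearMap.congr_fun e w'
  obtain ⟨c, hc⟩ := Orthonormal.exists_orthonormalBasis_extension_of_card_eq (𝕜 := ℝ) (v := w)
    (s := univ) (by simp) (hw.comp _ Subtype.val_injective)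
  have h2 : ∀ u, (k (mkV u 0)).snd = 0 := by
    intro u
    rw [← c.sum_repr' (k (mkV u 0)).snd]
    refine Finset.sum_eq_zero fun i _ => smul_eq_zero_of_left ?_ _
    have e := hk (mkV 0 (b i)) (mkV u 0)
    rw [h, qV_apply, qV_apply] at e
    rw [hc i (mem_univ i)]
    simpa using e
  refine ⟨fun x => ?_, h1⟩
  have e : k x = k (mkV x.fst 0) + k (mkV 0 x.snd) := by
    rw [← map_add, mkV_add, add_zero, zero_add, mkV_eta]
  have e1 := hk (mkV x.fst 0) (mkV x.fst 0)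
  have e2 := hk (mkV 0 x.snd) (mkV 0 x.snd)
  rw [qV_self, qV_self, h2] at e1
  rw [qV_self, qV_self, h1] at e2
  rw [← sq_eq_sq₀ (norm_nonneg _) (norm_nonneg _), normV_sq, normV_sq, e, WithLp.add_fst,
    WithLp.add_snd, h1, h2, add_zero, zero_add]
  simp only [mkV_fst, mkV_snd, norm_zero] at e1 e2
  linarith

/-- `P w = (g (mkV 0 w)).fst`, `Q w = (g (mkV 0 w)).snd`, `⟪Q w, Q w'⟫ = ⟪w, w'⟫ + ⟪P w, P w'⟫`.
Take the eigenvector basis `w'` of the symmetric map `adjoint P ∘ P`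
(`LinearMap.IsSymmetric.eigenvectorBasis`, `eigenvalues_antitone`), `m i = arsinh ‖P (w' i)‖`,
`w i = (cosh (m i))⁻¹ • Q (w' i)`; the normalised nonzero `P (w' i)` are orthonormal, extend them
(`Orthonormal.exists_orthonormalBasis_extension_of_card_eq`, index set the `castSucc i` with
`P (w' i) ≠ 0`). `k` is the product of the inverse boosts with `g`; it sends `mkV 0 (w' i)` to
`mkV 0 (w i)`, so it preserves the negative part, maps it onto itself, hence preserves its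
`qV`-orthogonal, the positive part, and is isometric on both. `sinh² + cosh² = cosh 2m ≤ exp 2m`. -/
theorem exists_polar {g : V →L[ℝ] V} (hg : Orth g) : ∃ p w m k, Polar g p w m k := by
  let ι : E3 →L[ℝ] V := prV 0 (ContinuousLinearMap.id ℝ E3)
  obtain ⟨b, p, r, hp, hr, hr0, hP⟩ := kak_svd (fstV ∘L g ∘L ι).toLinearMap
  have h1 : ∀ i, (g (mkV 0 (b i))).fst = r i • p i.castSucc := hP
  let m : Fin 3 → ℝ := fun i => Real.arsinh (r i)
  have hs : ∀ i, Real.sinh (m i) = r i := fun i => Real.sinh_arsinh _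
  have hc : ∀ i, Real.cosh (m i) ≠ 0 := fun i => (Real.cosh_pos _).ne'
  let w : Fin 3 → E3 := fun i => (Real.cosh (m i))⁻¹ • (g (mkV 0 (b i))).snd
  have h2 : ∀ i j, ⟪(g (mkV 0 (b i))).snd, (g (mkV 0 (b j))).snd⟫ =
      r i * r j * ⟪p i.castSucc, p j.castSucc⟫ + ⟪b i, b j⟫ := by
    intro i j
    have e := hg (mkV 0 (b i)) (mkV 0 (b j))
    rw [qV_apply, qV_apply, h1, h1, real_inner_smul_left, real_inner_smul_right, mkV_fst, mkV_fst,
      mkV_snd, mkV_snd, inner_zero_left] at e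
    linarith
  have hw : Orthonormal ℝ w := by
    rw [orthonormal_iff_ite]
    intro i j
    rw [real_inner_smul_left, real_inner_smul_right, h2]
    split_ifs with h
    · subst h
      rw [kak_one (hp.1 _), kak_one (b.orthonormal.1 _), ← hs, mul_one, ← sq, ← Real.cosh_sq]
      field_simp [hc i]
    · rw [hp.2 fun e => h (Fin.castSucc_injective _ e), b.orthonormal.2 h]
      ring
  have h3 : ∀ i, g (mkV 0 (b i)) =
      mkV (Real.sinh (m i) • p i.castSucc) (Real.cosh (m i) • w i) := fun i =>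
    V_ext (by rw [h1, hs, mkV_fst]) (by rw [mkV_snd, smul_inv_smul₀ (hc i)])
  have ho : ∀ (i : Fin 4) (j : Fin 3) (t : ℝ), Orth (bst (p i) (w j) t) := fun i j t =>
    bst_orth (hp.1 i) (hw.1 j) t
  have hi : ∀ (i : Fin 4) (j : Fin 3) (t : ℝ) (y : V →L[ℝ] V),
      bst (p i) (w j) t * (bst (p i) (w j) (-t) * y) = y := fun i j t y => by
    rw [← mul_assoc, bst_mul_neg (hp.1 i) (hw.1 j), one_mul]
  let k := bst (p 2) (w 2) (-m 2) * (bst (p 1) (w 1) (-m 1) * (bst (p 0) (w 0) (-m 0) * g))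
  have hk : Orth k := (ho _ _ _).mul ((ho _ _ _).mul ((ho _ _ _).mul hg))
  have hf : g = bst3 p w m * k := by
    rw [bst3, mul_assoc, hi, mul_assoc, hi, hi]
  have h4 : ∀ i, k (mkV 0 (b i)) = mkV 0 (w i) := by
    intro i
    refine (((ho 0 0 (m 0)).mul (ho 1 1 (m 1))).mul (ho 2 2 (m 2))).injective ?_
    change (bst3 p w m * k) _ = bst3 p w m _
    rw [← hf, h3, bst3_w hp hw]
  obtain ⟨h5, h6⟩ := kak_iso hk b hw h4
  refine ⟨p, w, m, k, hp, hw, Real.arsinh_nonneg_iff.2 (hr0 2),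
    Real.arsinh_le_arsinh.2 (hr (by decide)), Real.arsinh_le_arsinh.2 (hr (by decide)), hf, hk, h5,
    h6, fun i => ⟨b i, b.orthonormal.1 i, ?_⟩⟩
  refine (sq_le_sq₀ (norm_nonneg _) (Real.exp_pos _).le).1 ?_
  rw [normV_sq, h3, mkV_fst, mkV_snd, norm_smul, norm_smul, hp.1, hw.1, mul_one, mul_one,
    Real.norm_eq_abs, Real.norm_eq_abs, sq_abs, sq_abs, ← Real.cosh_add_sinh]
  have h7 : 0 ≤ Real.sinh (m i) := hs i ▸ hr0 i
  nlinarith [mul_nonneg h7 (Real.cosh_pos (m i)).le]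

end H42
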