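import Pool.Agent.Lib.MP_320961_gt.Kak

/-! Lifts of boosts and of isometries. -/

open scoped RealInnerProductSpace ENNReal NNReal
open Set Metric MeasureTheory Filter Topology

noncomputable section

namespace H42

theorem kaks_AA {p : E4} (hp : ‖p‖ = 1) (s : S) : cl (mkV p 0) (cl (mkV p 0) s) = s := by
  rw [cl_cl, qV_self]; simp [hp]

theorem kaks_BB {w : E3} (hw : ‖w‖ = 1) (s : S) : cl (mkV 0 w) (cl (mkV 0 w) s) = -s := by
  rw [cl_cl, qV_self]; simp [hw]

theorem kaks_AB (p : E4) (w : E3) (s : S) :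
    cl (mkV p 0) (cl (mkV 0 w) s) = -cl (mkV 0 w) (cl (mkV p 0) s) := by
  have h := cl_anti (mkV p 0) (mkV 0 w) s
  rw [qV_apply] at h
  simp only [mkV_fst, mkV_snd, inner_zero_right, inner_zero_left, sub_zero, mul_zero,
    zero_smul] at h
  exact eq_neg_of_add_eq_zero_left h

theorem kaks_J (p : E4) (w : E3) (s : S) : JJ p w s = cl (mkV 0 w) (cl (mkV p 0) s) := rfl

theorem kaks_AJ {p : E4} (hp : ‖p‖ = 1) (w : E3) (s : S) :
    cl (mkV p 0) (JJ p w s) = -cl (mkV 0 w) s := by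
  rw [kaks_J, kaks_AB, kaks_AA hp]

theorem kaks_BJ (p : E4) {w : E3} (hw : ‖w‖ = 1) (s : S) :
    cl (mkV 0 w) (JJ p w s) = -cl (mkV p 0) s := by
  rw [kaks_J, kaks_BB hw]

theorem kaks_JJ {p : E4} {w : E3} (hp : ‖p‖ = 1) (hw : ‖w‖ = 1) (s : S) :
    JJ p w (JJ p w s) = s := by
  rw [kaks_J p w (JJ p w s), kaks_AJ hp, map_neg, kaks_BB hw, neg_neg]

theorem kaks_JX (p : E4) (w : E3) (x : V) (s : S) :
    JJ p w (cl x s) = (2 * ⟪p, x.fst⟫) • cl (mkV 0 w) s + (2 * ⟪w, x.snd⟫) • cl (mkV p 0) s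
      + cl x (JJ p w s) := by
  have h1 := cl_anti (mkV p 0) x s
  have h2 := cl_anti (mkV 0 w) x (cl (mkV p 0) s)
  rw [qV_apply] at h1 h2
  simp only [mkV_fst, mkV_snd, inner_zero_left, sub_zero, zero_sub] at h1 h2
  rw [kaks_J, kaks_J, eq_sub_of_add_eq h1, map_sub, map_smul, eq_sub_of_add_eq h2]
  module

theorem kaks_qJ (p : E4) (w : E3) (s t : S) : qS (JJ p w s) t = -qS s (JJ p w t) := by
  rw [kaks_J, kaks_J, cl_skew, cl_skew, kaks_AB, map_neg, neg_neg]

theorem kaks_bstS (p : E4) (w : E3) (t : ℝ) (s : S) :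
    bstS p w t s = Real.cosh (t / 2) • s + Real.sinh (t / 2) • JJ p w s := rfl

/-- `J = JJ p w` has `J² = 1`, anticommutes with `cl (mkV p 0)`, `cl (mkV 0 w)`, commutes with
`cl x` for `x` orthogonal to both, and `qS (J s) t = -qS s (J t)`. -/
theorem lift_bst {p : E4} {w : E3} (hp : ‖p‖ = 1) (hw : ‖w‖ = 1) (t : ℝ) :
    Lift (bst p w t) (bstS p w t) := by
  have h1 : Real.cosh (t / 2) ^ 2 = Real.sinh (t / 2) ^ 2 + 1 := Real.cosh_sq _
  refine ⟨bst_orth hp hw t, fun x s => ?_, Or.inl fun s u => ?_⟩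
  · have hc : Real.cosh t - 1 = 2 * Real.sinh (t / 2) ^ 2 := by
      have := Real.cosh_two_mul (t / 2)
      rw [show 2 * (t / 2) = t by ring] at this
      linarith
    have hs : Real.sinh t = 2 * Real.sinh (t / 2) * Real.cosh (t / 2) := by
      have := Real.sinh_two_mul (t / 2)
      rwa [show 2 * (t / 2) = t by ring] at this
    rw [kaks_bstS, kaks_bstS, bst_apply, kaks_JX, hc, hs]
    simp only [map_add, map_smul, add_apply, smul_apply,
      kaks_AJ hp, kaks_BJ p hw]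
    match_scalars
    · ring
    · linear_combination (-2 * Real.sinh (t / 2) * ⟪p, x.fst⟫) * h1
    · linear_combination (-2 * Real.sinh (t / 2) * ⟪w, x.snd⟫) * h1
    · ring
  · rw [kaks_bstS, kaks_bstS]
    simp only [map_add, map_smul, LinearMap.add_apply, LinearMap.smul_apply, smul_eq_mul,
      kaks_qJ, kaks_JJ hp hw]
    linear_combination (qS s u) * h1

theorem bstS_mul_neg {p : E4} {w : E3} (hp : ‖p‖ = 1) (hw : ‖w‖ = 1) (t : ℝ) :
    bstS p w t * bstS p w (-t) = 1 := by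
  have h1 : Real.cosh (t / 2) ^ 2 = Real.sinh (t / 2) ^ 2 + 1 := Real.cosh_sq _
  ext1 s
  change bstS p w t (bstS p w (-t) s) = s
  rw [kaks_bstS, kaks_bstS, neg_div, Real.cosh_neg, Real.sinh_neg]
  simp only [map_add, map_smul, kaks_JJ hp hw]
  match_scalars
  · linear_combination h1
  · ring

/-- The images of the standard basis of the negative part are `mkV 0 w_i` with `w_i` orthonormal;
`cl_three` twice gives `h (thS s) = ± thS (h s)`; so `⟪h s, h t⟫ = ± ⟪s, t⟫` with one sign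
(`qS_thS`, `Lift.conf`); take norms. -/
theorem lift_iso {k : V →L[ℝ] V} {h : S →L[ℝ] S} (L : Lift k h)
    (hk : ∀ w', (k (mkV 0 w')).fst = 0) (s : S) : ‖h s‖ = ‖s‖ := by
  have hkw : ∀ w', k (mkV 0 w') = mkV 0 (k (mkV 0 w')).snd := fun w' => V_ext (hk w') rfl
  have hin : ∀ a b : E3, ⟪(k (mkV 0 a)).snd, (k (mkV 0 b)).snd⟫ = ⟪a, b⟫ := by
    intro a b
    have := L.orth (mkV 0 a) (mkV 0 b)
    rw [qV_apply, qV_apply, hk a] at this
    simpa using this
  have hno : ∀ a : E3, ‖a‖ = 1 → ‖(k (mkV 0 a)).snd‖ = 1 := by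
    intro a ha
    have := hin a a
    rw [real_inner_self_eq_norm_sq, real_inner_self_eq_norm_sq, ha] at this
    exact (sq_eq_sq₀ (norm_nonneg _) zero_le_one).1 this
  have n0 : ‖(EuclideanSpace.single 0 1 : E3)‖ = 1 := by simp
  have n1 : ‖(EuclideanSpace.single 1 1 : E3)‖ = 1 := by simp
  have n2 : ‖(EuclideanSpace.single 2 1 : E3)‖ = 1 := by simp
  have i01 : ⟪(EuclideanSpace.single 0 1 : E3), (EuclideanSpace.single 1 1 : E3)⟫ = 0 := by
    simp [inner3]
  have i02 : ⟪(EuclideanSpace.single 0 1 : E3), (EuclideanSpace.single 2 1 : E3)⟫ = 0 := by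
    simp [inner3]
  have i12 : ⟪(EuclideanSpace.single 1 1 : E3), (EuclideanSpace.single 2 1 : E3)⟫ = 0 := by
    simp [inner3]
  obtain ⟨e, he, h3⟩ := cl_three n0 n1 n2 i01 i02 i12
  obtain ⟨e', he', h3'⟩ := cl_three (hno _ n0) (hno _ n1) (hno _ n2) ((hin _ _).trans i01)
    ((hin _ _).trans i02) ((hin _ _).trans i12)
  have key : e • h (thS s) = e' • thS (h s) := by
    rw [← map_smul, ← h3, L.eqv, L.eqv, L.eqv, ← h3', ← hkw, ← hkw, ← hkw]
  have k2 : e * qS (h (thS s)) (h s) = e' * ‖h s‖ ^ 2 := by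
    have := congrArg (fun z => qS z (h s)) key
    simpa only [map_smul, LinearMap.smul_apply, smul_eq_mul, qS_thS,
      real_inner_self_eq_norm_sq] using this
  have k3 := L.conf.abs (thS s) s
  rw [qS_thS, real_inner_self_eq_norm_sq, abs_of_nonneg (sq_nonneg ‖s‖)] at k3
  have ae : |e| = 1 := by rcases he with rfl | rfl <;> simp
  have ae' : |e'| = 1 := by rcases he' with rfl | rfl <;> simp
  have k4 := congrArg abs k2
  rw [abs_mul, abs_mul, ae, ae', one_mul, one_mul, k3, abs_of_nonneg (sq_nonneg _)] at k4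
  exact (sq_eq_sq₀ (norm_nonneg _) (norm_nonneg _)).1 k4.symm

/-- `hk` is the product of the inverse lifted boosts with `h`; it lifts `k`. -/
theorem Polar.factor {g k : V →L[ℝ] V} {h : S →L[ℝ] S} {p : Fin 4 → E4} {w : Fin 3 → E3}
    {m : Fin 3 → ℝ} (P : Polar g p w m k) (L : Lift g h) :
    ∃ hk : S →L[ℝ] S, h = bstS3 p w m * hk ∧ ∀ s, ‖hk s‖ = ‖s‖ := by
  have hp := P.hp.1
  have hw := P.hw.1
  have L' := (lift_bst (hp 2) (hw 2) (-m 2)).mul ((lift_bst (hp 1) (hw 1) (-m 1)).mul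
    ((lift_bst (hp 0) (hw 0) (-m 0)).mul L))
  have hb : ∀ (a : Fin 4) (b : Fin 3) (t : ℝ) (z : V →L[ℝ] V),
      bst (p a) (w b) (-t) * (bst (p a) (w b) t * z) = z := by
    intro a b t z
    have := bst_mul_neg (hp a) (hw b) (-t)
    rw [neg_neg] at this
    rw [← mul_assoc, this, one_mul]
  have hb' : ∀ (a : Fin 4) (b : Fin 3) (t : ℝ) (z : S →L[ℝ] S),
      bstS (p a) (w b) t * (bstS (p a) (w b) (-t) * z) = z := by
    intro a b t z
    rw [← mul_assoc, bstS_mul_neg (hp a) (hw b) t, one_mul]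
  have e : bst (p 2) (w 2) (-m 2) * (bst (p 1) (w 1) (-m 1) * (bst (p 0) (w 0) (-m 0) * g)) = k := by
    rw [P.fac, bst3, mul_assoc, mul_assoc, hb, hb, hb]
  rw [e] at L'
  refine ⟨_, ?_, lift_iso L' P.neg⟩
  rw [bstS3, mul_assoc, mul_assoc, hb', hb', hb']

end H42
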