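import Pool.Agent.Lib.MP_320961_gt.Alg

/-! Existence and uniqueness of lifts. -/

open scoped RealInnerProductSpace ENNReal NNReal
open Set Metric MeasureTheory Filter Topology

noncomputable section

namespace H42

theorem lifts_cs : ContinuousSMul ℝ V := IsBoundedSMul.continuousSMul

attribute [local instance] lifts_cs

/-- The reflection in `v`. -/
def lifts_rf (v : V) : V →L[ℝ] V := 1 - ((2 / qV v v) • innerSL ℝ (thV v)).smulRight v

theorem lifts_rf_apply (v x : V) : lifts_rf v x = x - (2 / qV v v * qV v x) • v := by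
  simp [lifts_rf, qV_eq]

theorem lifts_rf_orth {v : V} (hv : qV v v ≠ 0) : Orth (lifts_rf v) := by
  intro x y
  simp only [lifts_rf_apply, map_sub, map_smul, LinearMap.sub_apply, LinearMap.smul_apply,
    smul_eq_mul, qV_comm x v]
  field_simp
  ring

theorem lifts_rf_self {v : V} (hv : qV v v ≠ 0) : lifts_rf v v = -v := by
  rw [lifts_rf_apply, div_mul_cancel₀ _ hv, two_smul]
  abel

theorem lifts_rf_fix {v x : V} (hx : qV v x = 0) : lifts_rf v x = x := by
  rw [lifts_rf_apply, hx, mul_zero, zero_smul, sub_zero]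

theorem lifts_rf_rf {v : V} (hv : qV v v ≠ 0) : lifts_rf v * lifts_rf v = 1 := by
  ext1 x
  change lifts_rf v (lifts_rf v x) = x
  rw [lifts_rf_apply v x, map_sub, map_smul, lifts_rf_self hv, lifts_rf_apply v x, smul_neg]
  abel

theorem lifts_rf_sub {x y : V} (hxy : qV x x = qV y y) (hv : qV (x - y) (x - y) ≠ 0) :
    lifts_rf (x - y) x = y := by
  have e : 2 / qV (x - y) (x - y) * qV (x - y) x = 1 := by
    rw [div_mul_eq_mul_div, div_eq_one_iff_eq hv]
    simp only [map_sub, LinearMap.sub_apply, qV_comm y x]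
    linarith
  rw [lifts_rf_apply, e, one_smul]
  abel

theorem lifts_rf_lift {v : V} (hv : qV v v ≠ 0) :
    Lift (-lifts_rf v) ((√|qV v v|)⁻¹ • cl v) := by
  refine ⟨(lifts_rf_orth hv).neg, fun x s => ?_, ?_⟩
  · have e : cl ((-lifts_rf v) x) (cl v s) = cl v (cl x s) := by
      have h1 := cl_anti v x s
      simp only [neg_apply, lifts_rf_apply, map_neg, map_sub, map_smul,
        sub_apply, smul_apply, cl_cl, smul_smul]
      rw [show 2 / qV v v * qV v x * qV v v = 2 * qV v x by field_simp, ← h1]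
      abel
    simp only [smul_apply, map_smul, e]
  · have hp : 0 < |qV v v| := abs_pos.2 hv
    have e : (√|qV v v|)⁻¹ * (√|qV v v|)⁻¹ = |qV v v|⁻¹ := by
      rw [← mul_inv, Real.mul_self_sqrt hp.le]
    have key : ∀ s t, qS (((√|qV v v|)⁻¹ • cl v) s) (((√|qV v v|)⁻¹ • cl v) t) =
        -(|qV v v|⁻¹ * qV v v * qS s t) := by
      intro s t
      simp only [smul_apply, map_smul, LinearMap.smul_apply, smul_eq_mul, qS_cl]
      rw [← e]
      ring
    rcases lt_or_gt_of_ne hv with h | h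
    · refine Or.inl fun s t => ?_
      rw [key, abs_of_neg h]
      field_simp
    · refine Or.inr fun s t => ?_
      rw [key, abs_of_pos h]
      field_simp

/-- `g` or `-g` has a lift. -/
def lifts_P (g : V →L[ℝ] V) : Prop := ∃ h, Lift g h ∨ Lift (-g) h

theorem lifts_P_mul {g g' : V →L[ℝ] V} (h : lifts_P g) (h' : lifts_P g') : lifts_P (g * g') := by
  obtain ⟨k, hk⟩ := h
  obtain ⟨k', hk'⟩ := h'
  refine ⟨k * k', ?_⟩
  rcases hk with hk | hk <;> rcases hk' with hk' | hk' <;> have := hk.mul hk'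
  · exact Or.inl this
  · exact Or.inr (by rwa [show g * -g' = -(g * g') from by ext1 x; exact map_neg g (g' x)] at this)
  · exact Or.inr this
  · refine Or.inl ?_
    rwa [show -g * -g' = g * g' from by
      ext1 x
      change -g (-g' x) = g (g' x)
      rw [map_neg, neg_neg]] at this

theorem lifts_P_of_rf {v : V} (hv : qV v v ≠ 0) {g : V →L[ℝ] V} (h : lifts_P (lifts_rf v * g)) :
    lifts_P g := by
  have := lifts_P_mul ⟨_, Or.inr (lifts_rf_lift hv)⟩ h
  rwa [← mul_assoc, lifts_rf_rf hv, one_mul] at this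

/-- The standard basis of `V`. -/
def lifts_e : Fin 4 ⊕ Fin 3 → V
  | .inl i => mkV (ee i) 0
  | .inr j => mkV 0 (EuclideanSpace.single j 1)

theorem lifts_e_ne (i : Fin 4 ⊕ Fin 3) : qV (lifts_e i) (lifts_e i) ≠ 0 := by
  rcases i with i | i <;> simp [lifts_e, qV_self, ee]

theorem lifts_e_orth {i j : Fin 4 ⊕ Fin 3} (h : i ≠ j) : qV (lifts_e i) (lifts_e j) = 0 := by
  rcases i with i | i <;> rcases j with j | j
  · have : i ≠ j := fun e => h (by rw [e])
    simp [lifts_e, qV_apply, ee, EuclideanSpace.inner_single_left, this]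
  · simp [lifts_e, qV_apply]
  · simp [lifts_e, qV_apply]
  · have : i ≠ j := fun e => h (by rw [e])
    simp [lifts_e, qV_apply, EuclideanSpace.inner_single_left, this]

theorem lifts_e_span (x : V) : x = x.fst 0 • lifts_e (.inl 0) + x.fst 1 • lifts_e (.inl 1) +
    x.fst 2 • lifts_e (.inl 2) + x.fst 3 • lifts_e (.inl 3) + x.snd 0 • lifts_e (.inr 0) +
    x.snd 1 • lifts_e (.inr 1) + x.snd 2 • lifts_e (.inr 2) := by
  refine V_ext ?_ ?_ <;> ext i <;> fin_cases i <;> simp [lifts_e, ee]

theorem lifts_ind (A : Finset (Fin 4 ⊕ Fin 3)) : ∀ g : V →L[ℝ] V, Orth g →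
    (∀ j, j ∉ A → g (lifts_e j) = lifts_e j) → lifts_P g := by
  classical
  induction A using Finset.induction_on with
  | empty =>
    intro g _ hf
    have e : g = 1 := by
      ext1 x
      change g x = x
      conv_lhs => rw [lifts_e_span x]
      simp only [map_add, map_smul, hf _ (Finset.notMem_empty _)]
      exact (lifts_e_span x).symm
    exact ⟨1, Or.inl (e ▸ Lift.one)⟩
  | insert k A hk ih =>
    intro g hg hf
    have hxy : qV (g (lifts_e k)) (g (lifts_e k)) = qV (lifts_e k) (lifts_e k) := hg _ _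
    have hy := lifts_e_ne k
    have ho : ∀ j, j ∉ A → j ≠ k → g (lifts_e j) = lifts_e j ∧
        qV (g (lifts_e k)) (lifts_e j) = 0 ∧ qV (lifts_e k) (lifts_e j) = 0 := by
      intro j hj hjk
      have h1 := hf j (by simp [hj, hjk])
      have h2 := lifts_e_orth (Ne.symm hjk)
      exact ⟨h1, by rw [← h1, hg, h2], h2⟩
    by_cases h1 : qV (g (lifts_e k) - lifts_e k) (g (lifts_e k) - lifts_e k) = 0
    · have h2 : qV (g (lifts_e k) - -lifts_e k) (g (lifts_e k) - -lifts_e k) ≠ 0 := by
        intro h2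
        simp only [map_sub, map_neg, LinearMap.sub_apply, LinearMap.neg_apply] at h1 h2
        exact hy (by linarith)
      refine lifts_P_of_rf h2 (lifts_P_of_rf hy (ih _
        ((lifts_rf_orth hy).mul ((lifts_rf_orth h2).mul hg)) fun j hj => ?_))
      change lifts_rf _ (lifts_rf _ (g (lifts_e j))) = _
      by_cases hjk : j = k
      · subst hjk
        rw [lifts_rf_sub (by simpa using hxy) h2, map_neg, lifts_rf_self hy, neg_neg]
      · obtain ⟨e1, e2, e3⟩ := ho j hj hjk
        rw [e1, lifts_rf_fix (v := g (lifts_e k) - -lifts_e k) (by simp [e2, e3]), lifts_rf_fix e3]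
    · refine lifts_P_of_rf h1 (ih _ ((lifts_rf_orth h1).mul hg) fun j hj => ?_)
      change lifts_rf _ (g (lifts_e j)) = _
      by_cases hjk : j = k
      · subst hjk
        exact lifts_rf_sub hxy h1
      · obtain ⟨e1, e2, e3⟩ := ho j hj hjk
        rw [e1, lifts_rf_fix (by simp [e2, e3])]

/-- Cartan-Dieudonne. For `qV v v ≠ 0` the map `(√|qV v v|)⁻¹ • cl v` lifts minus the reflection
in `v` (`cl_anti`, `qS_cl`). The set of `g` with `∃ h, Lift g h ∨ Lift (-g) h` is closed under
products. Let `e 0, …, e 6` be the standard basis (`qV`-orthogonal, norms `± 1`). If `g` fixes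
`e j` for `j < k`, put `x = g (e k)`, `y = e k`; `q(x-y) + q(x+y) = 4 q(y) ≠ 0`; compose with the
reflection in `x - y`, or with the reflections in `x + y` and `y`. Reflections are involutions. -/
theorem exists_lift {g : V →L[ℝ] V} (hg : Orth g) : ∃ h, Lift g h ∨ Lift (-g) h := by
  exact lifts_ind Finset.univ g hg fun j hj => absurd (Finset.mem_univ j) hj

/-- Schur. A linear `c` commuting with all `cl x` commutes with `thS` (`cl_three` for the standard
basis), so `c (mkS (ee 0) 0) = mkS α 0`. The relations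
`cl (mkV (ee k) 0) (cl (mkV (ee 0) 0) s₀) = cl (mkV 0 w_k) s₀` for `s₀ = mkS (ee 0) 0`, `k = 1, 2`
force `α = a • ee 0`; every `s` is `t • s₀ + cl x s₀`. -/
theorem schur (c : S →ₗ[ℝ] S) (hc : ∀ x s, c (cl x s) = cl x (c s)) : ∃ a : ℝ, ∀ s, c s = a • s := by
  have hth : ∀ s, c (thS s) = thS (c s) := by
    obtain ⟨e, he, h3⟩ := cl_three (w₀ := EuclideanSpace.single 0 1) (w₁ := EuclideanSpace.single 1 1)
      (w₂ := EuclideanSpace.single 2 1) (by simp) (by simp) (by simp) (by simp [inner3])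
      (by simp [inner3]) (by simp [inner3])
    intro s
    have h1 : e • c (thS s) = e • thS (c s) := by rw [← map_smul, ← h3, ← h3, hc, hc, hc]
    have h0 : e ≠ 0 := by rcases he with rfl | rfl <;> norm_num
    exact smul_right_injective _ h0 h1
  obtain ⟨z, hz⟩ : ∃ z, z = c (mkS (ee 0) 0) := ⟨_, rfl⟩
  have h1 : thS z = z := by
    rw [hz, ← hth]
    simp [thS_apply]
  have h2 : ∀ i, z.snd i = 0 := by
    intro i
    have := congrArg (fun s : S => s.snd i) h1
    simp only [thS_apply, mkS_snd, PiLp.neg_apply] at this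
    linarith
  have r1 : cl (mkV (ee 1) 0) (cl (mkV (ee 0) 0) (mkS (ee 0) 0)) =
      cl (mkV 0 (EuclideanSpace.single 0 1)) (mkS (ee 0) 0) := by
    refine S_ext ?_ ?_ <;> ext i <;> fin_cases i <;> simp [cl_apply, cl0, qm, cj, im3, ee]
  have r2 : cl (mkV (ee 2) 0) (cl (mkV (ee 0) 0) (mkS (ee 0) 0)) =
      cl (mkV 0 (EuclideanSpace.single 1 1)) (mkS (ee 0) 0) := by
    refine S_ext ?_ ?_ <;> ext i <;> fin_cases i <;> simp [cl_apply, cl0, qm, cj, im3, ee]
  have q1 := congrArg c r1
  have q2 := congrArg c r2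
  rw [hc, hc, hc, ← hz] at q1 q2
  have a2 : z.fst 2 = 0 := by
    have := congrArg (fun s : S => s.fst 3) q1
    simp [cl_apply, cl0, qm, cj, im3, ee, h2] at this
    linarith
  have a3 : z.fst 3 = 0 := by
    have := congrArg (fun s : S => s.fst 2) q1
    simp [cl_apply, cl0, qm, cj, im3, ee, h2] at this
    linarith
  have a1 : z.fst 1 = 0 := by
    have := congrArg (fun s : S => s.fst 3) q2
    simp [cl_apply, cl0, qm, cj, im3, ee, h2] at this
    linarith
  have h3 : z = z.fst 0 • mkS (ee 0) 0 := by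
    refine S_ext ?_ ?_ <;> ext i <;> fin_cases i <;> simp [ee, h2, a1, a2, a3]
  refine ⟨z.fst 0, fun s => ?_⟩
  have h4 : s = s.fst 0 • mkS (ee 0) 0 + cl (mkV (cj s.snd) (pu s.fst)) (mkS (ee 0) 0) := by
    refine S_ext ?_ ?_ <;> ext i <;> fin_cases i <;> simp [cl_apply, cl0, qm, cj, im3, pu, ee]
  generalize z.fst 0 = a at h3
  conv_lhs => rw [h4]
  conv_rhs => rw [h4]
  rw [map_add, map_smul, hc, ← hz, h3, map_smul, smul_add, smul_comm]

theorem lift_unique {g : V →L[ℝ] V} {h h' : S →L[ℝ] S} (L : Lift g h) (L' : Lift g h') :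
    h' = h ∨ h' = -h := by
  let E : S ≃ₗ[ℝ] S := LinearEquiv.ofBijective h.toLinearMap ⟨L.conf.injective, L.conf.surjective⟩
  let c : S →ₗ[ℝ] S := E.symm.toLinearMap ∘ₗ h'.toLinearMap
  have hc : ∀ s, h (c s) = h' s := fun s => E.apply_symm_apply (h' s)
  obtain ⟨a, ha⟩ := schur c fun x s => L.conf.injective (by rw [hc, L.eqv, hc, L'.eqv])
  have h1 : ∀ s, h' s = a • h s := fun s => by rw [← hc, ha, map_smul]
  have h0 : qS (mkS (ee 0) 0) (mkS (ee 0) 0) = 1 := by simp [qS_self, norm_ee]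
  have h2 := L'.conf.abs (mkS (ee 0) 0) (mkS (ee 0) 0)
  have h3 := L.conf.abs (mkS (ee 0) 0) (mkS (ee 0) 0)
  rw [h1] at h2
  simp only [map_smul, LinearMap.smul_apply, smul_eq_mul, abs_mul] at h2
  rw [h3, h0, abs_one, mul_one, abs_mul_abs_self] at h2
  rcases mul_self_eq_one_iff.1 h2 with rfl | rfl
  · exact Or.inl (by ext1 s; rw [h1, one_smul])
  · exact Or.inr (by ext1 s; rw [h1, neg_one_smul]; rfl)

end H42
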