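import Pool.Agent.Lib.MP_320961_gt.Defs

/-! Projection on a pointed convex cone. -/

open scoped RealInnerProductSpace ENNReal NNReal
open Set Metric MeasureTheory Filter Topology

noncomputable section

namespace H42

theorem proj_lip {b b' p p' : E4} (h : ⟪b - p, p' - p⟫ ≤ 0) (h' : ⟪b' - p', p - p'⟫ ≤ 0) :
    ‖p - p'‖ ≤ ‖b - b'‖ := by
  have h1 : ‖p - p'‖ * ‖p - p'‖ =
      ⟪b - b', p - p'⟫ + ⟪b - p, p' - p⟫ + ⟪b' - p', p - p'⟫ := by
    rw [← real_inner_self_eq_norm_mul_norm, ← neg_sub p p', inner_neg_right]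
    simp only [inner_sub_left]
    ring
  have h2 := real_inner_le_norm (b - b') (p - p')
  rcases (norm_nonneg (p - p')).eq_or_lt with h0 | h0
  · rw [← h0]
    exact norm_nonneg _
  · exact le_of_mul_le_mul_right (by linarith) h0

/-- `Kc = {b | (c/2) ‖b - e‖ ≤ ⟪e, b⟫ - 1}` is closed, convex, contains `e`. `π` is the nearest
point map (`exists_norm_eq_iInf_of_complete_convex`, `norm_eq_iInf_iff_real_inner_le_zero`): it is
characterised by `π b ∈ Kc`, `⟪b - π b, z - π b⟫ ≤ 0` on `Kc`, hence 1-Lipschitz and unique.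
`r = c / 2`, `R = (2 + c) / c`. -/
theorem exists_proj {e : E4} (he : ‖e‖ = 1) {c : ℝ} (hc : 0 < c) :
    ∃ π : E4 → E4, LipschitzWith 1 π ∧ ∃ r > 0, ∃ R : ℝ, (∀ b, ‖b‖ ≤ r → π b = e) ∧
      ∀ b, c * ‖b‖ ≤ ⟪e, b⟫ → R ≤ ‖b‖ → π b = b := by
  let K : Set E4 := {b | c / 2 * ‖b - e‖ ≤ ⟪e, b⟫ - 1}
  have hee : ⟪e, e⟫ = (1 : ℝ) := by rw [real_inner_self_eq_norm_mul_norm, he, one_mul]
  have heK : e ∈ K := by
    change c / 2 * ‖e - e‖ ≤ ⟪e, e⟫ - 1
    rw [hee, sub_self, norm_zero, mul_zero, sub_self]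
  have hcl : IsClosed K := isClosed_le (by fun_prop) (by fun_prop)
  have hcv : Convex ℝ K := by
    intro x hx y hy s t hs ht hst
    change c / 2 * ‖x - e‖ ≤ ⟪e, x⟫ - 1 at hx
    change c / 2 * ‖y - e‖ ≤ ⟪e, y⟫ - 1 at hy
    change c / 2 * ‖s • x + t • y - e‖ ≤ ⟪e, s • x + t • y⟫ - 1
    have h1 : s • x + t • y - e = s • (x - e) + t • (y - e) := by
      rw [smul_sub, smul_sub, sub_add_sub_comm, ← add_smul, hst, one_smul]
    have h2 : ‖s • x + t • y - e‖ ≤ s * ‖x - e‖ + t * ‖y - e‖ := by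
      rw [h1]
      refine (norm_add_le _ _).trans_eq ?_
      rw [norm_smul, norm_smul, Real.norm_of_nonneg hs, Real.norm_of_nonneg ht]
    rw [inner_add_right, real_inner_smul_right, real_inner_smul_right]
    have h3 := mul_le_mul_of_nonneg_left h2 (half_pos hc).le
    have h4 := mul_le_mul_of_nonneg_left hx hs
    have h5 := mul_le_mul_of_nonneg_left hy ht
    linarith
  choose π hπ1 hπ2 using exists_norm_eq_iInf_of_complete_convex ⟨e, heK⟩ hcl.isComplete hcv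
  have hπ3 : ∀ b, ∀ z ∈ K, ⟪b - π b, z - π b⟫ ≤ 0 := fun b =>
    (norm_eq_iInf_iff_real_inner_le_zero hcv (hπ1 b)).1 (hπ2 b)
  have huniq : ∀ b, ∀ p ∈ K, ⟪b - p, π b - p⟫ ≤ 0 → π b = p := fun b p hp h => by
    have h1 := proj_lip (hπ3 b p hp) h
    rwa [sub_self, norm_zero, norm_le_zero_iff, sub_eq_zero] at h1
  refine ⟨π, LipschitzWith.of_dist_le_mul fun x y => ?_, c / 2, half_pos hc, (2 + c) / c,
    fun b hb => huniq b e heK ?_, fun b hb hR => huniq b b ?_ (by simp)⟩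
  · rw [NNReal.coe_one, one_mul, dist_eq_norm, dist_eq_norm]
    exact proj_lip (hπ3 x _ (hπ1 y)) (hπ3 y _ (hπ1 x))
  · have h1 : c / 2 * ‖π b - e‖ ≤ ⟪e, π b⟫ - 1 := hπ1 b
    have h2 := real_inner_le_norm b (π b - e)
    have h3 := mul_le_mul_of_nonneg_right hb (norm_nonneg (π b - e))
    rw [inner_sub_left, inner_sub_right e, hee]
    linarith
  · change c / 2 * ‖b - e‖ ≤ ⟪e, b⟫ - 1
    have h1 := mul_le_mul_of_nonneg_left (norm_sub_le b e) (half_pos hc).le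
    rw [div_le_iff₀ hc] at hR
    rw [he] at h1
    linarith

end H42
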