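import Pool.Agent.Lib.MP_320961_gt.Pos
import Pool.Agent.Lib.MP_320961_gt.CoV
import Pool.Agent.Lib.MP_320961_gt.Proj

/-! The measure of the Cayley form on a graph. -/

open scoped RealInnerProductSpace ENNReal NNReal
open Set Metric MeasureTheory Filter Topology

noncomputable section

namespace H42

def mu (F : E4 → E4) (A : Set E4) : ℝ≥0∞ := ∫⁻ u in A, ENNReal.ofReal (rho F u)

theorem lip_gr {F : E4 → E4} (hF : LipschitzWith 1 F) : LipschitzWith 2 (gr F) := by
  refine LipschitzWith.of_dist_le_mul fun u v => ?_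
  have h := hF.dist_le_mul u v
  rw [NNReal.coe_one, one_mul, dist_eq_norm, dist_eq_norm] at h
  rw [dist_eq_norm, dist_eq_norm, gr, gr, mkS_sub, NNReal.coe_ofNat,
    ← sq_le_sq₀ (norm_nonneg _) (by positivity), normS_sq, mkS_fst, mkS_snd]
  nlinarith [norm_nonneg (F u - F v), norm_nonneg (u - v)]

theorem meas1_gr {F : E4 → E4} {A : E4 →L[ℝ] E4} {u : E4} (h : HasFDerivAt F A u) :
    HasFDerivAt (gr F) (prS 1 A) u :=
  (WithLp.prodContinuousLinearEquiv 2 ℝ E4 E4).symm.toContinuousLinearMap.hasFDerivAt.comp u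
    ((hasFDerivAt_id u).prodMk h)

theorem meas1_smul : ContinuousSMul ℝ S := IsBoundedSMul.continuousSMul

theorem meas1_rho {F : E4 → E4} {A : E4 →L[ℝ] E4} {u : E4} (h : HasFDerivAt F A u) :
    rho F u = PhiL (prS 1 A) :=
  have := meas1_smul
  congrArg PhiL (meas1_gr h).fderiv

/-- Where `gr F` is differentiable so is `F`, `fderiv (gr F) = prS 1 (fderiv F)`,
`norm_fderiv_le_of_lipschitz`, `PhiL_nonneg`; elsewhere `PhiL_zero`. -/
theorem rho_nonneg {F : E4 → E4} (hF : LipschitzWith 1 F) (u : E4) : 0 ≤ rho F u := by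
  by_cases h : DifferentiableAt ℝ (gr F) u
  · have h1 : DifferentiableAt ℝ F u := sndS.differentiableAt.comp u h
    rw [meas1_rho h1.hasFDerivAt]
    exact PhiL_nonneg _ (norm_fderiv_le_of_lipschitz ℝ hF)
  · rw [rho, fderiv_zero_of_not_differentiableAt h, PhiL_zero]

theorem measurable_rho (F : E4 → E4) : Measurable (rho F) := by
  exact continuous_PhiL.measurable.comp (measurable_fderiv ℝ (gr F))

theorem rho_bdd : ∃ M : ℝ, ∀ F : E4 → E4, LipschitzWith 1 F → ∀ u, rho F u ≤ M := by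
  obtain ⟨M, hM⟩ := (isCompact_closedBall (0 : E4 →L[ℝ] S) 2).bddAbove_image
    continuous_PhiL.continuousOn
  exact ⟨M, fun F hF u => hM ⟨_, mem_closedBall_zero_iff.2
    (norm_fderiv_le_of_lipschitz ℝ (lip_gr hF)), rfl⟩⟩

theorem mu_ball_lt_top {F : E4 → E4} (hF : LipschitzWith 1 F) (R : ℝ) : mu F (ball 0 R) < ∞ := by
  obtain ⟨M, hM⟩ := rho_bdd
  refine (lintegral_mono fun u => ENNReal.ofReal_le_ofReal (hM F hF u)).trans_lt ?_
  rw [setLIntegral_const]
  exact ENNReal.mul_lt_top ENNReal.ofReal_lt_top measure_ball_lt_top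

/-- `PhiL_dets`, `int_det_eq` for the Lipschitz maps `P k ∘ gr F`; a.e. chain rule. -/
theorem int_rho_eq {F F' : E4 → E4} (hF : LipschitzWith 1 F) (hF' : LipschitzWith 1 F') {R : ℝ}
    (heq : ∀ u, R ≤ ‖u‖ → F u = F' u) :
    ∫ u in ball 0 R, rho F u = ∫ u in ball 0 R, rho F' u := by
  obtain ⟨n, c, P, h⟩ := PhiL_dets
  have key : ∀ G : E4 → E4, LipschitzWith 1 G → ∫ u in ball 0 R, rho G u =
      ∑ k, c k * ∫ u in ball 0 R, (fderiv ℝ (P k ∘ gr G) u).det := fun G hG => by
    simp only [← integral_const_mul]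
    rw [← integral_finsetSum _ fun k _ =>
      (integrableOn_det ((P k).lipschitz.comp (lip_gr hG)) R).const_mul (c k)]
    refine integral_congr_ae (ae_restrict_of_ae ?_)
    filter_upwards [(lip_gr hG).ae_differentiableAt] with u hu
    rw [rho, h]
    exact Finset.sum_congr rfl fun k _ => by
      rw [((P k).hasFDerivAt.comp u hu.hasFDerivAt).fderiv]
  rw [key F hF, key F' hF']
  refine Finset.sum_congr rfl fun k _ => ?_
  rw [int_det_eq ((P k).lipschitz.comp (lip_gr hF)) ((P k).lipschitz.comp (lip_gr hF'))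
    fun u hu => by simp only [Function.comp, gr, heq u hu]]

theorem meas1_mu {F : E4 → E4} (hF : LipschitzWith 1 F) (R : ℝ) :
    mu F (ball 0 R) = ENNReal.ofReal (∫ u in ball 0 R, rho F u) := by
  obtain ⟨M, hM⟩ := rho_bdd
  refine (ofReal_integral_eq_lintegral_ofReal (Measure.integrableOn_of_bounded (M := M)
    measure_ball_lt_top.ne (measurable_rho F).aestronglyMeasurable
    (Eventually.of_forall fun u => ?_)) (Eventually.of_forall (rho_nonneg hF))).symm
  rw [Real.norm_of_nonneg (rho_nonneg hF u)]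
  exact hM F hF u

/-- `F' = π ∘ F` with `π` from `exists_proj`; `rho F' = 1` on a small ball (`PhiL_inl`). -/
theorem Cone.mu_pos {F : E4 → E4} (hF : Cone F) : ∃ R > 0, 0 < mu F (ball 0 R) := by
  obtain ⟨e, he, c, hc, h1⟩ := hF.half
  obtain ⟨π, hπ, r, hr, R, h2, h3⟩ := exists_proj he hc
  have h4 : LipschitzWith 1 (π ∘ F) := by simpa using hπ.comp hF.lip
  refine ⟨max r R, lt_max_of_lt_left hr, ?_⟩
  rw [meas1_mu hF.lip, int_rho_eq hF.lip h4 fun u hu =>
    (h3 _ (h1 u) (by rw [hF.norm]; exact (le_max_right _ _).trans hu)).symm, ← meas1_mu h4]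
  refine lt_of_lt_of_le ?_ (lintegral_mono_set (ball_subset_ball (le_max_left r R)))
  have h5 : ∀ u ∈ ball (0 : E4) r, ENNReal.ofReal (rho (π ∘ F) u) = 1 := fun u hu => by
    have h6 : HasFDerivAt (π ∘ F) (0 : E4 →L[ℝ] E4) u := by
      refine (hasFDerivAt_const e u).congr_of_eventuallyEq ?_
      filter_upwards [isOpen_ball.mem_nhds hu] with v hv
      exact h2 _ (by rw [hF.norm]; exact (mem_ball_zero_iff.1 hv).le)
    rw [meas1_rho h6, PhiL_inl, ENNReal.ofReal_one]
  rw [setLIntegral_congr_fun measurableSet_ball h5, setLIntegral_one]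
  exact measure_ball_pos _ _ hr

end H42
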