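import Pool.Agent.Lib.MP_320961_gt.Core
import Pool.Agent.Lib.MP_320961_gt.Lifts

/-! No proper cocompact action. -/

open scoped RealInnerProductSpace ENNReal NNReal
open Set Metric MeasureTheory Filter Topology

noncomputable section

namespace H42

/-- The triples `(γ, g, h)` with `g = ± ρ γ` and `h` a lift of `g`. -/
def triples {Γ : Type*} [Group Γ] (ρ : Γ →* (V →L[ℝ] V)) :
    Subgroup (Γ × (V →L[ℝ] V)ˣ × (S →L[ℝ] S)ˣ) where
  carrier := {x | ((x.2.1 : V →L[ℝ] V) = ρ x.1 ∨ (x.2.1 : V →L[ℝ] V) = -ρ x.1) ∧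
    Lift (x.2.1 : V →L[ℝ] V) (x.2.2 : S →L[ℝ] S)}
  one_mem' := ⟨Or.inl (map_one ρ).symm, Lift.one⟩
  mul_mem' := by
    rintro ⟨a, g, h⟩ ⟨b, g', h'⟩ ⟨h1, h2⟩ ⟨h3, h4⟩
    refine ⟨?_, h2.mul h4⟩
    simp only [Prod.mk_mul_mk, Units.val_mul, map_mul] at h1 h3 ⊢
    rcases h1 with h1 | h1 <;> rcases h3 with h3 | h3 <;> rw [h1, h3]
    · exact Or.inl rfl
    · exact Or.inr (by ext1 x; simp)
    · exact Or.inr (by ext1 x; simp)
    · exact Or.inl (by ext1 x; simp)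
  inv_mem' := by
    rintro ⟨a, g, h⟩ ⟨h1, h2⟩
    refine ⟨?_, h2.inv g.mul_inv h.mul_inv⟩
    have e : ρ a * ρ a⁻¹ = 1 := by rw [← map_mul, mul_inv_cancel, map_one]
    refine h1.imp (fun h1 => ?_) fun h1 => ?_
    · exact Units.inv_eq_of_mul_eq_one_right (by rw [show (g : V →L[ℝ] V) = ρ a from h1]; exact e)
    · refine Units.inv_eq_of_mul_eq_one_right ?_
      rw [show (g : V →L[ℝ] V) = -ρ a from h1, ← e]
      ext1 x; simp

theorem noact_unit {h : S →L[ℝ] S} (hh : Conf h) : ∃ u : (S →L[ℝ] S)ˣ, (u : S →L[ℝ] S) = h := by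
  let e : S ≃L[ℝ] S := (LinearEquiv.ofBijective h.toLinearMap
    ⟨hh.injective, hh.surjective⟩).toContinuousLinearEquiv
  have he : ∀ s, e s = h s := fun _ => rfl
  refine ⟨⟨h, e.symm, ?_, ?_⟩, rfl⟩ <;> ext1 s
  · rw [mul_apply_eq_comp, ← he]; exact e.apply_symm_apply s
  · rw [mul_apply_eq_comp, ← he]; exact e.symm_apply_apply s

theorem noact_over {Γ : Type*} [Group Γ] (ρ : Γ →* (V →L[ℝ] V)) (ho : ∀ γ, Orth (ρ γ)) (γ : Γ) :
    ∃ x : triples ρ, x.1.1 = γ := by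
  obtain ⟨h, hh⟩ := exists_lift (ho γ)
  rcases hh with hh | hh
  · obtain ⟨u, rfl⟩ := noact_unit hh.conf
    exact ⟨⟨(γ, ρ.toHomUnits γ, u), Or.inl rfl, hh⟩, rfl⟩
  · obtain ⟨u, rfl⟩ := noact_unit hh.conf
    exact ⟨⟨(γ, -ρ.toHomUnits γ, u), Or.inr rfl, hh⟩, rfl⟩

theorem noact_fibre {Γ : Type*} [Group Γ] (ρ : Γ →* (V →L[ℝ] V)) (γ : Γ) :
    {x : triples ρ | x.1.1 = γ}.Finite := by
  have key : ∀ g : V →L[ℝ] V, {h | Lift g h}.Finite := by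
    intro g
    rcases eq_empty_or_nonempty {h | Lift g h} with e | ⟨h, hh⟩
    · rw [e]; exact finite_empty
    · exact (toFinite {h, -h}).subset fun h' hh' => lift_unique hh hh'
  let f : triples ρ → (V →L[ℝ] V) × (S →L[ℝ] S) := fun x => (x.1.2.1, x.1.2.2)
  have hf : InjOn f {x : triples ρ | x.1.1 = γ} := by
    rintro ⟨⟨a, g, h⟩, _⟩ ha ⟨⟨b, g', h'⟩, _⟩ hb e
    have e1 : g = g' := Units.ext (congrArg Prod.fst e)
    have e2 : h = h' := Units.ext (congrArg Prod.snd e)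
    have e3 : a = b := ha.trans hb.symm
    subst e1 e2 e3
    rfl
  refine Finite.of_finite_image ?_ hf
  refine (((finite_singleton (ρ γ)).prod (key (ρ γ))).union
    ((finite_singleton (-ρ γ)).prod (key (-ρ γ)))).subset ?_
  rintro _ ⟨⟨⟨a, g, h⟩, h1, h2⟩, rfl, rfl⟩
  rcases h1 with h1 | h1
  · exact Or.inl ⟨h1, (congrArg (fun z => Lift z (h : S →L[ℝ] S)) h1).mp h2⟩
  · exact Or.inr ⟨h1, (congrArg (fun z => Lift z (h : S →L[ℝ] S)) h1).mp h2⟩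

theorem no_action {Γ : Type*} [Group Γ] (ρ : Γ →* (V →L[ℝ] V)) (ho : ∀ γ, Orth (ρ γ))
    (hp : ∀ R : ℝ, {γ | ∃ y, qV y y < 0 ∧ nn y ≤ R ∧ nn (ρ γ y) ≤ R}.Finite)
    (hc : ∃ R : ℝ, ∀ x, qV x x < 0 → ∃ γ, nn (ρ γ⁻¹ x) ≤ R) : False := by
  let g : triples ρ →* (V →L[ℝ] V) :=
    (Units.coeHom _).comp ((MonoidHom.fst _ _).comp ((MonoidHom.snd _ _).comp (triples ρ).subtype))
  let h : triples ρ →* (S →L[ℝ] S) :=
    (Units.coeHom _).comp ((MonoidHom.snd _ _).comp ((MonoidHom.snd _ _).comp (triples ρ).subtype))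
  have hnn : ∀ (x : triples ρ) y, nn (g x y) = nn (ρ x.1.1 y) := by
    intro x y
    rcases x.2.1 with e | e
    · rw [← e]; rfl
    · rw [← nn_neg (ρ x.1.1 y), ← neg_apply, ← e]; rfl
  refine Act.false (Γ := triples ρ) ⟨g, h, fun x => x.2.2, fun R => ?_, ?_⟩
  · refine ((hp R).biUnion fun γ _ => noact_fibre ρ γ).subset ?_
    rintro x ⟨y, h1, h2, h3⟩
    exact mem_biUnion (x := x.1.1) ⟨y, h1, h2, by rwa [← hnn]⟩ rfl
  · obtain ⟨R, hR⟩ := hc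
    refine ⟨R, fun y hy => ?_⟩
    obtain ⟨γ, hγ⟩ := hR y hy
    obtain ⟨x, rfl⟩ := noact_over ρ ho γ
    exact ⟨x, by rw [hnn]; exact hγ⟩

end H42
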