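import Pool.Agent.Lib.MP_320961_gt.Cay

/-! The Cayley form is nonnegative on graphs of contractions. -/

open scoped RealInnerProductSpace ENNReal NNReal
open Set Metric MeasureTheory Filter Topology

noncomputable section

namespace H42

theorem pos_pol {s s' t : S} (h1 : qS s s' = 0) (h2 : qS s t = 0) (h3 : qS s' t = 0) :
    cl (tau s t) s' = -cl (tau s' t) s := by
  have h := cl_tau (s + s') t
  simp only [map_add, LinearMap.add_apply, _root_.add_apply, cl_tau, h1, h2, h3,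
    qS_comm s' s] at h
  linear_combination (norm := module) h

/-- `Phi s₁ s₂ s₃ s₄ = -qS (cl t12 s₃ - cl t13 s₂ + cl t23 s₁) s₄ / 3` by `tau_spec` (and `qV_comm`,
`tau_skew`, `cl_skew` for the last term). Polarise `cl_tau` in `s`: for orthogonal vectors
`cl (tau s₁ s₂) s₃ = cl (tau s₂ s₃) s₁ = -cl (tau s₁ s₃) s₂`. `qS_cl` gives the norm. -/
theorem Phi_orth {s₁ s₂ s₃ : S} (h12 : qS s₁ s₂ = 0) (h13 : qS s₁ s₃ = 0) (h23 : qS s₂ s₃ = 0) :
    ∃ P : S, (∀ s₄, Phi s₁ s₂ s₃ s₄ = qS P s₄) ∧ qS P P = qS s₁ s₁ * qS s₂ s₂ * qS s₃ s₃ := by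
  have e1 : cl (tau s₁ s₂) s₃ = cl (tau s₂ s₃) s₁ := by
    rw [pos_pol h13 h12 ((qS_comm _ _).trans h23), tau_skew s₃ s₂, map_neg,
      _root_.neg_apply, neg_neg]
  have e2 : cl (tau s₁ s₃) s₂ = -cl (tau s₂ s₃) s₁ := pos_pol h12 h13 h23
  refine ⟨-cl (tau s₂ s₃) s₁, fun s₄ => ?_, ?_⟩
  · rw [Phi, qV_comm (tau s₁ s₂), qV_comm (tau s₁ s₃), tau_spec, tau_spec, tau_spec, e1, e2]
    simp only [map_neg, LinearMap.neg_apply]
    ring
  · simp only [map_neg, LinearMap.neg_apply, neg_neg]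
    rw [qS_cl, tau_spec, cl_tau]
    simp only [map_add, map_smul, LinearMap.add_apply, LinearMap.smul_apply, smul_eq_mul, h23]
    ring

theorem pos_all {T : E4 →L[ℝ] S} (h : PhiL T = 0) (v : Fin 4 → E4) :
    Phi (T (v 0)) (T (v 1)) (T (v 2)) (T (v 3)) = 0 := by
  let L : E4 →L[ℝ] E4 :=
    LinearMap.toContinuousLinearMap ((EuclideanSpace.basisFun (Fin 4) ℝ).toBasis.constr ℝ v)
  have hL : ∀ i, L (ee i) = v i := fun i => by
    have h1 := (EuclideanSpace.basisFun (Fin 4) ℝ).toBasis.constr_basis ℝ v i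
    rwa [OrthonormalBasis.coe_toBasis, EuclideanSpace.basisFun_apply] at h1
  have h1 := PhiL_comp T L
  rw [h, mul_zero, PhiL] at h1
  simpa only [ContinuousLinearMap.comp_apply, hL] using h1

theorem pos_graph {A : E4 →L[ℝ] E4} (hA : ‖A‖ < 1) {u : E4} (hu : u ≠ 0) :
    0 < qS (prS 1 A u) (prS 1 A u) := by
  have h1 : ‖A u‖ < ‖u‖ :=
    (A.le_opNorm u).trans_lt (mul_lt_of_lt_one_left (norm_pos_iff.2 hu) hA)
  rw [qS_self, prS_apply, mkS_fst, mkS_snd, one_apply_eq_self, sub_pos]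
  exact pow_lt_pow_left₀ h1 (norm_nonneg _) two_ne_zero

/-- Take a basis `b` of `E4` orthogonal for `(u, u') ↦ qS (T u) (T u')`, `T = prS 1 A`
(`LinearMap.BilinForm.exists_orthogonal_basis`). If `PhiL T = 0` then `Phi` vanishes on the
`T (b i)` (`PhiL_comp`), so `P` of `Phi_orth` is orthogonal to the graph and has positive norm;
`z = P - T P.fst` has `z.fst = 0`, so `qS z z ≤ 0`, but `qS z z = qS P P + qS (T u) (T u) > 0`. -/
theorem PhiL_ne_zero (A : E4 →L[ℝ] E4) (hA : ‖A‖ < 1) : PhiL (prS 1 A) ≠ 0 := by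
  intro h
  obtain ⟨b, hb⟩ := LinearMap.BilinForm.exists_orthogonal_basis
    (B := qS.compl₁₂ (prS 1 A).toLinearMap (prS 1 A).toLinearMap) ⟨fun x y => qS_comm _ _⟩
  let e : Fin 4 ≃ Fin (Module.finrank ℝ E4) := finCongr (by simp)
  have ho : ∀ i j, i ≠ j → qS (prS 1 A (b (e i))) (prS 1 A (b (e j))) = 0 := fun i j hij =>
    hb (e.injective.ne hij)
  obtain ⟨P, hP, hP'⟩ := Phi_orth (ho 0 1 (by decide)) (ho 0 2 (by decide)) (ho 1 2 (by decide))
  have h0 : 0 < qS P P := hP' ▸ mul_pos (mul_pos (pos_graph hA (b.ne_zero _))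
    (pos_graph hA (b.ne_zero _))) (pos_graph hA (b.ne_zero _))
  have h1 : qS P (prS 1 A P.fst) = 0 :=
    (hP _).symm.trans (pos_all h ![b (e 0), b (e 1), b (e 2), P.fst])
  have h2 : 0 ≤ qS (prS 1 A P.fst) (prS 1 A P.fst) := by
    by_cases hu : P.fst = 0
    · simp only [hu, map_zero, le_refl]
    · exact (pos_graph hA hu).le
  have h3 := qS_self (P - prS 1 A P.fst)
  have h4 : (P - prS 1 A P.fst).fst = 0 := sub_self P.fst
  rw [h4, norm_zero] at h3
  simp only [map_sub, LinearMap.sub_apply, qS_comm (prS 1 A P.fst) P, h1] at h3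
  nlinarith [sq_nonneg ‖(P - prS 1 A P.fst).snd‖]

/-- Intermediate values along `t • A`, `PhiL_inl`, `continuous_PhiL`, then `t → 1`. -/
theorem PhiL_nonneg (A : E4 →L[ℝ] E4) (hA : ‖A‖ ≤ 1) : 0 ≤ PhiL (prS 1 A) := by
  by_contra h
  rw [not_le] at h
  have h2 : Continuous fun t : ℝ => PhiL (prS 1 (t • A)) :=
    continuous_PhiL.comp (continuous_clm_apply.2 fun u =>
      (WithLp.prod_continuous_toLp 2 E4 E4).comp (f := fun t : ℝ => (u, t • A u)) (by fun_prop))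
  have h0 : (0 : ℝ) ∈ Icc (PhiL (prS 1 ((1 : ℝ) • A))) (PhiL (prS 1 ((0 : ℝ) • A))) := by
    rw [one_smul, show (0 : ℝ) • A = 0 from ContinuousLinearMap.ext fun u => zero_smul ℝ (A u),
      PhiL_inl]
    exact ⟨h.le, zero_le_one⟩
  obtain ⟨t, ht, h3⟩ := intermediate_value_Icc' zero_le_one h2.continuousOn h0
  have h4 : t < 1 := lt_of_le_of_ne ht.2 fun h5 => h.ne (by simpa only [h5, one_smul] using h3)
  refine PhiL_ne_zero _ ?_ h3
  rw [norm_smul, Real.norm_of_nonneg ht.1]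
  exact (mul_le_of_le_one_right ht.1 hA).trans_lt h4

end H42
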