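import Pool.Agent.Lib.MP_320961_gt.Stmt

/-! From the coset space to the quadric. -/

open Matrix Set Topology

noncomputable section

namespace HPQ

variable {p n q : ℕ}

/-- The signs of the form. -/
def sg (p n : ℕ) : Fin p ⊕ Fin n → ℝ := Sum.elim (fun _ => 1) fun _ => -1

/-- The polar form. -/
def B (x y : Fin p ⊕ Fin n → ℝ) : ℝ := ∑ i, sg p n i * x i * y i

theorem Q_eq (x : Fin p ⊕ Fin n → ℝ) : Q p n x = B x x := by
  simp [Q, B, sg, Fintype.sum_sum_type, sq, sub_eq_add_neg]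

theorem B_comm (x y : Fin p ⊕ Fin n → ℝ) : B x y = B y x :=
  Finset.sum_congr rfl fun _ _ => by ring

theorem B_sub_smul (x y z : Fin p ⊕ Fin n → ℝ) (c : ℝ) : B x (y - c • z) = B x y - c * B x z := by
  simp only [B, Finset.mul_sum, ← Finset.sum_sub_distrib]
  exact Finset.sum_congr rfl fun _ _ => by simp; ring

theorem Q_sub_smul (y z : Fin p ⊕ Fin n → ℝ) (c : ℝ) :
    Q p n (y - c • z) = Q p n y - 2 * c * B z y + c ^ 2 * Q p n z := by
  rw [Q_eq, B_sub_smul, B_comm _ y, B_comm _ z, B_sub_smul, B_sub_smul, Q_eq, Q_eq, B_comm y z]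
  ring

theorem Q_neg (y : Fin p ⊕ Fin n → ℝ) : Q p n (-y) = Q p n y := by simp [Q]

theorem continuous_Q : Continuous (Q p n) := by unfold Q; fun_prop

/-- The matrix of the reflection in `v`. -/
def rf (v : Fin p ⊕ Fin n → ℝ) : Matrix (Fin p ⊕ Fin n) (Fin p ⊕ Fin n) ℝ :=
  1 - (2 / Q p n v) • vecMulVec v fun j => sg p n j * v j

theorem rf_mulVec (v x : Fin p ⊕ Fin n → ℝ) : rf v *ᵥ x = x - (2 / Q p n v * B v x) • v := by
  rw [rf, sub_mulVec, one_mulVec, smul_mulVec, vecMulVec_mulVec]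
  ext i
  simp [B, dotProduct]; ring

theorem Q_rf {v : Fin p ⊕ Fin n → ℝ} (hv : Q p n v ≠ 0) (x : Fin p ⊕ Fin n → ℝ) :
    Q p n (rf v *ᵥ x) = Q p n x := by
  rw [rf_mulVec, Q_sub_smul]; field_simp; ring

theorem rf_rf {v : Fin p ⊕ Fin n → ℝ} (hv : Q p n v ≠ 0) : rf v * rf v = 1 := by
  refine ext_of_mulVec_single fun i => ?_
  rw [← mulVec_mulVec, rf_mulVec, rf_mulVec, one_mulVec, B_sub_smul, ← Q_eq, sub_sub, ← add_smul]
  have : 2 / Q p n v * B v (Pi.single i 1) +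
      2 / Q p n v * (B v (Pi.single i 1) - 2 / Q p n v * B v (Pi.single i 1) * Q p n v) = 0 := by
    field_simp; ring
  rw [this, zero_smul, sub_zero]

theorem Q_base : Q p (q + 1) (base p q) = -1 := by
  simp [Q, base, Pi.single_apply]

/-- For a sign `e`, the involution `e` times the reflection in `x - e • base`. -/
def sec (e : ℝ) (he : e * e = 1) (x : {x : Fin p ⊕ Fin (q + 1) → ℝ //
    Q p (q + 1) (x - e • base p q) ≠ 0}) : OG p (q + 1) :=
  ⟨⟨e • rf (x.1 - e • base p q), e • rf (x.1 - e • base p q),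
    by rw [smul_mul_smul_comm, he, rf_rf x.2, one_smul],
    by rw [smul_mul_smul_comm, he, rf_rf x.2, one_smul]⟩, fun y => by
    change Q p (q + 1) ((e • rf (x.1 - e • base p q)) *ᵥ y) = _
    rw [smul_mulVec, ← Q_rf x.2 y]
    rcases mul_self_eq_one_iff.1 he with rfl | rfl
    · rw [one_smul]
    · rw [neg_smul, one_smul, Q_neg]⟩

theorem continuous_sec (e : ℝ) (he : e * e = 1) : Continuous (sec (p := p) (q := q) e he) := by
  have h : Continuous fun x : {x : Fin p ⊕ Fin (q + 1) → ℝ //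
      Q p (q + 1) (x - e • base p q) ≠ 0} => e • rf (x.1 - e • base p q) := by
    have h1 : Continuous fun x : {x : Fin p ⊕ Fin (q + 1) → ℝ //
        Q p (q + 1) (x - e • base p q) ≠ 0} => x.1 - e • base p q := by fun_prop
    have h2 := (continuous_const (y := (2 : ℝ))).div (continuous_Q.comp h1) fun x => x.2
    refine (continuous_const.sub (h2.smul ?_)).const_smul e
    refine continuous_matrix fun i j => ?_
    simp only [vecMulVec_apply]
    fun_prop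
  exact (Units.continuous_iff.2 ⟨h, h⟩).subtype_mk _

theorem sec_base (e : ℝ) (he : e * e = 1) (x : {x : Fin p ⊕ Fin (q + 1) → ℝ //
    Q p (q + 1) (x - e • base p q) ≠ 0}) (hx : Q p (q + 1) x.1 = -1) :
    ((sec e he x).val⁻¹).val *ᵥ base p q = x.1 := by
  change (e • rf (x.1 - e • base p q)) *ᵥ base p q = _
  have h1 := Q_sub_smul x.1 (base p q) e
  have h2 : B (x.1 - e • base p q) (base p q) = B (base p q) x.1 + e := by
    rw [B_comm, B_sub_smul, ← Q_eq, Q_base]; ring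
  have h3 : e * (2 / Q p (q + 1) (x.1 - e • base p q) * B (x.1 - e • base p q) (base p q)) = -1 := by
    have h4 := x.2
    rw [h2]
    field_simp
    rw [h1, hx, Q_base]
    linear_combination (2 - 1 : ℝ) * he
  rw [smul_mulVec, rf_mulVec, smul_sub, smul_smul, h3]
  simp

/-- A compact set of group elements whose inverses move the base point onto a ball of the
quadric. -/
theorem exists_compact (R : ℝ) : ∃ C : Set (OG p (q + 1)), IsCompact C ∧
    ∀ x, Q p (q + 1) x = -1 → ‖x‖ ≤ R → ∃ g ∈ C, (g.val⁻¹).val *ᵥ base p q = x := by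
  have key : ∀ (e : ℝ) (he : e * e = 1), IsCompact (sec (p := p) (q := q) e he ''
      {x | ‖x.1‖ ≤ R ∧ Q p (q + 1) (x.1 - e • base p q) ≤ -2}) := by
    intro e he
    refine IsCompact.image ?_ (continuous_sec e he)
    rw [Subtype.isCompact_iff]
    have : (Subtype.val '' {x : {x : Fin p ⊕ Fin (q + 1) → ℝ //
        Q p (q + 1) (x - e • base p q) ≠ 0} | ‖x.1‖ ≤ R ∧ Q p (q + 1) (x.1 - e • base p q) ≤ -2})
        = Metric.closedBall 0 R ∩ {x | Q p (q + 1) (x - e • base p q) ≤ -2} := by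
      ext x
      constructor
      · rintro ⟨y, hy, rfl⟩
        exact ⟨by simpa using hy.1, hy.2⟩
      · rintro ⟨h1, h2⟩
        have h3 : Q p (q + 1) (x - e • base p q) ≤ -2 := h2
        exact ⟨⟨x, by linarith [h3] |> fun h : Q p (q + 1) (x - e • base p q) < 0 => h.ne⟩,
          ⟨by simpa using h1, h2⟩, rfl⟩
    rw [this]
    exact (isCompact_closedBall _ _).inter_right
      (isClosed_le (continuous_Q.comp (by fun_prop)) continuous_const)
  refine ⟨_, (key 1 (by norm_num)).union (key (-1) (by norm_num)), fun x hx hR => ?_⟩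
  have h1 := Q_sub_smul x (base p q) 1
  have h2 := Q_sub_smul x (base p q) (-1)
  rw [hx, Q_base] at h1 h2
  by_cases h : Q p (q + 1) (x - (1 : ℝ) • base p q) ≤ -2
  · exact ⟨_, Or.inl ⟨⟨x, by linarith |> fun h : Q p (q + 1) (x - (1 : ℝ) • base p q) < 0 => h.ne⟩,
      ⟨hR, h⟩, rfl⟩, sec_base _ _ _ hx⟩
  · have h' : Q p (q + 1) (x - (-1 : ℝ) • base p q) ≤ -2 := by linarith
    exact ⟨_, Or.inr ⟨⟨x, by linarith |> fun h : Q p (q + 1) (x - (-1 : ℝ) • base p q) < 0 => h.ne⟩,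
      ⟨hR, h'⟩, rfl⟩, sec_base _ _ _ hx⟩

theorem proper_quadric (Γ : Subgroup (OG p (q + 1)))
    (hΓ : ∀ K : Set (X p q), IsCompact K → {γ | γ ∈ Γ ∧ (rmul γ '' K ∩ K).Nonempty}.Finite)
    (R : ℝ) : {γ : Γ | ∃ x, Q p (q + 1) x = -1 ∧ ‖x‖ ≤ R ∧ ‖γ.val.val.val *ᵥ x‖ ≤ R}.Finite := by
  obtain ⟨C, hC, hx⟩ := exists_compact (p := p) (q := q) R
  have hK := hΓ _ (hC.image (continuous_quotient_mk' (s := QuotientGroup.rightRel (OH p q))))
  refine (hK.preimage Subtype.val_injective.injOn).subset ?_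
  rintro γ ⟨x, h1, h2, h3⟩
  obtain ⟨g, hg, e⟩ := hx x h1 h2
  obtain ⟨g', hg', e'⟩ := hx _ ((γ.val.2 x).trans h1) h3
  refine ⟨γ.2, _, ⟨_, mem_image_of_mem _ hg', rfl⟩, g, hg, ?_⟩
  refine Quotient.sound (QuotientGroup.rightRel_apply.2 ?_)
  change (g'.val.val * γ.val.val.val * (g.val⁻¹).val) *ᵥ base p q = base p q
  rw [← mulVec_mulVec, ← mulVec_mulVec, e, ← e', mulVec_mulVec, g'.val.mul_inv, one_mulVec]

theorem cocompact_quadric (Γ : Subgroup (OG p (q + 1)))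
    (hc : CompactSpace (Quotient (DoubleCoset.setoid (OH p q : Set (OG p (q + 1))) Γ))) :
    ∃ R : ℝ, ∀ x, Q p (q + 1) x = -1 → ∃ γ : Γ, ‖(γ⁻¹).val.val.val *ᵥ x‖ ≤ R := by
  let W : ℕ → Set (OG p (q + 1)) := fun k =>
    {g | ∃ γ : Γ, ‖γ.val.val.val *ᵥ (g.val⁻¹).val *ᵥ base p q‖ < k}
  have hinv : Continuous fun g : OG p (q + 1) => (g.val⁻¹).val :=
    Units.continuous_coe_inv.comp continuous_subtype_val
  have hW : ∀ k, IsOpen (W k) := fun k => by
    simp only [W, ofPred_exists]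
    exact isOpen_iUnion fun γ => isOpen_lt
      (continuous_const.matrix_mulVec (hinv.matrix_mulVec continuous_const)).norm continuous_const
  let π : OG p (q + 1) → Quotient (DoubleCoset.setoid (OH p q : Set (OG p (q + 1))) Γ) :=
    Quotient.mk _
  have hsat : ∀ k, π ⁻¹' (π '' W k) = W k := fun k => by
    refine Subset.antisymm ?_ (subset_preimage_image _ _)
    rintro g ⟨g', ⟨γ, hγ⟩, e⟩
    obtain ⟨a, ha, b, hb, rfl⟩ := DoubleCoset.rel_iff.1 (Quotient.exact e)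
    refine ⟨γ * ⟨b, hb⟩, ?_⟩
    have ha' : (a.val⁻¹).val *ᵥ base p q = base p q := (OH p q).inv_mem ha
    have : ((a * g' * b).val⁻¹).val = (b.val⁻¹).val * ((g'.val⁻¹).val * (a.val⁻¹).val) := by
      simp [_root_.mul_inv_rev]
    change ‖(γ.val.val.val * b.val.val) *ᵥ ((a * g' * b).val⁻¹).val *ᵥ base p q‖ < k
    rwa [this, mulVec_mulVec, mul_assoc, ← mul_assoc b.val.val, b.val.mul_inv, one_mul,
      ← mulVec_mulVec, ← mulVec_mulVec, ha']
  have hU : ∀ k, IsOpen (π '' W k) := fun k => isOpen_coinduced.2 ((hsat k).symm ▸ hW k :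
    IsOpen (π ⁻¹' (π '' W k)))
  have hmono : Monotone fun k => π '' W k := fun a b hab => image_mono fun g ⟨γ, hγ⟩ =>
    ⟨γ, hγ.trans_le (Nat.cast_le.2 hab)⟩
  obtain ⟨k, hk⟩ := isCompact_univ.elim_directed_cover _ hU (fun z _ => by
    obtain ⟨g, rfl⟩ := Quotient.exists_rep z
    obtain ⟨k, hk⟩ := exists_nat_gt ‖(1 : Γ).val.val.val *ᵥ (g.val⁻¹).val *ᵥ base p q‖
    exact mem_iUnion.2 ⟨k, g, ⟨1, hk⟩, rfl⟩) hmono.directed_le
  refine ⟨k, fun x hx => ?_⟩
  obtain ⟨C, -, hC⟩ := exists_compact (p := p) (q := q) ‖x‖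
  obtain ⟨g, -, e⟩ := hC x hx le_rfl
  obtain ⟨γ, hγ⟩ : g ∈ W k := hsat k ▸ hk (mem_univ (π g))
  exact ⟨γ⁻¹, by rw [inv_inv, ← e]; exact hγ.le⟩

/-- Coordinates as a pair of Euclidean vectors. -/
def co (p n : ℕ) : (Fin p ⊕ Fin n → ℝ) ≃L[ℝ]
    EuclideanSpace ℝ (Fin p) × EuclideanSpace ℝ (Fin n) :=
  ((LinearEquiv.sumArrowLequivProdArrow (Fin p) (Fin n) ℝ ℝ).trans
    ((WithLp.linearEquiv 2 ℝ _).symm.prodCongr
      (WithLp.linearEquiv 2 ℝ _).symm)).toContinuousLinearEquiv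

theorem Q_co (x : Fin p ⊕ Fin n → ℝ) : ‖(co p n x).1‖ ^ 2 - ‖(co p n x).2‖ ^ 2 = Q p n x := by
  rw [EuclideanSpace.real_norm_sq_eq, EuclideanSpace.real_norm_sq_eq]; rfl

/-- The action in any linear model `e` of the coordinate space. -/
def act {W : Type*} [NormedAddCommGroup W] [NormedSpace ℝ W] (e : (Fin p ⊕ Fin n → ℝ) ≃L[ℝ] W)
    (Γ : Subgroup (OG p n)) : Γ →* (W →L[ℝ] W) where
  toFun γ := e.toContinuousLinearMap.comp
    ((LinearMap.toContinuousLinearMap (toLin' γ.val.val.val)).comp e.symm.toContinuousLinearMap)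
  map_one' := by ext1 w; simp
  map_mul' a b := by ext1 w; simp

theorem act_apply {W : Type*} [NormedAddCommGroup W] [NormedSpace ℝ W]
    (e : (Fin p ⊕ Fin n → ℝ) ≃L[ℝ] W) (Γ : Subgroup (OG p n)) (γ : Γ) (w : W) :
    act e Γ γ w = e (γ.val.val.val *ᵥ e.symm w) := rfl

/-- The reduction to a linear action on a model `W` with a function `qq` that reads `Q`. -/
theorem reduce {W : Type*} [NormedAddCommGroup W] [NormedSpace ℝ W]
    (e : (Fin p ⊕ Fin (q + 1) → ℝ) ≃L[ℝ] W) (qq : W → ℝ) (hq : ∀ x, qq (e x) = Q p (q + 1) x)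
    (Γ : Subgroup (OG p (q + 1)))
    (hΓ : ∀ K : Set (X p q), IsCompact K → {γ | γ ∈ Γ ∧ (rmul γ '' K ∩ K).Nonempty}.Finite)
    (hc : CompactSpace (Quotient (DoubleCoset.setoid (OH p q : Set (OG p (q + 1))) Γ))) :
    ∃ ρ : Γ →* (W →L[ℝ] W), (∀ γ w, qq (ρ γ w) = qq w) ∧
      (∀ R : ℝ, {γ | ∃ w, qq w = -1 ∧ ‖w‖ ≤ R ∧ ‖ρ γ w‖ ≤ R}.Finite) ∧
      ∃ R : ℝ, ∀ v, qq v = -1 → ∃ γ, ‖ρ γ⁻¹ v‖ ≤ R := by
  have hq' : ∀ w, Q p (q + 1) (e.symm w) = qq w := fun w => by rw [← hq, e.apply_symm_apply]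
  refine ⟨act e Γ, fun γ w => by rw [act_apply, hq, γ.val.2, hq'], fun R => ?_, ?_⟩
  · refine (proper_quadric Γ hΓ (‖e.symm.toContinuousLinearMap‖ * R)).subset ?_
    rintro γ ⟨w, h1, h2, h3⟩
    have b : ∀ z : W, ‖z‖ ≤ R → ‖e.symm z‖ ≤ ‖e.symm.toContinuousLinearMap‖ * R := fun z hz =>
      (e.symm.toContinuousLinearMap.le_opNorm z).trans
        (mul_le_mul_of_nonneg_left hz (norm_nonneg _))
    refine ⟨e.symm w, by rw [hq', h1], b w h2, ?_⟩
    simpa [act_apply] using b _ h3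
  · obtain ⟨R, hR⟩ := cocompact_quadric Γ hc
    refine ⟨‖e.toContinuousLinearMap‖ * R, fun v hv => ?_⟩
    obtain ⟨γ, hγ⟩ := hR (e.symm v) (by rw [hq', hv])
    exact ⟨γ, (e.toContinuousLinearMap.le_opNorm _).trans
      (mul_le_mul_of_nonneg_left hγ (norm_nonneg _))⟩

end HPQ
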