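import Pool.Agent.Lib.MP_320961_gt.Alg

/-! One step of descent. -/

open scoped RealInnerProductSpace ENNReal NNReal
open Set Metric MeasureTheory Filter Topology

noncomputable section

namespace H42

theorem step_deriv {A B C Q D E a : ℝ} (h : ∀ᶠ t in 𝓝[>] (0 : ℝ),
    A * (Q - 2 * D * t - E * t ^ 2) ≤ (A + 2 * B * t + C * t ^ 2) * Real.exp (a * t) * Q) :
    0 ≤ (2 * B + a * A) * Q + 2 * A * D := by
  have h0 := hasDerivAt_id' (0 : ℝ)
  have h1 : HasDerivAt (fun t : ℝ => A + 2 * B * t + C * t ^ 2) (2 * B) 0 := by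
    have := ((h0.const_mul (2 * B)).const_add A).add ((h0.fun_pow 2).const_mul C)
    exact this.congr_deriv (by simp)
  have h2 : HasDerivAt (fun t : ℝ => Real.exp (a * t)) a 0 := by
    have := (h0.const_mul a).exp
    exact this.congr_deriv (by simp)
  have h3 : HasDerivAt (fun t : ℝ => Q - 2 * D * t - E * t ^ 2) (-(2 * D)) 0 := by
    have := ((h0.const_mul (2 * D)).const_sub Q).sub ((h0.fun_pow 2).const_mul E)
    exact this.congr_deriv (by simp)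
  have h4 : HasDerivAt (fun t : ℝ => (A + 2 * B * t + C * t ^ 2) * Real.exp (a * t) * Q -
      A * (Q - 2 * D * t - E * t ^ 2)) ((2 * B + a * A) * Q + 2 * A * D) 0 := by
    have := ((h1.fun_mul h2).mul_const Q).fun_sub (h3.const_mul A)
    refine this.congr_deriv ?_
    simp only [mul_zero, add_zero, Real.exp_zero, mul_one, ne_eq, OfNat.ofNat_ne_zero,
      not_false_eq_true, zero_pow]
    ring
  refine ge_of_tendsto h4.tendsto_slope_zero_right ?_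
  filter_upwards [h, self_mem_nhdsWithin] with t ht ht0
  have ht1 : 0 < t := ht0
  simp only [zero_add, mul_zero, add_zero, Real.exp_zero, mul_one, ne_eq, OfNat.ofNat_ne_zero,
    not_false_eq_true, zero_pow, sub_zero, sub_self, smul_eq_mul]
  exact mul_nonneg (inv_pos.2 ht1).le (sub_nonneg.2 ht)

theorem step_q_add (y v : V) (t : ℝ) :
    qV (y + t • v) (y + t • v) = qV y y + 2 * qV y v * t + qV v v * t ^ 2 := by
  simp only [map_add, map_smul, LinearMap.add_apply, LinearMap.smul_apply, smul_eq_mul]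
  rw [qV_comm v y]
  ring

theorem step_n_add (x w : V) (t : ℝ) :
    ‖x + t • w‖ ^ 2 = ‖x‖ ^ 2 + 2 * ⟪x, w⟫ * t + ‖w‖ ^ 2 * t ^ 2 := by
  rw [norm_add_sq_real, real_inner_smul_right, norm_smul, mul_pow, Real.norm_eq_abs, sq_abs]
  ring

theorem step_ball {R₀ : ℝ} (hR : 1 ≤ R₀) {y y' : V} (hq : qV y y = -1) (hy : ‖y‖ ≤ R₀)
    (h : y' ∈ closedBall y (1 / (8 * R₀))) :
    -(3 / 2) ≤ qV y' y' ∧ qV y' y' ≤ -(1 / 2) ∧ ‖y'‖ ≤ R₀ + 1 := by
  rw [mem_closedBall, dist_eq_norm] at h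
  obtain ⟨d, rfl⟩ : ∃ d, y' = y + (1 : ℝ) • d := ⟨y' - y, by simp⟩
  have hd : ‖d‖ ≤ 1 / (8 * R₀) := by simpa using h
  have hd1 : ‖d‖ * R₀ ≤ 1 / 8 := by
    rw [le_div_iff₀ (by positivity)] at hd
    linarith
  have hd0 := norm_nonneg d
  have hd2 : ‖d‖ ≤ 1 / 8 := by nlinarith
  have h1 := abs_le.1 (abs_qV_le y d)
  have h2 := abs_le.1 (abs_qV_le d d)
  have h3 : ‖y‖ * ‖d‖ ≤ 1 / 8 := by nlinarith
  have h4 : ‖d‖ * ‖d‖ ≤ 1 / 8 := by nlinarith
  rw [step_q_add, hq]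
  refine ⟨by linarith [h1.1, h2.1], by linarith [h1.2, h2.2], ?_⟩
  rw [one_smul]
  linarith [norm_add_le y d]

theorem step_int {g : V →L[ℝ] V} (hg : Orth g) {y : V} (h1 : -(3 / 2) ≤ qV y y)
    (h2 : qV y y < 0) (h : ∀ v : V, ∀ᶠ t in 𝓝[>] (0 : ℝ), qV (y + t • v) (y + t • v) < 0 ∧
      nn (g y) ≤ nn (g (y + t • v)) * Real.exp (‖v‖ * t)) : nn (g y) ≤ 2 := by
  obtain ⟨Q, hQ⟩ : ∃ Q, Q = -qV y y := ⟨_, rfl⟩
  obtain ⟨A, hA⟩ : ∃ A, A = ‖g y‖ ^ 2 := ⟨_, rfl⟩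
  have hQ0 : 0 < Q := by linarith
  have hQ1 : Q ≤ 3 / 2 := by linarith
  have hA0 : 0 ≤ A := by rw [hA]; positivity
  obtain ⟨ζ, hζ⟩ := hg.surjective (Q • thV (g y) + A • g y)
  have k1 : ∀ v : V, 0 ≤ (2 * ⟪g y, g v⟫ + ‖v‖ * A) * Q + 2 * A * qV y v := by
    intro v
    refine step_deriv (C := ‖g v‖ ^ 2) (E := qV v v) ?_
    filter_upwards [h v] with t ht
    obtain ⟨a1, a2⟩ := ht
    rw [nn, nn, hg, hg, map_add, map_smul, step_n_add, div_mul_eq_mul_div,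
      div_le_div_iff₀ (by linarith) (by linarith), step_q_add, ← hA, ← hQ] at a2
    refine le_trans (le_of_eq ?_) a2
    rw [hQ]
    ring
  have k2 : ∀ v : V, qV ζ v = Q * ⟪g y, g v⟫ + A * qV y v := by
    intro v
    rw [← hg, hζ]
    simp only [map_add, map_smul, LinearMap.add_apply, LinearMap.smul_apply, smul_eq_mul]
    rw [qV_thV, hg]
  have k3 : 2 * ‖ζ‖ ^ 2 ≤ ‖ζ‖ * (A * Q) := by
    have a1 := k1 (-thV ζ)
    have a2 := k2 (-thV ζ)
    have a3 : qV ζ (-thV ζ) = -‖ζ‖ ^ 2 := by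
      rw [map_neg, qV_comm, qV_thV, real_inner_self_eq_norm_sq]
    rw [norm_neg, norm_thV] at a1
    linarith
  have k4 : qV ζ ζ = Q * (A ^ 2 - Q ^ 2) := by
    have a1 : qV (thV (g y)) (thV (g y)) = -Q := by
      rw [qV_thV, real_inner_comm, ← qV_eq, hg, hQ, neg_neg]
    have a2 : qV (thV (g y)) (g y) = A := by rw [qV_thV, real_inner_self_eq_norm_sq, hA]
    have a3 : qV (g y) (g y) = -Q := by rw [hg, hQ, neg_neg]
    rw [← hg, hζ]
    simp only [map_add, map_smul, LinearMap.add_apply, LinearMap.smul_apply, smul_eq_mul]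
    rw [qV_comm (g y) (thV (g y)), a1, a2, a3]
    ring
  have k5 : qV ζ ζ ≤ ‖ζ‖ * ‖ζ‖ := (le_abs_self _).trans (abs_qV_le ζ ζ)
  have hz := norm_nonneg ζ
  have k6 : 2 * ‖ζ‖ ≤ A * Q := by
    rcases hz.eq_or_lt with e | e
    · rw [← e, mul_zero]
      positivity
    · refine le_of_mul_le_mul_left ?_ e
      linarith
  have k7 : 4 * (Q * (A ^ 2 - Q ^ 2)) ≤ Q * (A ^ 2 * Q) := by nlinarith
  have k8 : 4 * (A ^ 2 - Q ^ 2) ≤ A ^ 2 * Q := by
    refine le_of_mul_le_mul_left ?_ hQ0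
    linarith
  rw [nn, hg, ← hA, ← hQ, div_le_iff₀ hQ0]
  by_contra k9
  push Not at k9
  nlinarith [mul_le_mul_of_nonneg_left hQ1 (sq_nonneg A)]

theorem step_main {R₀ : ℝ} (hR : 1 ≤ R₀) {g : V →L[ℝ] V} (hg : Orth g) {y : V}
    (hq : qV y y = -1) (hy : ‖y‖ ≤ R₀) : ∃ y' ∈ closedBall y (1 / (8 * R₀)),
      nn (g y') ≤ 2 ∨ nn (g y') ≤ Real.exp (-(1 / (8 * R₀))) * nn (g y) := by
  have hδ : 0 < 1 / (8 * R₀) := by positivity
  have hb : ∀ y' ∈ closedBall y (1 / (8 * R₀)), _ := fun y' h => step_ball hR hq hy h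
  generalize 1 / (8 * R₀) = δ at hδ hb ⊢
  have hc : ContinuousOn (fun z : V => nn (g z) * Real.exp ‖z - y‖) (closedBall y δ) := by
    refine ContinuousOn.mul ?_ (Continuous.continuousOn (by fun_prop))
    refine ContinuousOn.div (Continuous.continuousOn (by fun_prop))
      (continuous_qV g.continuous g.continuous).neg.continuousOn fun z hz => ?_
    rw [hg]
    linarith [(hb z hz).2.1]
  obtain ⟨z, hz, hm⟩ := (isCompact_closedBall y δ).exists_isMinOn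
    ⟨y, mem_closedBall_self hδ.le⟩ hc
  refine ⟨z, hz, ?_⟩
  rcases (mem_closedBall.1 hz).eq_or_lt with e | e
  · right
    have h1 : nn (g z) * Real.exp ‖z - y‖ ≤ nn (g y) * Real.exp ‖y - y‖ :=
      hm (mem_closedBall_self hδ.le)
    rw [← dist_eq_norm, e, sub_self, norm_zero, Real.exp_zero, mul_one] at h1
    rw [Real.exp_neg, mul_comm, ← div_eq_mul_inv, le_div_iff₀ (Real.exp_pos _)]
    exact h1
  · left
    refine step_int hg (hb z hz).1 (by linarith [(hb z hz).2.1]) fun v => ?_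
    have h1 : Tendsto (fun t : ℝ => z + t • v) (𝓝 0) (𝓝 z) :=
      Continuous.tendsto' (by fun_prop) _ _ (by simp)
    have h2 : ∀ᶠ t in 𝓝 (0 : ℝ), z + t • v ∈ ball y δ := h1.eventually (isOpen_ball.mem_nhds e)
    filter_upwards [mem_nhdsWithin_of_mem_nhds h2, self_mem_nhdsWithin] with t ht ht0
    have ht1 : 0 < t := ht0
    have ht2 : z + t • v ∈ closedBall y δ := ball_subset_closedBall ht
    have h3 : qV (z + t • v) (z + t • v) < 0 := by linarith [(hb _ ht2).2.1]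
    refine ⟨h3, ?_⟩
    have h4 : nn (g z) * Real.exp ‖z - y‖ ≤ nn (g (z + t • v)) * Real.exp ‖z + t • v - y‖ :=
      hm ht2
    have h5 : ‖z + t • v - y‖ ≤ ‖v‖ * t + ‖z - y‖ := by
      rw [add_sub_right_comm, add_comm]
      refine (norm_add_le _ _).trans (le_of_eq ?_)
      rw [norm_smul, Real.norm_of_nonneg ht1.le, mul_comm]
    have h6 : 0 ≤ nn (g (z + t • v)) := zero_le_one.trans (one_le_nn (by rw [hg]; exact h3))
    refine le_of_mul_le_mul_right (h4.trans ?_) (Real.exp_pos ‖z - y‖)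
    rw [mul_assoc, ← Real.exp_add]
    exact mul_le_mul_of_nonneg_left (Real.exp_le_exp.2 h5) h6

/-- Normalise `qV y y = -1` (`nn_smul`). On `K = closedBall y δ` one has `-3/2 ≤ q ≤ -1/2` and
`nn ≤ R₁`. Minimise `f y' + ‖y' - y‖`, `f y' = log ‖g y'‖² - log (-qV y' y') = log (nn (g y'))`,
on `K`. On the sphere: done. At an interior minimum `y*` the derivative of `t ↦ f (y* + t • v)` at
`0` is at least `-‖v‖`; it equals `2 qV (g v) z` with `x = g y*`,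
`z = (‖x‖²)⁻¹ • thV x - (qV x x)⁻¹ • x`; write `z = g ζ`, take `v = -thV ζ`: `‖ζ‖ ≤ 1/2`. But
`‖ζ‖² ≥ qV ζ ζ = qV z z = (1 - (nn x)⁻²)/(-qV x x) ≥ 1/2` when `nn x ≥ 2`. -/
theorem sharp_step {R₀ : ℝ} (hR : 1 ≤ R₀) : ∃ R₁ δ : ℝ, 0 < δ ∧ R₀ ≤ R₁ ∧ 2 ≤ R₁ ∧
    ∀ g : V →L[ℝ] V, Orth g → ∀ y, qV y y < 0 → nn y ≤ R₀ →
      ∃ y', qV y' y' < 0 ∧ nn y' ≤ R₁ ∧
        (nn (g y') ≤ 2 ∨ nn (g y') ≤ Real.exp (-δ) * nn (g y)) := by
  refine ⟨2 * (R₀ + 1) ^ 2, 1 / (8 * R₀), by positivity, by nlinarith, by nlinarith,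
    fun g hg y hy hn => ?_⟩
  have hs : 0 < √(-qV y y) := Real.sqrt_pos.2 (by linarith)
  have hc : (√(-qV y y))⁻¹ ≠ 0 := inv_ne_zero hs.ne'
  have hq : qV ((√(-qV y y))⁻¹ • y) ((√(-qV y y))⁻¹ • y) = -1 := by
    simp only [map_smul, LinearMap.smul_apply, smul_eq_mul]
    rw [← mul_assoc, ← mul_inv, Real.mul_self_sqrt (by linarith), inv_neg, neg_mul,
      inv_mul_cancel₀ hy.ne]
  have h1 : nn (g y) = nn (g ((√(-qV y y))⁻¹ • y)) := by rw [map_smul, nn_smul hc]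
  rw [← nn_smul hc] at hn
  rw [h1]
  generalize (√(-qV y y))⁻¹ • y = y₀ at hq hn ⊢
  have h2 : ‖y₀‖ ≤ R₀ := by
    rw [nn, hq, neg_neg, div_one] at hn
    refine abs_le_of_sq_le_sq' ?_ (by linarith) |>.2
    nlinarith
  obtain ⟨y', h3, h4⟩ := step_main hR hg hq h2
  obtain ⟨-, h5, h6⟩ := step_ball hR hq h2 h3
  refine ⟨y', by linarith, ?_, h4⟩
  rw [nn, div_le_iff₀ (by linarith)]
  have h7 : ‖y'‖ ^ 2 ≤ (R₀ + 1) ^ 2 := pow_le_pow_left₀ (norm_nonneg _) h6 2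
  nlinarith [sq_nonneg (R₀ + 1)]

end H42
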