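import Mathlib

/-! The groups `O(p,q+1)` and `O(p,q)`, the space `O(p,q) \ O(p,q+1)` and its right translations. -/

open Matrix

namespace HPQ

/-- The quadratic form of signature `(p, n)`. -/
def Q (p n : ℕ) (x : Fin p ⊕ Fin n → ℝ) : ℝ :=
  ∑ i, x (Sum.inl i) ^ 2 - ∑ j, x (Sum.inr j) ^ 2

/-- The group `O(p, n)` of invertible real matrices that preserve `Q p n`. -/
def OG (p n : ℕ) : Subgroup (GL (Fin p ⊕ Fin n) ℝ) where
  carrier := {g | ∀ x, Q p n (g.val *ᵥ x) = Q p n x}
  one_mem' := fun x => by simp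
  mul_mem' := fun {a b} ha hb x => by
    rw [Units.val_mul, ← mulVec_mulVec, ha, hb]
  inv_mem' := fun {a} ha x => by
    rw [← ha, mulVec_mulVec, a.mul_inv, one_mulVec]

/-- The last basis vector, on which `Q` is `-1`. -/
def base (p q : ℕ) : Fin p ⊕ Fin (q + 1) → ℝ := Pi.single (Sum.inr (Fin.last q)) 1

/-- The subgroup `O(p, q)` of `O(p, q+1)`: the stabiliser of the last basis vector. -/
def OH (p q : ℕ) : Subgroup (OG p (q + 1)) where
  carrier := {g | g.val.val *ᵥ base p q = base p q}
  one_mem' := by simp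
  mul_mem' := fun {a b} ha hb => by
    change (a.val.val * b.val.val) *ᵥ base p q = base p q
    rw [← mulVec_mulVec, hb, ha]
  inv_mem' := fun {a} ha => by
    change (a.val⁻¹).val *ᵥ base p q = base p q
    conv_lhs => rw [← ha]
    rw [mulVec_mulVec, a.val.inv_mul, one_mulVec]

/-- The space `H \ G` of right cosets, with the quotient topology. -/
abbrev X (p q : ℕ) : Type := Quotient (QuotientGroup.rightRel (OH p q))

/-- Right translation `H g ↦ H g γ`. -/
def rmul {p q : ℕ} (γ : OG p (q + 1)) : X p q → X p q :=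
  Quotient.map (fun g => g * γ) fun a b h => by
    have h' := QuotientGroup.rightRel_apply.1 h
    refine QuotientGroup.rightRel_apply.2 ?_
    rwa [_root_.mul_inv_rev, mul_assoc, mul_inv_cancel_left]

end HPQ
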