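import Pool.Agent.Lib.MP_320961_gt.Cover

/-! The limit set has a lift of constant sign. -/

open scoped RealInnerProductSpace ENNReal NNReal
open Set Metric MeasureTheory Filter Topology

noncomputable section

namespace H42

/-- `pOf s = pOf t` on `L` forces `t = s` or `t = -s` (`cl_pOf`, `norm_pOf`, `ker_null`). -/
theorem Pre.fibre {L : Set S} (hL : Pre L) {s t : S} (hs : s ∈ L) (ht : t ∈ L)
    (h : pOf s = pOf t) : t = s ∨ t = -s := by
  by_contra hne
  rw [not_or] at hne
  refine hL.trans s hs t ht hne.1 hne.2 (ker_null (norm_pOf (hL.norm s hs) (hL.null s hs))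
    (cl_pOf (hL.norm s hs) (hL.null s hs)) ?_)
  rw [h]
  exact cl_pOf (hL.norm t ht) (hL.null t ht)

theorem Pre.onto {L : Set S} (hL : Pre L) {p : E4} (hp : ‖p‖ = 1) : ∃ s ∈ L, pOf s = p := by
  obtain ⟨s, hs, h⟩ := hL.cover p hp
  exact ⟨s, hs, pOf_eq (hL.norm s hs) (hL.null s hs) h⟩

theorem top1_sphere {a : E4} (ha : a ∈ sphere (0 : E4) 1) (b : E4) :
    IsPreconnected (sphere (0 : E4) 1 \ {a, b}) := by
  have : Fact (Module.finrank ℝ E4 = 3 + 1) := ⟨by simp⟩
  set φ := stereographic' 3 (⟨a, ha⟩ : sphere (0 : E4) 1) with hφ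
  have hsrc : φ.source = {(⟨a, ha⟩ : sphere (0 : E4) 1)}ᶜ := stereographic'_source _
  have htgt : φ.target = univ := stereographic'_target _
  have hcont : Continuous fun y : EuclideanSpace ℝ (Fin 3) => (φ.symm y : E4) := by
    refine continuous_subtype_val.comp ?_
    rw [← continuousOn_univ, ← htgt]
    exact φ.continuousOn_symm
  have hsub : ({y : EuclideanSpace ℝ (Fin 3) | (φ.symm y : E4) = b}).Subsingleton := by
    intro y hy z hz
    have h1 : φ.symm y = φ.symm z := Subtype.ext (hy.trans hz.symm)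
    have hy' : y ∈ φ.target := by rw [htgt]; trivial
    have hz' : z ∈ φ.target := by rw [htgt]; trivial
    rw [← φ.right_inv hy', h1, φ.right_inv hz']
  have hrank : 1 < Module.rank ℝ (EuclideanSpace ℝ (Fin 3)) := by
    rw [← Module.finrank_eq_rank]
    simp
  have hcon := (hsub.finite.countable.isConnected_compl_of_one_lt_rank hrank).isPreconnected
  have him := hcon.image _ hcont.continuousOn
  convert him using 1
  ext x
  constructor
  · rintro ⟨hx, hab⟩
    simp only [mem_insert_iff, mem_singleton_iff, not_or] at hab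
    have hxs : (⟨x, hx⟩ : sphere (0 : E4) 1) ∈ φ.source := by
      rw [hsrc]
      intro h
      exact hab.1 (congrArg Subtype.val h)
    have hl := φ.left_inv hxs
    refine ⟨φ ⟨x, hx⟩, ?_, ?_⟩
    · intro h
      simp only [mem_ofPred_eq, hl] at h
      exact hab.2 h
    · simp only [hl]
  · rintro ⟨y, hy, rfl⟩
    refine ⟨(φ.symm y).2, ?_⟩
    have hy' : y ∈ φ.target := by rw [htgt]; trivial
    have hm := φ.map_target hy'
    rw [hsrc] at hm
    simp only [mem_insert_iff, mem_singleton_iff, not_or]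
    exact ⟨fun h => hm (Subtype.ext h), hy⟩

/-- The unit sphere of `E4` minus at most two points is preconnected (stereographic projection
`stereographic'` and `isConnected_compl_singleton_of_one_lt_rank`, or radial projection of the
complement of two rays; `Set.Countable.isPathConnected_compl_of_one_lt_rank`). -/
theorem sphere_diff_pre (a b : E4) : IsPreconnected (sphere (0 : E4) 1 \ {a, b}) := by
  by_cases ha : a ∈ sphere (0 : E4) 1
  · exact top1_sphere ha b
  by_cases hb : b ∈ sphere (0 : E4) 1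
  · rw [Set.pair_comm]
    exact top1_sphere hb a
  have hrank : 1 < Module.rank ℝ E4 := by
    rw [← Module.finrank_eq_rank]
    simp
  have h : sphere (0 : E4) 1 \ {a, b} = sphere (0 : E4) 1 := by
    refine Set.Subset.antisymm sdiff_subset fun x hx => ⟨hx, ?_⟩
    rintro (rfl | rfl)
    · exact ha hx
    · exact hb hx
  rw [h]
  exact isPreconnected_sphere hrank _ _

theorem top1_line {L : Set S} (hL : Pre L) {s t : S} (hs : s ∈ L) (ht : t ∈ L)
    (h : qS s t = 0) : t = s ∨ t = -s := by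
  by_contra hne
  rw [not_or] at hne
  exact hL.trans s hs t ht hne.1 hne.2 h

theorem top1_zero {L : Set S} (hL : Pre L) {s t : S} (hs : s ∈ L) (ht : t ∈ L)
    (h : pOf s = pOf t) : qS s t = 0 := by
  rcases hL.fibre hs ht h with rfl | rfl
  · exact hL.null _ hs
  · rw [map_neg, hL.null _ hs, neg_zero]

theorem top1_pOf {L : Set S} (hL : Pre L) {s t : S} (hs : s ∈ L) (ht : t ∈ L)
    (h : qS s t = 0) : pOf s = pOf t := by
  rcases top1_line hL hs ht h with rfl | rfl
  · rfl
  · exact (pOf_neg s).symm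

theorem top1_compact {L : Set S} (hL : Pre L) : IsCompact L :=
  (isCompact_sphere (0 : S) 1).of_isClosed_subset hL.closed fun s hs => by
    simpa using hL.norm s hs

theorem top1_not {L : Set S} (hL : Pre L) {a b s t : S} (ha : a ∈ L) (hb : b ∈ L)
    (hs : s ∈ L) (ht : t ∈ L) (h1 : 0 < qS s a * qS s b) (h2 : qS t a * qS t b < 0) : False := by
  have hf : Continuous fun u : S => qS u a * qS u b :=
    (continuous_qS continuous_id continuous_const).mul
      (continuous_qS continuous_id continuous_const)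
  have hP : IsClosed (pOf '' (L ∩ {u | 0 ≤ qS u a * qS u b})) :=
    (((top1_compact hL).inter_right (isClosed_le continuous_const hf)).image
      continuous_pOf).isClosed
  have hN : IsClosed (pOf '' (L ∩ {u | qS u a * qS u b ≤ 0})) :=
    (((top1_compact hL).inter_right (isClosed_le hf continuous_const)).image
      continuous_pOf).isClosed
  have hmem : ∀ u ∈ L, qS u a * qS u b ≠ 0 → pOf u ∈ sphere (0 : E4) 1 \ {pOf a, pOf b} := by
    intro u hu h
    refine ⟨by simpa using norm_pOf (hL.norm u hu) (hL.null u hu), ?_⟩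
    rintro (h' | h')
    · exact h (by rw [top1_zero hL hu ha h', zero_mul])
    · exact h (by rw [top1_zero hL hu hb h', mul_zero])
  obtain ⟨p, hp, ⟨u, ⟨hu, hu0⟩, hup⟩, ⟨u', ⟨hu', hu0'⟩, hup'⟩⟩ :=
    isPreconnected_closed_iff.1 (sphere_diff_pre (pOf a) (pOf b)) _ _ hP hN
      (fun p hp => by
        obtain ⟨u, hu, hup⟩ := hL.onto (p := p) (by simpa using hp.1)
        rcases le_total 0 (qS u a * qS u b) with h | h
        · exact Or.inl ⟨u, ⟨hu, h⟩, hup⟩
        · exact Or.inr ⟨u, ⟨hu, h⟩, hup⟩)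
      ⟨pOf s, hmem s hs h1.ne', s, ⟨hs, h1.le⟩, rfl⟩
      ⟨pOf t, hmem t ht h2.ne, t, ⟨ht, h2.le⟩, rfl⟩
  have h0 : qS u a * qS u b = 0 := by
    refine le_antisymm ?_ hu0
    rcases hL.fibre hu hu' (hup.trans hup'.symm) with rfl | rfl
    · exact hu0'
    · simpa using hu0'
  apply hp.2
  rw [← hup]
  rcases mul_eq_zero.1 h0 with h | h
  · exact Or.inl (top1_pOf hL hu ha h)
  · exact Or.inr (top1_pOf hL hu hb h)

/-- The images under `pOf` of the compact sets `{s ∈ L | 0 ≤ ± qS s a * qS s b}` are closed, cover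
the sphere, and meet only in `pOf a`, `pOf b` (`isPreconnected_closed_iff` or
`IsPreconnected.subset_or_subset`). -/
theorem Pre.same_sign {L : Set S} (hL : Pre L) {a b s t : S} (ha : a ∈ L) (hb : b ∈ L)
    (hs : s ∈ L) (ht : t ∈ L) (hsa : qS s a ≠ 0) (hsb : qS s b ≠ 0) (hta : qS t a ≠ 0)
    (htb : qS t b ≠ 0) : 0 < qS s a * qS s b * (qS t a * qS t b) := by
  rcases lt_or_gt_of_ne (mul_ne_zero hsa hsb) with h1 | h1 <;>
    rcases lt_or_gt_of_ne (mul_ne_zero hta htb) with h2 | h2
  · exact mul_pos_of_neg_of_neg h1 h2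
  · exact (top1_not hL ha hb ht hs h2 h1).elim
  · exact (top1_not hL ha hb hs ht h1 h2).elim
  · exact mul_pos h1 h2

/-- The triple product. -/
def top1G (a s t : S) : ℝ := qS s t * qS t a * qS s a

theorem top1G_comm (a s t : S) : top1G a s t = top1G a t s := by
  unfold top1G
  rw [qS_comm s t]
  ring

theorem top1G_neg (a s t : S) : top1G a (-s) t = top1G a s t := by
  simp [top1G]

theorem top1G_ne {a s t : S} : top1G a s t ≠ 0 ↔ qS s t ≠ 0 ∧ qS t a ≠ 0 ∧ qS s a ≠ 0 := by
  simp [top1G, and_assoc]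

theorem top1_move {L : Set S} (hL : Pre L) {a s s' t : S} (ha : a ∈ L) (hs : s ∈ L)
    (hs' : s' ∈ L) (ht : t ∈ L) (h : top1G a s t ≠ 0) (h' : top1G a s' t ≠ 0) :
    0 < top1G a s t * top1G a s' t := by
  obtain ⟨h1, h2, h3⟩ := top1G_ne.1 h
  obtain ⟨h4, -, h5⟩ := top1G_ne.1 h'
  have h6 := hL.same_sign ht ha hs hs' h1 h3 h4 h5
  have h7 : top1G a s t * top1G a s' t =
      qS s t * qS s a * (qS s' t * qS s' a) * (qS t a * qS t a) := by
    unfold top1G
    ring
  rw [h7]
  exact mul_pos h6 (mul_self_pos.2 h2)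

theorem top1_all {L : Set S} (hL : Pre L) {a s s' t t' : S} (ha : a ∈ L) (hs : s ∈ L)
    (hs' : s' ∈ L) (ht : t ∈ L) (ht' : t' ∈ L) (h : top1G a s t ≠ 0) (h' : top1G a s' t' ≠ 0) :
    0 < top1G a s t * top1G a s' t' := by
  by_cases h0 : qS t s' = 0
  · have he : top1G a s' t' = top1G a t' t := by
      rcases top1_line hL ht hs' h0 with rfl | rfl
      · exact top1G_comm _ _ _
      · rw [top1G_neg, top1G_comm]
    rw [he] at h' ⊢
    exact top1_move hL ha hs ht' ht h h'
  · have hm : top1G a s' t ≠ 0 :=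
      top1G_ne.2 ⟨by rwa [qS_comm], (top1G_ne.1 h).2.1, (top1G_ne.1 h').2.2⟩
    have h1 := top1_move hL ha hs hs' ht h hm
    have h2 := top1_move hL ha ht ht' hs' (by rwa [top1G_comm]) (by rwa [top1G_comm])
    rw [top1G_comm a t s', top1G_comm a t' s'] at h2
    have h3 : top1G a s t * top1G a s' t * (top1G a s' t * top1G a s' t') =
        top1G a s t * top1G a s' t' * (top1G a s' t * top1G a s' t) := by ring
    have h4 := mul_pos h1 h2
    rw [h3] at h4
    exact (mul_pos_iff_of_pos_right (mul_self_pos.2 hm)).1 h4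

theorem top1_e {L : Set S} (hL : Pre L) {a : S} (ha : a ∈ L) : ∃ e : ℝ, (e = 1 ∨ e = -1) ∧
    ∀ s ∈ L, ∀ t ∈ L, top1G a s t ≠ 0 → 0 < e * top1G a s t := by
  by_cases h : ∃ s ∈ L, ∃ t ∈ L, 0 < top1G a s t
  · obtain ⟨s, hs, t, ht, h⟩ := h
    refine ⟨1, Or.inl rfl, fun s' hs' t' ht' h' => ?_⟩
    rw [one_mul]
    exact (mul_pos_iff_of_pos_left h).1 (top1_all hL ha hs hs' ht ht' h.ne' h')
  · refine ⟨-1, Or.inr rfl, fun s hs t ht h' => ?_⟩
    rcases lt_or_gt_of_ne h' with h1 | h1
    · linarith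
    · exact (h ⟨s, hs, t, ht, h1⟩).elim

/-- Fix `s₀ ∈ L`. The sign `e` of `qS s t * qS t s₀ * qS s₀ s` is the same for all `s, t ∈ L` on
three different lines (move `s`, then `t`; if the new `s` lies on the line of the old `t` use the
symmetry). `L' = {s ∈ L | 0 < e * qS s s₀} ∪ {s₀}`; with `s₁ ∈ L'`, `s₁ ≠ s₀`,
`L' = {s ∈ L | 0 ≤ e * qS s (s₀ + s₁)}` is closed. -/
theorem Pre.sign {L : Set S} (hL : Pre L) : ∃ (L' : Set S) (e : ℝ), (e = 1 ∨ e = -1) ∧
    IsClosed L' ∧ L' ⊆ L ∧ (∀ s ∈ L, s ∈ L' ∨ -s ∈ L') ∧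
      ∀ s ∈ L', ∀ t ∈ L', s ≠ t → 0 < e * qS s t := by
  obtain ⟨s₀, hs₀, hp₀⟩ := hL.onto (norm_ee 0)
  obtain ⟨s₂, hs₂, hp₂⟩ := hL.onto (norm_ee 1)
  obtain ⟨e, he, hG⟩ := top1_e hL hs₀
  have he0 : e ≠ 0 := by rcases he with rfl | rfl <;> norm_num
  have hee : e * e = 1 := by rcases he with rfl | rfl <;> norm_num
  set L' : Set S := {s | s ∈ L ∧ (0 < e * qS s s₀ ∨ s = s₀)} with hL'
  have hsub : L' ⊆ L := fun s hs => hs.1
  have hcov : ∀ s ∈ L, s ∈ L' ∨ -s ∈ L' := by
    intro s hs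
    by_cases h0 : qS s₀ s = 0
    · rcases top1_line hL hs₀ hs h0 with h | h
      · exact Or.inl ⟨hs, Or.inr h⟩
      · exact Or.inr ⟨hL.neg s hs, Or.inr (by rw [h, neg_neg])⟩
    · rw [qS_comm] at h0
      rcases lt_or_gt_of_ne (mul_ne_zero he0 h0) with h | h
      · refine Or.inr ⟨hL.neg s hs, Or.inl ?_⟩
        rw [map_neg, LinearMap.neg_apply]
        linarith
      · exact Or.inl ⟨hs, Or.inl h⟩
  have hpos : ∀ s ∈ L', ∀ t ∈ L', s ≠ t → 0 < e * qS s t := by
    rintro s ⟨hs, hs'⟩ t ⟨ht, ht'⟩ hne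
    rcases hs' with hs' | rfl
    · rcases ht' with ht' | rfl
      · have hst : qS s t ≠ 0 := by
          refine hL.trans s hs t ht hne.symm ?_
          rintro rfl
          rw [map_neg, LinearMap.neg_apply] at ht'
          linarith
        have h1 : qS t s₀ ≠ 0 := fun h => by simp [h] at ht'
        have h2 : qS s s₀ ≠ 0 := fun h => by simp [h] at hs'
        have h3 := hG s hs t ht (top1G_ne.2 ⟨hst, h1, h2⟩)
        have h4 : e * top1G s₀ s t = e * qS s t * (e * qS t s₀ * (e * qS s s₀)) := by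
          unfold top1G
          linear_combination (-(e * qS s t * qS t s₀ * qS s s₀)) * hee
        rw [h4] at h3
        exact (mul_pos_iff_of_pos_right (mul_pos ht' hs')).1 h3
      · exact hs'
    · rcases ht' with ht' | rfl
      · rwa [qS_comm]
      · exact (hne rfl).elim
  have hnn : ∀ s ∈ L', ∀ t ∈ L', 0 ≤ e * qS s t := by
    intro s hs t ht
    by_cases h : s = t
    · rw [← h, hL.null s hs.1, mul_zero]
    · exact (hpos s hs t ht h).le
  have hs₀' : s₀ ∈ L' := ⟨hs₀, Or.inr rfl⟩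
  have hee01 : ee 1 ≠ ee 0 := by
    intro h
    have := congrArg (fun x : E4 => x 0) h
    simp [ee] at this
  obtain ⟨s₁, hs₁, hne⟩ : ∃ s₁ ∈ L', s₁ ≠ s₀ := by
    rcases hcov s₂ hs₂ with h | h
    · refine ⟨s₂, h, fun h' => hee01 ?_⟩
      rw [← hp₂, h', hp₀]
    · refine ⟨-s₂, h, fun h' => hee01 ?_⟩
      rw [← hp₂, ← pOf_neg, h', hp₀]
  have heq : L' = L ∩ {s | 0 ≤ e * qS s s₀ + e * qS s s₁} := by
    ext s
    constructor
    · intro hs
      exact ⟨hs.1, add_nonneg (hnn s hs s₀ hs₀') (hnn s hs s₁ hs₁)⟩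
    · rintro ⟨hs, h⟩
      rcases hcov s hs with h' | h'
      · exact h'
      · exfalso
        have h1 := hnn _ h' s₀ hs₀'
        have h2 := hnn _ h' s₁ hs₁
        simp only [mem_ofPred_eq] at h
        by_cases h0 : -s = s₀
        · have h3 := hpos _ h' s₁ hs₁ (fun h4 => hne (h4.symm.trans h0))
          rw [map_neg, LinearMap.neg_apply] at h1 h3
          linarith
        · have h3 := hpos _ h' s₀ hs₀' h0
          rw [map_neg, LinearMap.neg_apply] at h2 h3
          linarith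
  refine ⟨L', e, he, ?_, hsub, hcov, hpos⟩
  rw [heq]
  exact hL.closed.inter (isClosed_le continuous_const
    ((continuous_const.mul (continuous_qS continuous_id continuous_const)).add
      (continuous_const.mul (continuous_qS continuous_id continuous_const))))

end H42
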