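import Pool.Agent.Lib.MP_320961_gt.Top1
import Pool.Agent.Lib.MP_fcccf2_gt.Lower

/-! The cone over the lift is a graph. -/

open scoped RealInnerProductSpace ENNReal NNReal
open Set Metric MeasureTheory Filter Topology

noncomputable section

namespace H42

/-- Borsuk-Ulam (`Pool.Agent.Lib.MP_fcccf2_gt.borsuk_ulam 3 3`), as in
`Pool/Agent/Lib/MP_e1e491_gt/CC/Surj.lean`; the complement of a point maps injectively to
`EuclideanSpace ℝ (Fin 3)` by `stereographic'`. -/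
theorem sphere_surj {f : sphere (0 : E4) 1 → sphere (0 : E4) 1} (hc : Continuous f)
    (hi : Function.Injective f) : Function.Surjective f := by
  classical
  intro y
  by_contra hy
  push Not at hy
  have : Fact (Module.finrank ℝ E4 = 3 + 1) := ⟨by simp⟩
  let e := stereographic' 3 y
  have hm : ∀ x, f x ∈ e.source := fun x => by simpa [e] using hy x
  let φ : sphere (0 : E4) 1 → E3 := fun x => e (f x)
  have hφ : Continuous φ := e.continuousOn.comp_continuous hc hm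
  have hφi : Function.Injective φ := fun a b h => hi (e.injOn (hm a) (hm b) h)
  let ψ : E4 → Fin 3 → ℝ := fun x =>
    if h : x ∈ sphere (0 : E4) 1 then fun i => φ ⟨x, h⟩ i else 0
  have hψ : ContinuousOn ψ (sphere 0 1) := by
    rw [continuousOn_iff_continuous_domRestrict]
    have h : Continuous fun (x : sphere (0 : E4) 1) (i : Fin 3) => φ x i := by fun_prop
    refine h.congr fun x => ?_
    change _ = ψ x.1
    simp only [ψ, dif_pos x.2]
  obtain ⟨x, hx, h0⟩ := Pool.Agent.Lib.MP_fcccf2_gt.borsuk_ulam 3 3 three_pos le_rfl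
    (fun x => ψ x - ψ (-x))
    (hψ.sub (hψ.comp continuous_neg.continuousOn fun x hx => by simpa using hx))
    (fun x => by simp)
  have h1 : x ∈ sphere (0 : E4) 1 := by simpa using hx
  have h2 : -x ∈ sphere (0 : E4) 1 := by simpa using hx
  have h3 : φ ⟨x, h1⟩ = φ ⟨-x, h2⟩ := by
    ext i
    have := congrFun (sub_eq_zero.1 h0) i
    simpa only [ψ, dif_pos h1, dif_pos h2] using this
  have h4 : x = -x := congrArg Subtype.val (hφi h3)
  have h5 : x = 0 := by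
    have : (2 : ℝ) • x = 0 := by rw [two_smul]; nth_rewrite 2 [h4]; simp
    simpa using this
  simp [h5] at hx

/-- `pOf` is a continuous bijection from the compact `L'` onto the sphere, so a homeomorphism
(`Continuous.homeoOfEquivCompactToT2`); compose its inverse with `√2 • f`. -/
theorem Pre.proj_onto {L L' : Set S} (hL : Pre L) (hc : IsClosed L') (hs : L' ⊆ L)
    (hpm : ∀ s ∈ L, s ∈ L' ∨ -s ∈ L') (hne : ∀ s ∈ L', -s ∉ L') (f : S →L[ℝ] E4)
    (hi : InjOn f L') (hn : ∀ s ∈ L', ‖f s‖ ^ 2 = 1 / 2) (u : E4) (hu : ‖u‖ ^ 2 = 1 / 2) :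
    ∃ s ∈ L', f s = u := by
  have hK : IsCompact L' := (isCompact_sphere (0 : S) 1).of_isClosed_subset hc fun s h => by
    simpa using hL.norm s (hs h)
  have : CompactSpace L' := isCompact_iff_compactSpace.1 hK
  let π : L' → sphere (0 : E4) 1 := fun s =>
    ⟨pOf s, by simpa using norm_pOf (hL.norm s (hs s.2)) (hL.null s (hs s.2))⟩
  have hπ : Function.Bijective π := by
    constructor
    · intro s t h
      rcases hL.fibre (hs s.2) (hs t.2) (congrArg Subtype.val h) with e | e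
      · exact Subtype.ext e.symm
      · exact absurd (e ▸ t.2) (hne s s.2)
    · intro p
      obtain ⟨s, h1, h2⟩ := hL.onto (p := p) (by simp)
      rcases hpm s h1 with h | h
      · exact ⟨⟨s, h⟩, Subtype.ext h2⟩
      · exact ⟨⟨-s, h⟩, Subtype.ext ((pOf_neg s).trans h2)⟩
  let H : L' ≃ₜ sphere (0 : E4) 1 := Continuous.homeoOfEquivCompactToT2
    (f := Equiv.ofBijective π hπ) ((continuous_pOf.comp continuous_subtype_val).subtype_mk _)
  have h2 : (√2 : ℝ) ≠ 0 := by positivity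
  have key : ∀ v : E4, ‖v‖ ^ 2 = 1 / 2 → (√2 : ℝ) • v ∈ sphere (0 : E4) 1 := fun v hv => by
    rw [mem_sphere_zero_iff_norm, ← sq_eq_sq₀ (norm_nonneg _) zero_le_one, norm_smul, mul_pow,
      hv, Real.norm_eq_abs, sq_abs, Real.sq_sqrt zero_le_two]
    norm_num
  let g : sphere (0 : E4) 1 → sphere (0 : E4) 1 := fun x =>
    ⟨(√2 : ℝ) • f (H.symm x), key _ (hn _ (H.symm x).2)⟩
  have hg : Continuous g :=
    ((f.continuous.comp (continuous_subtype_val.comp H.symm.continuous)).const_smul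
      (√2 : ℝ)).subtype_mk _
  have hgi : Function.Injective g := fun a b h =>
    H.symm.injective (Subtype.ext (hi (H.symm a).2 (H.symm b).2
      (smul_right_injective E4 h2 (congrArg Subtype.val h))))
  obtain ⟨x, hx⟩ := sphere_surj hg hgi ⟨_, key u hu⟩
  exact ⟨H.symm x, (H.symm x).2, smul_right_injective E4 h2 (congrArg Subtype.val hx)⟩

/-- The cone over `L₀`. -/
def cone (L₀ : Set S) : Set S := {s | ∃ t : ℝ, 0 ≤ t ∧ ∃ s₀ ∈ L₀, s = t • s₀}

/-- On the cone `qS s s = 0` and `qS s t ≤ 0`, so `qS (s - t) (s - t) ≥ 0`, that is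
`‖s.snd - t.snd‖ ≤ ‖s.fst - t.fst‖`. Choose `F u` with `mkS u (F u)` in the cone. For `half` take
`s₁, s₂ ∈ L₀` with opposite first parts, `b = s₁.snd + s₂.snd`; `-⟪s.snd, b⟫ = qS s (s₁ + s₂) < 0`
on the compact `L₀`. -/
theorem exists_cone {L₀ : Set S} (hc : IsCompact L₀) (h1 : ∀ s ∈ L₀, ‖s‖ = 1)
    (h0 : ∀ s ∈ L₀, qS s s = 0) (hneg : ∀ s ∈ L₀, ∀ t ∈ L₀, s ≠ t → qS s t < 0)
    (hon : ∀ u : E4, ‖u‖ ^ 2 = 1 / 2 → ∃ s ∈ L₀, s.fst = u) :
    ∃ F, Cone F ∧ range (gr F) = cone L₀ := by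
  have hle : ∀ s ∈ L₀, ∀ t ∈ L₀, qS s t ≤ 0 := fun s hs t ht => by
    rcases eq_or_ne s t with rfl | e
    · exact (h0 s hs).le
    · exact (hneg s hs t ht e).le
  have c0 : ∀ s ∈ cone L₀, qS s s = 0 := by
    rintro _ ⟨a, -, s, hs, rfl⟩
    simp only [map_smul, LinearMap.smul_apply, smul_eq_mul, h0 s hs, mul_zero]
  have c1 : ∀ s ∈ cone L₀, ∀ t ∈ cone L₀, ‖s.snd - t.snd‖ ≤ ‖s.fst - t.fst‖ := by
    intro s hs t ht
    have h2 : qS s t ≤ 0 := by
      obtain ⟨a, ha, s, hs, rfl⟩ := hs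
      obtain ⟨b, hb, t, ht, rfl⟩ := ht
      simp only [map_smul, LinearMap.smul_apply, smul_eq_mul]
      exact mul_nonpos_of_nonneg_of_nonpos hb
        (mul_nonpos_of_nonneg_of_nonpos ha (hle s hs t ht))
    have h3 : qS (s - t) (s - t) = ‖s.fst - t.fst‖ ^ 2 - ‖s.snd - t.snd‖ ^ 2 := qS_self _
    simp only [map_sub, LinearMap.sub_apply, c0 s hs, c0 t ht, qS_comm t s] at h3
    exact (sq_le_sq₀ (norm_nonneg _) (norm_nonneg _)).1 (by linarith)
  have h2 : (√2 : ℝ) ≠ 0 := by positivity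
  have key : ∀ v : E4, ‖v‖ = 1 → ‖(√2 : ℝ)⁻¹ • v‖ ^ 2 = 1 / 2 := fun v hv => by
    rw [norm_smul, hv, mul_one, Real.norm_eq_abs, sq_abs, inv_pow, Real.sq_sqrt zero_le_two,
      one_div]
  have c2 : ∀ u : E4, ∃ s ∈ cone L₀, s.fst = u := fun u => by
    rcases eq_or_ne u 0 with rfl | hu
    · obtain ⟨s, hs, -⟩ := hon _ (key _ (norm_ee 0))
      exact ⟨(0 : ℝ) • s, ⟨0, le_rfl, s, hs, rfl⟩, by simp⟩
    · have hu' : ‖u‖ ≠ 0 := norm_ne_zero_iff.2 hu
      obtain ⟨s, hs, e⟩ := hon _ (key _ (norm_smul_inv_norm (𝕜 := ℝ) hu))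
      refine ⟨(‖u‖ * √2) • s, ⟨_, by positivity, s, hs, rfl⟩, ?_⟩
      simp [e, smul_smul, show ‖u‖ * √2 * ((√2)⁻¹ * ‖u‖⁻¹) = 1 by field_simp]
  choose G hG hG' using c2
  have c3 : ∀ s ∈ cone L₀, (G s.fst).snd = s.snd := fun s hs => by
    have h3 := c1 _ (hG s.fst) s hs
    rwa [hG', sub_self, norm_zero, norm_le_zero_iff, sub_eq_zero] at h3
  have c4 : ∀ u, gr (fun u => (G u).snd) u = G u := fun u => S_ext (hG' u).symm rfl
  refine ⟨fun u => (G u).snd, ⟨LipschitzWith.mk_one fun x y => ?_, fun t ht u => ?_, ?_,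
    fun u => ?_⟩, ?_⟩
  · have h3 := c1 _ (hG x) _ (hG y)
    rwa [hG', hG', ← dist_eq_norm, ← dist_eq_norm] at h3
  · have h3 : t • G u ∈ cone L₀ := by
      obtain ⟨a, ha, s, hs, e⟩ := hG u
      exact ⟨t * a, mul_nonneg ht ha, s, hs, by rw [e, smul_smul]⟩
    have h4 := c3 _ h3
    rwa [show (t • G u).fst = t • u by simp [hG']] at h4
  · obtain ⟨s₁, hs₁, e₁⟩ := hon _ (key _ (norm_ee 0))
    obtain ⟨s₂, hs₂, e₂⟩ := hon (-s₁.fst) (by rw [norm_neg, e₁, key _ (norm_ee 0)])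
    have hne : s₁ ≠ s₂ := by
      rintro rfl
      have h3 : (2 : ℝ) • s₁.fst = 0 := by rw [two_smul]; nth_rewrite 1 [e₂]; simp
      have h4 := key _ (norm_ee 0)
      rw [← e₁, (smul_eq_zero.1 h3).resolve_left two_ne_zero] at h4
      norm_num at h4
    have hpos : ∀ s ∈ L₀, 0 < ⟪s₁.snd + s₂.snd, s.snd⟫ := fun s hs => by
      have h3 : qS s₁ s + qS s₂ s = -⟪s₁.snd + s₂.snd, s.snd⟫ := by
        rw [qS_apply, qS_apply, e₂, inner_neg_left, inner_add_left]
        ring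
      have h4 := hle s₁ hs₁ s hs
      have h5 := hle s₂ hs₂ s hs
      rcases eq_or_ne s₁ s with rfl | e
      · linarith [hneg s₂ hs₂ s₁ hs₁ hne.symm]
      · linarith [hneg s₁ hs₁ s hs e]
    generalize s₁.snd + s₂.snd = b at hpos
    obtain ⟨m, hm, hmin⟩ := hc.exists_isMinOn ⟨s₁, hs₁⟩
      (f := fun s : S => ⟪b, s.snd⟫) (continuous_const.inner sndS.continuous).continuousOn
    have hb : b ≠ 0 := by
      rintro rfl
      simpa using hpos s₁ hs₁
    have hb' : 0 < ‖b‖⁻¹ := inv_pos.2 (norm_pos_iff.2 hb)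
    refine ⟨‖b‖⁻¹ • b, norm_smul_inv_norm (𝕜 := ℝ) hb, _, mul_pos hb' (hpos m hm), fun u => ?_⟩
    obtain ⟨a, ha, s, hs, e⟩ := hG u
    have h3 : ‖s.snd‖ ≤ 1 := by
      have h4 := normS_sq s
      rw [h1 s hs] at h4
      exact (sq_le_sq₀ (norm_nonneg _) zero_le_one).1 (by linarith [sq_nonneg ‖s.fst‖])
    have h4 : ⟪b, m.snd⟫ * ‖s.snd‖ ≤ ⟪b, s.snd⟫ :=
      (mul_le_of_le_one_right (hpos m hm).le h3).trans (hmin hs)
    rw [e, show (a • s).snd = a • s.snd from rfl, norm_smul, Real.norm_of_nonneg ha,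
      real_inner_smul_left, real_inner_smul_right, mul_assoc, mul_left_comm _ a]
    exact mul_le_mul_of_nonneg_left (mul_le_mul_of_nonneg_left h4 ha) hb'.le
  · have h3 := c0 _ (hG u)
    rw [qS_self, hG', sub_eq_zero] at h3
    exact ((sq_eq_sq₀ (norm_nonneg _) (norm_nonneg _)).1 h3).symm
  · ext s
    constructor
    · rintro ⟨u, rfl⟩
      rw [c4]
      exact hG u
    · intro hs
      exact ⟨s.fst, S_ext rfl (c3 s hs)⟩

end H42
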